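import Mathlib

set_option autoImplicit false

namespace Pool.Agent.Lib.MP_25e49d_an

open Finset

/-- The sum of the heights of the tops strictly between `p` and `q`. -/
noncomputable def topSum (h : ℝ → ℝ) (𝒯 : Finset ℝ) (p q : ℝ) : ℝ :=
  ∑ T ∈ 𝒯.filter (fun T => p < T ∧ T < q), h T

theorem topSum_nonneg {h : ℝ → ℝ} (h0 : ∀ x, 0 ≤ h x) (𝒯 : Finset ℝ) (p q : ℝ) :
    0 ≤ topSum h 𝒯 p q := sum_nonneg fun x _ => h0 x

theorem topSum_split {h : ℝ → ℝ} {𝒯 : Finset ℝ} {p q T : ℝ} (hT : T ∈ 𝒯) (h1 : p < T)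
    (h2 : T < q) : topSum h 𝒯 p q = topSum h 𝒯 p T + h T + topSum h 𝒯 T q := by
  unfold topSum
  rw [sum_filter, sum_filter, sum_filter]
  have e : h T = ∑ x ∈ 𝒯, if x = T then h x else 0 := by
    rw [sum_ite_eq' 𝒯 T h, if_pos hT]
  rw [e, ← sum_add_distrib, ← sum_add_distrib]
  refine sum_congr rfl fun x _ => ?_
  rcases lt_trichotomy x T with hx | hx | hx
  · have a1 : x < q := hx.trans h2
    simp [hx, hx.ne, a1, not_lt.2 hx.le]
  · subst hx
    simp [h1, h2]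
  · have a1 : p < x := h1.trans hx
    simp [hx, hx.ne', a1, not_lt.2 hx.le]

/-- The data of peak `i`: it is paid by a top in its cell, or it has higher tops on both sides
and satisfies the two-leg inequality for all reference points between them. -/
def PeakOk (h : ℝ → ℝ) (𝒯 : Finset ℝ) (Y m P : ℕ → ℝ) (i : ℕ) : Prop :=
  (∃ T ∈ 𝒯, Y i < T ∧ T < Y (i + 1) ∧ P i ≤ h T) ∨
  ∃ l ∈ 𝒯, ∃ r ∈ 𝒯, l < Y i ∧ Y (i + 1) < r ∧ P i ≤ h l ∧ P i ≤ h r ∧
    ∀ p q, l ≤ p → p ≤ Y i → Y (i + 1) ≤ q → q ≤ r →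
      (q - p) * P i ≤ (q - Y i) * m i + (Y (i + 1) - p) * m (i + 1)

theorem bump_tele {h : ℝ → ℝ} {𝒯 : Finset ℝ} {Y m P : ℕ → ℝ} {K : ℕ}
    (hY : ∀ i j, i ≤ j → j ≤ K → Y i ≤ Y j) (hok : ∀ i, i < K → PeakOk h 𝒯 Y m P i)
    {p q : ℝ} {l r : ℕ} (hlr : l ≤ r) (hr : r ≤ K) (hp : p ≤ Y l) (hq : Y r ≤ q)
    (hhigh : ∀ i, l ≤ i → i < r → ∀ T ∈ 𝒯, p < T → T < q → h T < P i) :
    (q - p) * ∑ i ∈ Ico l r, (P i - m i) ≤ (Y r - p) * m r - (Y l - p) * m l := by
  induction r, hlr using Nat.le_induction with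
  | base => simp
  | succ r hlr ih =>
    have a1 : Y r ≤ Y (r + 1) := hY r (r + 1) (Nat.le_succ r) hr
    have a2 : p ≤ Y r := hp.trans (hY l r hlr (by omega))
    have h1 := ih (by omega) (a1.trans hq) fun i hi hi' => hhigh i hi (by omega)
    rw [sum_Ico_succ_top hlr, mul_add]
    have h2 := hhigh r hlr (Nat.lt_succ_self r)
    rcases hok r (by omega) with ⟨T, hT, b1, b2, b3⟩ | ⟨u, hu, w, hw, b1, b2, b3, b4, b5⟩
    · exact absurd (h2 T hT (by linarith) (by linarith)) (not_lt.2 b3)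
    · have c1 : u ≤ p := by
        by_contra hc
        exact absurd (h2 u hu (not_le.1 hc) (by linarith)) (not_lt.2 b3)
      have c2 : q ≤ w := by
        by_contra hc
        exact absurd (h2 w hw (by linarith) (not_le.1 hc)) (not_lt.2 b4)
      have := b5 p q c1 a2 hq c2
      linarith

theorem bump_left {p T q S W vl vs c : ℝ} (h1 : p < T) (h2 : T < q) (hs : 0 ≤ vs)
    (hl : vl ≤ (T - p) * c) (h : (T - p) * S ≤ vl - vs + (T - p) * W) :
    (q - p) * S ≤ vl - vs + (q - T) * c + (q - p) * W := by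
  have a1 : 0 < T - p := by linarith
  refine le_of_mul_le_mul_left ?_ a1
  have a2 := mul_le_mul_of_nonneg_left h (by linarith : 0 ≤ q - p)
  have a3 := mul_le_mul_of_nonneg_left hl (by linarith : 0 ≤ q - T)
  have a4 := mul_nonneg (by linarith : 0 ≤ q - T) hs
  nlinarith

theorem bump_right {p T q S W wr wt c : ℝ} (h1 : p < T) (h2 : T < q) (hs : 0 ≤ wt)
    (hl : wr ≤ (q - T) * c) (h : (q - T) * S ≤ wr - wt + (q - T) * W) :
    (q - p) * S ≤ wr - wt + (T - p) * c + (q - p) * W := by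
  have a1 : 0 < q - T := by linarith
  refine le_of_mul_le_mul_left ?_ a1
  have a2 := mul_le_mul_of_nonneg_left h (by linarith : 0 ≤ q - p)
  have a3 := mul_le_mul_of_nonneg_left hl (by linarith : 0 ≤ T - p)
  have a4 := mul_nonneg (by linarith : 0 ≤ T - p) hs
  nlinarith

/-- The split of a segment of valleys at a top of height `H`. -/
theorem bump_split {Y m : ℕ → ℝ} {T H : ℝ} {s t : ℕ} (hst : s ≤ t)
    (hne : ∀ j, j ≤ t → Y j ≠ T) :
    ∃ l r, s ≤ l ∧ l ≤ r ∧ r ≤ t ∧ (l = s ∨ (Y l < T ∧ m l ≤ H)) ∧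
      (r = t ∨ (T < Y r ∧ m r ≤ H)) ∧ (∀ j, l < j → j < r → H < m j) ∧
      (l < r → Y l < T ∨ H < m l) ∧ (l < r → T < Y r ∨ H < m r) := by
  classical
  have hl : ∃ l, s ≤ l ∧ l ≤ t ∧ (l = s ∨ (Y l < T ∧ m l ≤ H)) ∧
      ∀ j, l < j → j ≤ t → Y j < T → H < m j := by
    let A := (Icc s t).filter fun j => j = s ∨ (Y j < T ∧ m j ≤ H)
    have hA : A.Nonempty := ⟨s, by simp [A, hst]⟩
    have h1 := mem_filter.1 (A.max'_mem hA)
    refine ⟨A.max' hA, (mem_Icc.1 h1.1).1, (mem_Icc.1 h1.1).2, h1.2, fun j a1 a2 a3 => ?_⟩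
    by_contra hc
    have : j ∈ A := mem_filter.2 ⟨mem_Icc.2 ⟨by have := (mem_Icc.1 h1.1).1; omega, a2⟩,
      Or.inr ⟨a3, not_lt.1 hc⟩⟩
    exact absurd (A.le_max' j this) (not_le.2 a1)
  obtain ⟨l, l1, l2, l3, l4⟩ := hl
  by_cases hc : T < Y l ∧ m l ≤ H
  · refine ⟨l, l, l1, le_rfl, l2, l3, Or.inr hc, fun j a1 a2 => by omega,
      fun a => absurd a (lt_irrefl _), fun a => absurd a (lt_irrefl _)⟩
  let B := (Icc l t).filter fun j => j = t ∨ (T < Y j ∧ m j ≤ H)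
  have hB : B.Nonempty := ⟨t, by simp [B, l2]⟩
  have h1 := mem_filter.1 (B.min'_mem hB)
  refine ⟨l, B.min' hB, l1, (mem_Icc.1 h1.1).1, (mem_Icc.1 h1.1).2, l3, h1.2,
    fun j a1 a2 => ?_, fun _ => ?_, fun a => ?_⟩
  · have a3 : j ≤ t := by have := (mem_Icc.1 h1.1).2; omega
    rcases lt_or_gt_of_ne (hne j a3) with a4 | a4
    · exact l4 j a1 a3 a4
    · by_contra hc'
      have : j ∈ B := mem_filter.2 ⟨mem_Icc.2 ⟨a1.le, a3⟩, Or.inr ⟨a4, not_lt.1 hc'⟩⟩
      exact absurd (B.min'_le j this) (not_le.2 a2)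
  · rcases lt_or_gt_of_ne (hne l l2) with a4 | a4
    · exact Or.inl a4
    · exact Or.inr (not_le.1 fun a5 => hc ⟨a4, a5⟩)
  · rcases lt_or_gt_of_ne (hne (B.min' hB) (mem_Icc.1 h1.1).2) with a4 | a4
    · exact Or.inr (l4 _ a (mem_Icc.1 h1.1).2 a4)
    · exact Or.inl a4

/-- The recursion on the highest top between the reference points. -/
theorem bump_rec {h : ℝ → ℝ} (h0 : ∀ x, 0 ≤ h x) {𝒯 : Finset ℝ} {Y m P : ℕ → ℝ} {K : ℕ}
    (hY : ∀ i j, i ≤ j → j ≤ K → Y i ≤ Y j) (hok : ∀ i, i < K → PeakOk h 𝒯 Y m P i)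
    (hm0 : ∀ j, 0 ≤ m j)
    (hm : ∀ i, i < K → (m i ≤ P i ∨ m i ≤ 0) ∧ (m (i + 1) ≤ P i ∨ m (i + 1) ≤ 0))
    (hne : ∀ T ∈ 𝒯, ∀ j, j ≤ K → Y j ≠ T) (n : ℕ) :
    ∀ (p q : ℝ) (s t : ℕ), (𝒯.filter (fun T => p < T ∧ T < q)).card ≤ n → p < q → s ≤ t → t ≤ K →
      p ≤ Y s → Y t ≤ q →
      (q - p) * ∑ i ∈ Ico s t, (P i - m i) ≤
        (Y t - p) * m t - (Y s - p) * m s + (q - p) * topSum h 𝒯 p q := by
  induction n with
  | zero =>
    intro p q s t hc hpq hst ht hp hq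
    have h1 := bump_tele hY hok hst ht hp hq fun i _ _ T hT a1 a2 => by
      have : T ∈ 𝒯.filter (fun T => p < T ∧ T < q) := mem_filter.2 ⟨hT, a1, a2⟩
      rw [card_eq_zero.1 (Nat.le_zero.1 hc)] at this
      exact absurd this (notMem_empty T)
    have h2 := mul_nonneg (sub_pos.2 hpq).le (topSum_nonneg h0 𝒯 p q)
    linarith
  | succ n ih =>
    intro p q s t hc hpq hst ht hp hq
    rcases (𝒯.filter (fun T => p < T ∧ T < q)).eq_empty_or_nonempty with he | he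
    · exact ih p q s t (by rw [he]; simp) hpq hst ht hp hq
    obtain ⟨T, hT, hmax⟩ := exists_max_image _ h he
    obtain ⟨hT, hpT, hTq⟩ := mem_filter.1 hT
    have hmax' : ∀ x ∈ 𝒯, p < x → x < q → h x ≤ h T := fun x a1 a2 a3 =>
      hmax x (mem_filter.2 ⟨a1, a2, a3⟩)
    have cL : (𝒯.filter (fun x => p < x ∧ x < T)).card ≤ n := by
      have : 𝒯.filter (fun x => p < x ∧ x < T) ⊂ 𝒯.filter (fun T => p < T ∧ T < q) := by
        refine ⟨fun x hx => ?_, fun hx => ?_⟩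
        · obtain ⟨a1, a2, a3⟩ := mem_filter.1 hx
          exact mem_filter.2 ⟨a1, a2, a3.trans hTq⟩
        · exact lt_irrefl T (mem_filter.1 (hx (mem_filter.2 ⟨hT, hpT, hTq⟩))).2.2
      have := card_lt_card this
      omega
    have cR : (𝒯.filter (fun x => T < x ∧ x < q)).card ≤ n := by
      have : 𝒯.filter (fun x => T < x ∧ x < q) ⊂ 𝒯.filter (fun T => p < T ∧ T < q) := by
        refine ⟨fun x hx => ?_, fun hx => ?_⟩
        · obtain ⟨a1, a2, a3⟩ := mem_filter.1 hx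
          exact mem_filter.2 ⟨a1, hpT.trans a2, a3⟩
        · exact lt_irrefl T (mem_filter.1 (hx (mem_filter.2 ⟨hT, hpT, hTq⟩))).2.1
      have := card_lt_card this
      omega
    obtain ⟨l, r, b1, b2, b3, b4, b5, b6, b7, b8⟩ :=
      bump_split (Y := Y) (m := m) (H := h T) hst fun j hj => hne T hT j (hj.trans ht)
    have dL := sub_pos.2 hpT
    have dR := sub_pos.2 hTq
    have dP := sub_pos.2 hpq
    have wL := mul_nonneg dP.le (topSum_nonneg h0 𝒯 p T)
    have wR := mul_nonneg dP.le (topSum_nonneg h0 𝒯 T q)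
    have hvs : 0 ≤ (Y s - p) * m s := mul_nonneg (sub_nonneg.2 hp) (hm0 s)
    have hwt : 0 ≤ (q - Y t) * m t := mul_nonneg (sub_nonneg.2 hq) (hm0 t)
    have hpl : p ≤ Y l := hp.trans (hY s l b1 (by omega))
    have hrq : Y r ≤ q := (hY r t b3 ht).trans hq
    have left : ∀ c, 0 ≤ c → (Y l < T → m l ≤ h T → m l ≤ c) →
        (q - p) * ∑ i ∈ Ico s l, (P i - m i) ≤ (Y l - p) * m l - (Y s - p) * m s +
          (q - T) * c + (q - p) * topSum h 𝒯 p T := by
      intro c hc0 hc1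
      rcases b4 with rfl | ⟨a1, a2⟩
      · have := mul_nonneg dR.le hc0
        simp only [Ico_self, sum_empty, mul_zero]
        linarith
      · refine bump_left hpT hTq hvs ?_ (ih p T s l cL hpT b1 (by omega) hp a1.le)
        exact mul_le_mul (by linarith) (hc1 a1 a2) (hm0 l) dL.le
    have right : ∀ c, 0 ≤ c → (T < Y r → m r ≤ h T → m r ≤ c) →
        (q - p) * ∑ i ∈ Ico r t, (P i - m i) ≤ (Y t - p) * m t - (Y r - p) * m r +
          (T - p) * c + (q - p) * topSum h 𝒯 T q := by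
      intro c hc0 hc1
      rcases b5 with rfl | ⟨a1, a2⟩
      · have := mul_nonneg dL.le hc0
        simp only [Ico_self, sum_empty, mul_zero]
        linarith
      · have h1 := ih T q r t cR hTq b3 ht a1.le hq
        have h2 := bump_right (S := ∑ i ∈ Ico r t, (P i - m i) - m t + m r)
          (W := topSum h 𝒯 T q) (wr := (q - Y r) * m r) (c := c) hpT hTq hwt
          (mul_le_mul (by linarith) (hc1 a1 a2) (hm0 r) dR.le) (by linarith)
        linarith
    rw [← sum_Ico_consecutive _ b1 (b2.trans b3), ← sum_Ico_consecutive _ b2 b3,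
      topSum_split hT hpT hTq]
    by_cases hall : ∀ i, l ≤ i → i < r → h T < P i
    · have h1 := left (h T) (h0 T) fun _ a => a
      have h2 := right (h T) (h0 T) fun _ a => a
      have h3 := bump_tele hY hok b2 (b3.trans ht) hpl hrq fun i a1 a2 x a3 a4 a5 =>
        (hmax' x a3 a4 a5).trans_lt (hall i a1 a2)
      linarith
    · push Not at hall
      obtain ⟨i, i1, i2, i3⟩ := hall
      have hi := hm i (by omega)
      have k1 : ¬ h T < m i := fun a => by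
        rcases hi.1 with a1 | a1 <;> linarith [h0 T]
      have k2 : ¬ h T < m (i + 1) := fun a => by
        rcases hi.2 with a1 | a1 <;> linarith [h0 T]
      have e1 : i = l := by
        by_contra a
        exact k1 (b6 i (by omega) i2)
      have e2 : r = i + 1 := by
        by_contra a
        exact k2 (b6 (i + 1) (by omega) (by omega))
      subst e1 e2
      have k3 : Y i < T := (b7 i2).resolve_right k1
      have k4 : T < Y (i + 1) := (b8 i2).resolve_right k2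
      have h1 := left (m i) (hm0 i) fun _ _ => le_rfl
      have h2 := right (m (i + 1)) (hm0 _) fun _ _ => le_rfl
      rw [Nat.Ico_succ_singleton, sum_singleton]
      have h3 := mul_le_mul_of_nonneg_left i3 dP.le
      have h4 := mul_nonneg (sub_pos.2 k3).le (hm0 i)
      have h5 := mul_nonneg (sub_pos.2 k4).le (hm0 (i + 1))
      linarith

/-- The finite inequality: peaks minus valleys are paid by the tops. -/
theorem bump_sum {h : ℝ → ℝ} (h0 : ∀ x, 0 ≤ h x) {𝒯 : Finset ℝ} {Y m P : ℕ → ℝ} {K : ℕ}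
    (hY : ∀ i j, i ≤ j → j ≤ K → Y i ≤ Y j) (hok : ∀ i, i < K → PeakOk h 𝒯 Y m P i)
    (hm0 : ∀ j, 0 ≤ m j)
    (hm : ∀ i, i < K → (m i ≤ P i ∨ m i ≤ 0) ∧ (m (i + 1) ≤ P i ∨ m (i + 1) ≤ 0))
    (hne : ∀ T ∈ 𝒯, ∀ j, j ≤ K → Y j ≠ T) (hlt : Y 0 < Y K) (hK : m K = 0) :
    ∑ i ∈ range K, (P i - m i) ≤ ∑ T ∈ 𝒯, h T := by
  have h1 := bump_rec h0 hY hok hm0 hm hne _ (Y 0) (Y K) 0 K le_rfl hlt (Nat.zero_le K) le_rfl
    le_rfl le_rfl
  rw [hK, mul_zero, sub_self, zero_mul, sub_zero, zero_add, ← range_eq_Ico] at h1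
  exact (le_of_mul_le_mul_left h1 (sub_pos.2 hlt)).trans
    (sum_le_sum_of_subset_of_nonneg (filter_subset _ _) fun x _ _ => h0 x)

/-- Two points lie on the same bump. -/
def Lnk (h : ℝ → ℝ) (s t : ℝ) : Prop := s = t ∨ ∃ ε, 0 < ε ∧ ∀ z ∈ Set.uIcc s t, ε ≤ h z

theorem Lnk.symm {h : ℝ → ℝ} {s t : ℝ} (a : Lnk h s t) : Lnk h t s := by
  rcases a with a | ⟨ε, a1, a2⟩
  · exact Or.inl a.symm
  · exact Or.inr ⟨ε, a1, by rwa [Set.uIcc_comm]⟩

theorem Lnk.trans {h : ℝ → ℝ} {s t u : ℝ} (a : Lnk h s t) (b : Lnk h t u) : Lnk h s u := by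
  rcases a with rfl | ⟨ε, a1, a2⟩
  · exact b
  rcases b with rfl | ⟨δ, b1, b2⟩
  · exact Or.inr ⟨ε, a1, a2⟩
  refine Or.inr ⟨min ε δ, lt_min a1 b1, fun z hz => ?_⟩
  rcases Set.uIcc_subset_uIcc_union_uIcc hz with c | c
  · exact (min_le_left _ _).trans (a2 z c)
  · exact (min_le_right _ _).trans (b2 z c)

/-- One highest representative on every bump. -/
theorem exists_tops (h : ℝ → ℝ) (C : Finset ℝ) :
    ∃ 𝒯 : Finset ℝ, 𝒯 ⊆ C ∧ (∀ s ∈ 𝒯, ∀ t ∈ 𝒯, Lnk h s t → s = t) ∧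
      ∀ c ∈ C, ∃ T ∈ 𝒯, Lnk h c T ∧ h c ≤ h T := by
  classical
  induction C using Finset.induction_on with
  | empty => exact ⟨∅, Subset.rfl, by simp, by simp⟩
  | insert c C _ ih =>
    obtain ⟨𝒯, h1, h2, h3⟩ := ih
    by_cases hc : ∃ T ∈ 𝒯, Lnk h c T ∧ h c ≤ h T
    · refine ⟨𝒯, h1.trans (subset_insert _ _), h2, fun x hx => ?_⟩
      rcases mem_insert.1 hx with rfl | hx
      · exact hc
      · exact h3 x hx
    · refine ⟨insert c (𝒯.filter fun T => ¬ Lnk h c T),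
        insert_subset_insert _ ((filter_subset _ _).trans h1), fun s hs t ht hst => ?_,
        fun x hx => ?_⟩
      · rcases mem_insert.1 hs with rfl | hs <;> rcases mem_insert.1 ht with rfl | ht
        · rfl
        · exact absurd hst (mem_filter.1 ht).2
        · exact absurd hst.symm (mem_filter.1 hs).2
        · exact h2 s (mem_filter.1 hs).1 t (mem_filter.1 ht).1 hst
      · rcases mem_insert.1 hx with rfl | hx
        · exact ⟨x, mem_insert_self _ _, Or.inl rfl, le_rfl⟩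
        · obtain ⟨T, a1, a2, a3⟩ := h3 x hx
          by_cases hT : Lnk h c T
          · refine ⟨c, mem_insert_self _ _, a2.trans hT.symm, a3.trans ?_⟩
            exact (not_le.1 fun a4 => hc ⟨T, a1, hT, a4⟩).le
          · exact ⟨T, mem_insert_of_mem (mem_filter.2 ⟨a1, hT⟩), a2, a3⟩

/-- Tops on different bumps are paid by the variation. -/
theorem tops_le_var {h v : ℝ → ℝ} (h0 : ∀ x, 0 ≤ h x)
    (hv : ∀ s t, s ≤ t → |h t - h s| ≤ v t - v s) {z : ℝ} (𝒯 : Finset ℝ) :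
    (∀ s ∈ 𝒯, ∀ t ∈ 𝒯, Lnk h s t → s = t) → (∀ T ∈ 𝒯, z ≤ T) → ∀ w, z ≤ w → (∀ T ∈ 𝒯, T ≤ w) →
      2 * ∑ T ∈ 𝒯, h T - h z - h w ≤ v w - v z := by
  induction 𝒯 using Finset.induction_on_max with
  | empty =>
    intro _ _ w hw _
    have := (abs_nonneg _).trans (hv z w hw)
    have := h0 z
    have := h0 w
    simp only [sum_empty]
    linarith
  | insert T 𝒯 hT ih =>
    intro h1 h2 w _ hw
    have hzT := h2 T (mem_insert_self _ _)
    have a1 := (abs_le.1 (hv T w (hw T (mem_insert_self _ _)))).1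
    rw [sum_insert fun a => lt_irrefl T (hT T a)]
    rcases 𝒯.eq_empty_or_nonempty with rfl | hne
    · have a2 := (abs_le.1 (hv z T hzT)).2
      simp only [sum_empty]
      linarith
    · have b1 := 𝒯.max'_mem hne
      have b2 : ¬ Lnk h (𝒯.max' hne) T := fun a =>
        (hT _ b1).ne (h1 _ (mem_insert_of_mem b1) _ (mem_insert_self _ _) a)
      refine le_of_forall_pos_le_add fun ε hε => ?_
      have b3 : ∃ x ∈ Set.uIcc (𝒯.max' hne) T, h x < ε / 2 := by
        by_contra hc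
        push Not at hc
        exact b2 (Or.inr ⟨ε / 2, by linarith, hc⟩)
      obtain ⟨x, x1, x2⟩ := b3
      rw [Set.uIcc_of_le (hT _ b1).le] at x1
      have b4 := ih (fun s hs t ht => h1 s (mem_insert_of_mem hs) t (mem_insert_of_mem ht))
        (fun s hs => h2 s (mem_insert_of_mem hs)) x
        ((h2 _ (mem_insert_of_mem b1)).trans x1.1) fun s hs => (𝒯.le_max' s hs).trans x1.1
      have b5 := (abs_le.1 (hv x T x1.2)).2
      linarith

end Pool.Agent.Lib.MP_25e49d_an
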