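import Pool.Agent.Lib.MP_25e49d_an.BumpA

set_option autoImplicit false

namespace Pool.Agent.Lib.MP_25e49d_an

open Finset

/-- The facts about a nonnegative function `h`, its primitive `F` and a majorant `M` of the
centred averages that the finite argument uses. -/
structure Avg (h F M : ℝ → ℝ) : Prop where
  h0 : ∀ x, 0 ≤ h x
  up : ∀ (S : Finset ℝ) s t c, s ≤ t → (∀ x, x ∉ S → s < x → x < t → h x ≤ c) →
    F t - F s ≤ c * (t - s)
  lo : ∀ s t c, s ≤ t → (∀ x, s < x → x < t → c ≤ h x) → c * (t - s) ≤ F t - F s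
  cen : ∀ y s t, s ≤ t → s + t = 2 * y → F t - F s ≤ M y * (t - s)

variable {h F M : ℝ → ℝ}

theorem Avg.mono (H : Avg h F M) {s t : ℝ} (hst : s ≤ t) : F s ≤ F t := by
  have := H.lo s t 0 hst fun x _ _ => H.h0 x
  linarith

theorem Avg.le_M (H : Avg h F M) {s t y c : ℝ} (hs : s < y) (ht : y < t)
    (hc : ∀ x, s < x → x < t → c ≤ h x) : c ≤ M y := by
  have r0 : 0 < min (y - s) (t - y) := lt_min (by linarith) (by linarith)
  have r1 := min_le_left (y - s) (t - y)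
  have r2 := min_le_right (y - s) (t - y)
  generalize min (y - s) (t - y) = r at r0 r1 r2
  have e1 := H.cen y (y - r) (y + r) (by linarith) (by ring)
  have e2 := H.lo (y - r) (y + r) c (by linarith) fun x a1 a2 => hc x (by linarith) (by linarith)
  exact le_of_mul_le_mul_right (e2.trans e1) (by linarith)

theorem Avg.M_nonneg (H : Avg h F M) (y : ℝ) : 0 ≤ M y :=
  H.le_M (s := y - 1) (t := y + 1) (by linarith) (by linarith) fun x _ _ => H.h0 x

theorem Avg.pt_right (H : Avg h F M) (S : Finset ℝ) {a b y P : ℝ} (hab : a < b)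
    (hy : 2 * y ≤ a + b) (hP : P * (b - a) < F b - F a) (hM : y ≤ a ∨ M y ≤ P) :
    ∃ x, x ∉ S ∧ y < x ∧ a < x ∧ x < b ∧ P ≤ h x := by
  by_contra hc
  push Not at hc
  rcases le_or_gt y a with h1 | h1
  · have := H.up S a b P hab.le fun x a1 a2 a3 => (hc x a1 (by linarith) a2 a3).le
    linarith
  · have e1 := H.cen y a (2 * y - a) (by linarith) (by ring)
    have e2 := H.up S (2 * y - a) b P (by linarith) fun x a1 a2 a3 =>
      (hc x a1 (by linarith) (by linarith) a3).le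
    have e3 := mul_le_mul_of_nonneg_right (hM.resolve_left (not_le.2 h1))
      (by linarith : 0 ≤ 2 * y - a - a)
    linarith

theorem Avg.pt_left (H : Avg h F M) (S : Finset ℝ) {a b y P : ℝ} (hab : a < b)
    (hy : a + b ≤ 2 * y) (hP : P * (b - a) < F b - F a) (hM : b ≤ y ∨ M y ≤ P) :
    ∃ x, x ∉ S ∧ x < y ∧ a < x ∧ x < b ∧ P ≤ h x := by
  by_contra hc
  push Not at hc
  rcases le_or_gt b y with h1 | h1
  · have := H.up S a b P hab.le fun x a1 a2 a3 => (hc x a1 (by linarith) a2 a3).le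
    linarith
  · have e1 := H.cen y (2 * y - b) b (by linarith) (by ring)
    have e2 := H.up S a (2 * y - b) P (by linarith) fun x a1 a2 a3 =>
      (hc x a1 (by linarith) a2 (by linarith)).le
    have e3 := mul_le_mul_of_nonneg_right (hM.resolve_left (not_le.2 h1))
      (by linarith : 0 ≤ b - (2 * y - b))
    linarith

/-- The two-leg inequality. -/
theorem Avg.legs (H : Avg h F M) {a b y y' P l r : ℝ} (hab : a < b) (hy : 2 * y ≤ a + b)
    (hy' : a + b ≤ 2 * y') (hP : P * (b - a) ≤ F b - F a) (hM : M y < P) (hM' : M y' < P)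
    (hl : ∀ x, l < x → x < a → P ≤ h x) (hr : ∀ x, b < x → x < r → P ≤ h x)
    {p q : ℝ} (hp : l ≤ p) (hq : q ≤ r) :
    (q - p) * P ≤ (q - y) * M y + (y' - p) * M y' := by
  obtain ⟨b', b1, b2, b3⟩ : ∃ b', b ≤ b' ∧ r ≤ b' ∧ ∀ x, b < x → x < b' → P ≤ h x :=
    ⟨max b r, le_max_left _ _, le_max_right _ _, fun x a1 a2 =>
      hr x a1 ((lt_max_iff.1 a2).resolve_left (not_lt.2 a1.le))⟩
  obtain ⟨a', a1, a2, a3⟩ : ∃ a', a' ≤ a ∧ a' ≤ l ∧ ∀ x, a' < x → x < a → P ≤ h x :=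
    ⟨min a l, min_le_left _ _, min_le_right _ _, fun x a1 a2 =>
      hl x ((min_lt_iff.1 a1).resolve_left (not_lt.2 a2.le)) a2⟩
  have e1 := H.lo b b' P b1 b3
  have e2 := H.lo a' a P a1 a3
  have c1 : a + b' ≤ 2 * y' := by
    by_contra hc
    have f1 := H.lo b (2 * y' - a) P (by linarith) fun x a4 a5 => b3 x a4 (by linarith)
    have f2 := H.cen y' a (2 * y' - a) (by linarith) (by ring)
    have f3 := mul_lt_mul_of_pos_right hM' (by linarith : 0 < 2 * y' - a - a)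
    linarith
  have c2 : 2 * y ≤ a' + b' := by
    by_contra hc
    have f1 := H.lo (2 * y - b') a P (by linarith) fun x a4 a5 => a3 x (by linarith) a5
    have f2 := H.cen y (2 * y - b') b' (by linarith) (by ring)
    have f3 := mul_lt_mul_of_pos_right hM (by linarith : 0 < b' - (2 * y - b'))
    linarith
  have g1 := H.cen y (2 * y - b') b' (by linarith) (by ring)
  have g2 := H.mono (by linarith : 2 * y - b' ≤ a')
  have g3 := H.cen y' a' (2 * y' - a') (by linarith) (by ring)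
  have g4 := H.mono (by linarith : b' ≤ 2 * y' - a')
  have g5 := mul_le_mul_of_nonneg_left hM.le (by linarith : 0 ≤ b' - q)
  have g6 := mul_le_mul_of_nonneg_left hM'.le (by linarith : 0 ≤ p - a')
  linarith

/-- Between two peaks the function comes arbitrarily close to zero. -/
def NoPosMin (h : ℝ → ℝ) : Prop :=
  ∀ s t u, s < t → t < u → h t < h s → h t < h u → ∀ ε, 0 < ε → ∃ z, s < z ∧ z < u ∧ h z < ε

theorem NoPosMin.le {h : ℝ → ℝ} (hcl : NoPosMin h) {s t z c : ℝ} (hl : Lnk h s t)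
    (hs : c ≤ h s) (ht : c ≤ h t) (h1 : s < z) (h2 : z < t) : c ≤ h z := by
  by_contra hc
  rcases hl with rfl | ⟨ε, e1, e2⟩
  · exact lt_asymm h1 h2
  · obtain ⟨w, w1, w2, w3⟩ := hcl s z t h1 h2 (by linarith) (by linarith) ε e1
    exact absurd (e2 w (Set.mem_uIcc_of_le w1.le w2.le)) (not_le.2 w3)

theorem bump_finite (H : Avg h F M) (hcl : NoPosMin h) (k : ℕ) (Y a b P : ℕ → ℝ)
    (hab : ∀ i, i ≤ k → a i < b i) (hYl : ∀ i, i ≤ k → 2 * Y i ≤ a i + b i)
    (hYr : ∀ i, i ≤ k → a i + b i ≤ 2 * Y (i + 1))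
    (hP : ∀ i, i ≤ k → P i * (b i - a i) < F (b i) - F (a i))
    (hAl : ∀ i, i + 1 ≤ k → M (Y (i + 1)) < P (i + 1))
    (hAr : ∀ i, i + 1 ≤ k → M (Y (i + 1)) < P i)
    (hL : ∀ i, i ≤ k → Y 0 ≤ a i) (hR : ∀ i, i ≤ k → b i ≤ Y (k + 1)) :
    ∃ 𝒯 : Finset ℝ, (∀ s ∈ 𝒯, ∀ t ∈ 𝒯, Lnk h s t → s = t) ∧
      (∀ T ∈ 𝒯, Y 0 ≤ T ∧ T ≤ Y (k + 1)) ∧
      ∑ i ∈ range (k + 1), P i - ∑ j ∈ range k, M (Y (j + 1)) ≤ ∑ T ∈ 𝒯, h T := by
  classical
  set S : Finset ℝ := (range (k + 2)).image Y with hS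
  have hYS : ∀ j, j ≤ k + 1 → Y j ∈ S := fun j hj => mem_image_of_mem Y (mem_range.2 (by omega))
  have hY : ∀ i j, i ≤ j → j ≤ k + 1 → Y i ≤ Y j := by
    intro i j hij
    induction j, hij using Nat.le_induction with
    | base => exact fun _ => le_rfl
    | succ j hij ih =>
      intro hj
      have := hYl j (by omega)
      have := hYr j (by omega)
      have := ih (by omega)
      linarith
  have hAl' : ∀ i, 0 < i → i ≤ k → M (Y i) < P i := fun i h1 h2 => by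
    obtain ⟨j, rfl⟩ : ∃ j, i = j + 1 := ⟨i - 1, by omega⟩
    exact hAl j h2
  have hpt : ∀ i, ∃ x x', i ≤ k → x ∉ S ∧ x' ∉ S ∧ Y 0 < x ∧ x < Y (k + 1) ∧ Y 0 < x' ∧
      x' < Y (k + 1) ∧ P i ≤ h x ∧ P i ≤ h x' ∧ ((Y i < x ∧ x < Y (i + 1)) ∨
        (a i < x ∧ x < Y i ∧ Y (i + 1) < x' ∧ x' < b i)) := by
    intro i
    by_cases hi : i ≤ k
    · obtain ⟨x', c1, c2, c3, c4, c5⟩ := H.pt_right S (hab i hi) (hYl i hi) (hP i hi) (by
        rcases Nat.eq_zero_or_pos i with rfl | h1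
        · exact Or.inl (hL 0 hi)
        · exact Or.inr (hAl' i h1 hi).le)
      obtain ⟨x, d1, d2, d3, d4, d5⟩ := H.pt_left S (hab i hi) (hYr i hi) (hP i hi) (by
        rcases hi.eq_or_lt with rfl | h1
        · exact Or.inl (hR i hi)
        · exact Or.inr (hAr i h1).le)
      have e1 := hL i hi
      have e2 := hR i hi
      rcases lt_or_gt_of_ne (show x' ≠ Y (i + 1) from fun e => c1 (e ▸ hYS _ (by omega)))
        with f1 | f1
      · exact ⟨x', x', fun _ => ⟨c1, c1, by linarith, by linarith, by linarith, by linarith, c5,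
          c5, Or.inl ⟨c2, f1⟩⟩⟩
      rcases lt_or_gt_of_ne (show x ≠ Y i from fun e => d1 (e ▸ hYS _ (by omega))) with f2 | f2
      · exact ⟨x, x', fun _ => ⟨d1, c1, by linarith, by linarith, by linarith, by linarith, d5,
          c5, Or.inr ⟨d3, f2, f1, c4⟩⟩⟩
      · exact ⟨x, x, fun _ => ⟨d1, d1, by linarith, by linarith, by linarith, by linarith, d5,
          d5, Or.inl ⟨f2, d2⟩⟩⟩
    · exact ⟨0, 0, fun a1 => absurd a1 hi⟩
  choose x x' hx using hpt
  obtain ⟨𝒯, t1, t2, t3⟩ := exists_tops h ((range (k + 1)).image x ∪ (range (k + 1)).image x')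
  have hT : ∀ T ∈ 𝒯, T ∉ S ∧ Y 0 < T ∧ T < Y (k + 1) := by
    intro T hT
    rcases mem_union.1 (t1 hT) with a1 | a1
    · obtain ⟨i, i1, rfl⟩ := mem_image.1 a1
      obtain ⟨c1, _, c3, c4, _⟩ := hx i (by have := mem_range.1 i1; omega)
      exact ⟨c1, c3, c4⟩
    · obtain ⟨i, i1, rfl⟩ := mem_image.1 a1
      obtain ⟨_, c1, _, _, c3, c4, _⟩ := hx i (by have := mem_range.1 i1; omega)
      exact ⟨c1, c3, c4⟩
  -- a linked pair of height at least `P i` does not cross the ends of the cell `i`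
  have cross : ∀ i, i ≤ k → ∀ s t, Lnk h s t → P i ≤ h s → P i ≤ h t → Y 0 < s → t < Y (k + 1) →
      ¬ (s < Y i ∧ Y i < t) ∧ ¬ (s < Y (i + 1) ∧ Y (i + 1) < t) := by
    intro i hi s t c1 c2 c3 c4 c5
    refine ⟨fun c => ?_, fun c => ?_⟩
    · have d1 : 0 < i := Nat.pos_of_ne_zero fun e => by
        rw [e] at c
        exact lt_asymm c.1 c4
      exact absurd (H.le_M c.1 c.2 fun z z1 z2 => hcl.le c1 c2 c3 z1 z2)
        (not_le.2 (hAl' i d1 hi))
    · have d1 : i + 1 ≤ k := lt_of_le_of_ne hi fun e => by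
        rw [e] at c
        exact lt_asymm c.2 c5
      exact absurd (H.le_M c.1 c.2 fun z z1 z2 => hcl.le c1 c2 c3 z1 z2) (not_le.2 (hAr i d1))
  set m : ℕ → ℝ := fun j => if 0 < j ∧ j ≤ k then M (Y j) else 0 with hm
  have hmi : ∀ j, 0 < j → j ≤ k → m j = M (Y j) := fun j a1 a2 => if_pos ⟨a1, a2⟩
  have hm0 : m 0 = 0 := if_neg fun c => lt_irrefl 0 c.1
  have hmk : m (k + 1) = 0 := if_neg fun c => by omega
  have key := bump_sum (𝒯 := 𝒯) (Y := Y) (m := m) (P := P) (K := k + 1) H.h0 hY ?_ ?_ ?_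
    (fun T a1 j hj e => (hT T a1).1 (e ▸ hYS j hj)) ?_ hmk
  · refine ⟨𝒯, t2, fun T a1 => ⟨(hT T a1).2.1.le, (hT T a1).2.2.le⟩, ?_⟩
    rw [sum_sub_distrib, sum_range_succ' m, hm0, add_zero] at key
    rwa [← sum_congr rfl fun j hj => hmi (j + 1) (Nat.succ_pos j) (mem_range.1 hj)]
  · intro i hi
    have hi' : i ≤ k := by omega
    obtain ⟨c1, c2, c3, c4, c5, c6, c7, c8, c9⟩ := hx i hi'
    obtain ⟨l, l1, l2, l3⟩ := t3 (x i) (mem_union_left _ (mem_image_of_mem x (mem_range.2 hi)))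
    obtain ⟨r, r1, r2, r3⟩ := t3 (x' i) (mem_union_right _ (mem_image_of_mem x' (mem_range.2 hi)))
    have n1 : l ≠ Y i := fun e => (hT l l1).1 (e ▸ hYS _ (by omega))
    have n2 : l ≠ Y (i + 1) := fun e => (hT l l1).1 (e ▸ hYS _ (by omega))
    have n3 : r ≠ Y (i + 1) := fun e => (hT r r1).1 (e ▸ hYS _ (by omega))
    have k1 := cross i hi' (x i) l l2 c7 (c7.trans l3) c3 (hT l l1).2.2
    have k2 := cross i hi' l (x i) l2.symm (c7.trans l3) c7 (hT l l1).2.1 c4
    have k3 := cross i hi' r (x' i) r2.symm (c8.trans r3) c8 (hT r r1).2.1 c6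
    rcases c9 with ⟨d1, d2⟩ | ⟨d1, d2, d3, d4⟩
    · refine Or.inl ⟨l, l1, ?_, ?_, c7.trans l3⟩
      · exact (lt_or_gt_of_ne n1).resolve_left fun e => k2.1 ⟨e, d1⟩
      · exact (lt_or_gt_of_ne n2).resolve_right fun e => k1.2 ⟨d2, e⟩
    · have i0 : 0 < i := Nat.pos_of_ne_zero fun e => by
        rw [e] at d2 c3
        exact lt_asymm d2 c3
      have i1 : i + 1 ≤ k := lt_of_le_of_ne hi' fun e => by
        rw [e] at d3 c6
        exact lt_asymm d3 c6
      refine Or.inr ⟨l, l1, r, r1, ?_, ?_, c7.trans l3, c8.trans r3, fun p q p1 _ _ q1 => ?_⟩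
      · exact (lt_or_gt_of_ne n1).resolve_right fun e => k1.1 ⟨d2, e⟩
      · exact (lt_or_gt_of_ne n3).resolve_left fun e => k3.2 ⟨e, d3⟩
      · rw [hmi i i0 hi', hmi (i + 1) (Nat.succ_pos i) i1]
        exact H.legs (hab i hi') (hYl i hi') (hYr i hi') (hP i hi').le (hAl' i i0 hi') (hAr i i1)
          (fun z z1 z2 => hcl.le l2.symm (c7.trans l3) c7 z1 (z2.trans d1))
          (fun z z1 z2 => hcl.le r2 c8 (c8.trans r3) (d4.trans z1) z2) p1 q1
  · intro j
    simp only [hm]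
    split_ifs
    · exact H.M_nonneg _
    · exact le_rfl
  · intro i hi
    constructor
    · rcases Nat.eq_zero_or_pos i with rfl | a1
      · exact Or.inr hm0.le
      · rw [hmi i a1 (by omega)]
        exact Or.inl (hAl' i a1 (by omega)).le
    · rcases (show i ≤ k by omega).eq_or_lt with rfl | a1
      · exact Or.inr hmk.le
      · rw [hmi (i + 1) (Nat.succ_pos i) a1]
        exact Or.inl (hAr i a1).le
  · have := hL 0 (Nat.zero_le k)
    have := hR 0 (Nat.zero_le k)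
    have := hab 0 (Nat.zero_le k)
    linarith

end Pool.Agent.Lib.MP_25e49d_an
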