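import Pool.Agent.Lib.MP_25e49d_an.Chain

set_option autoImplicit false

namespace Pool.Agent.Lib.MP_25e49d_an

open Finset MeasureTheory Filter Topology

theorem exists_far_right {bp : ℝ → ℝ} (hbp : Monotone bp) {V : ℝ} (hV : ∀ z, bp z ≤ V)
    {ε : ℝ} (hε : 0 < ε) : ∃ T, ∀ y z, T ≤ y → bp z - bp y ≤ ε := by
  have hb : BddAbove (Set.range bp) := ⟨V, by rintro _ ⟨z, rfl⟩; exact hV z⟩
  have hlt : sSup (Set.range bp) - ε < sSup (Set.range bp) := by linarith
  obtain ⟨_, ⟨T, rfl⟩, hT⟩ := exists_lt_of_lt_csSup (Set.range_nonempty bp) hlt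
  refine ⟨T, fun y z hy => ?_⟩
  have h1 := hbp hy
  have h2 : bp z ≤ sSup (Set.range bp) := le_csSup hb ⟨z, rfl⟩
  linarith

theorem exists_far_left {bq : ℝ → ℝ} (hbq : Monotone bq) {V : ℝ} (hV : ∀ z, V ≤ bq z)
    {ε : ℝ} (hε : 0 < ε) : ∃ T, ∀ y z, y ≤ T → bq y - bq z ≤ ε := by
  have hb : BddBelow (Set.range bq) := ⟨V, by rintro _ ⟨z, rfl⟩; exact hV z⟩
  have hlt : sInf (Set.range bq) < sInf (Set.range bq) + ε := by linarith
  obtain ⟨_, ⟨T, rfl⟩, hT⟩ := exists_lt_of_csInf_lt (Set.range_nonempty bq) hlt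
  refine ⟨T, fun y z hy => ?_⟩
  have h1 := hbq hy
  have h2 : sInf (Set.range bq) ≤ bq z := csInf_le hb ⟨z, rfl⟩
  linarith

theorem abstract_main {α : ℝ} (hα : 1 ≤ α ^ 2 + 4 * α) (hα0 : 0 < α) (hα1 : α ≤ 1)
    {F M bp bq : ℝ → ℝ} {V : ℝ} (hbp : Monotone bp) (hbq : Monotone bq)
    (hup : ∀ y1 y2 s t, y1 ≤ s → s ≤ t → t ≤ y2 → F t - F s ≤ (bp y2 - bq y1) * (t - s))
    (hlo : ∀ y1 y2 s t, y1 ≤ s → s ≤ t → t ≤ y2 → (bp y1 - bq y2) * (t - s) ≤ F t - F s)
    (hM1 : ∀ y s t, s ≤ t → InCore α s t y → F t - F s ≤ M y * (t - s))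
    (hM2 : ∀ y, bp y - bq y ≤ M y)
    (hM3 : ∀ x c, c < M x → ∃ a b, a < b ∧ InCore α a b x ∧ c * (b - a) < F b - F a)
    (hV : ∀ z1 z2 z3 z4, bp z1 - bp z2 + bq z3 - bq z4 ≤ V)
    {u : ℕ → ℝ} (hu : Monotone u) (n : ℕ) :
    ∑ i ∈ range n, |M (u (i + 1)) - M (u i)| ≤ V := by
  refine le_of_forall_pos_le_add fun ε hε => ?_
  obtain ⟨T1, hT1⟩ := exists_far_right hbp (V := V + bp 0)
    (fun z => by have := hV z 0 0 0; linarith) (ε := ε / 4) (by linarith)
  obtain ⟨T0, hT0⟩ := exists_far_left hbq (V := bq 0 - V)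
    (fun z => by have := hV 0 0 0 z; linarith) (ε := ε / 4) (by linarith)
  have hc := chain_step (chain_seq M hu (min_le_left (u 0) T0) n) (le_max_left (u n) T1)
  obtain ⟨k, x, y, h1, h2, h3, h4, h5, h6⟩ := hc
  set η : ℝ := ε / (4 * (k + 1)) with hη
  have hη0 : 0 < η := by positivity
  have hball : ∀ i, ∃ a b, i ≤ k → (a < b ∧ InCore α a b (x i) ∧
      (M (x i) - η) * (b - a) < F b - F a ∧
      (0 < i → M (y i) * (b - a) < F b - F a) ∧
      (i < k → M (y (i + 1)) * (b - a) < F b - F a)) := by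
    intro i
    by_cases hi : i ≤ k
    · have c1 : M (x i) - η < M (x i) := by linarith
      have c2 : (if 0 < i then M (y i) else M (x i) - η) < M (x i) := by
        split_ifs with h
        · obtain ⟨j, rfl⟩ : ∃ j, i = j + 1 := ⟨i - 1, by omega⟩
          exact (h4 j hi).2
        · exact c1
      have c3 : (if i < k then M (y (i + 1)) else M (x i) - η) < M (x i) := by
        split_ifs with h
        · exact (h4 i h).1
        · exact c1
      obtain ⟨a, b, hab, hcore, hlt⟩ := hM3 (x i) _ (max_lt c1 (max_lt c2 c3))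
      have hp : 0 ≤ b - a := by linarith
      refine ⟨a, b, fun _ => ⟨hab, hcore, ?_, fun h => ?_, fun h => ?_⟩⟩
      · exact lt_of_le_of_lt (mul_le_mul_of_nonneg_right (le_max_left _ _) hp) hlt
      · refine lt_of_le_of_lt (mul_le_mul_of_nonneg_right ?_ hp) hlt
        refine le_max_of_le_right (le_max_of_le_left ?_)
        rw [if_pos h]
      · refine lt_of_le_of_lt (mul_le_mul_of_nonneg_right ?_ hp) hlt
        refine le_max_of_le_right (le_max_of_le_right ?_)
        rw [if_pos h]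
    · exact ⟨0, 0, fun h => absurd h hi⟩
  choose a b hb using hball
  set Y : ℕ → ℝ := fun j => if j = 0 then min (a 0) (y 0) else
    if j = k + 1 then max (b k) (y (k + 1)) else y j with hY
  have Y0 : Y 0 = min (a 0) (y 0) := by simp [hY]
  have Yk : Y (k + 1) = max (b k) (y (k + 1)) := by simp [hY]
  have Yi : ∀ i, i + 1 ≤ k → Y (i + 1) = y (i + 1) := by
    intro i hi
    have e : i + 1 ≠ k + 1 := by omega
    simp only [hY, Nat.succ_ne_zero, if_false, e]
  have c0 : 0 ≤ 1 - α := by linarith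
  have key := finite_main hα hα0 hα1 hbp hbq hup hlo hM1 hM2 k Y a b (fun i hi => (hb i hi).1)
    ?_ ?_ ?_ ?_ ?_ ?_
  · have e : ∑ j ∈ range k, 2 * M (Y (j + 1)) = ∑ j ∈ range k, 2 * M (y (j + 1)) := by
      refine sum_congr rfl fun j hj => ?_
      rw [Yi j (mem_range.mp hj)]
    have hsum : ∑ i ∈ range (k + 1), 2 * M (x i)
        ≤ ∑ i ∈ range (k + 1), (2 * ((F (b i) - F (a i)) / (b i - a i)) + 2 * η) := by
      refine sum_le_sum fun i hi => ?_
      have hi' : i ≤ k := by have := mem_range.mp hi; omega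
      have hp : 0 < b i - a i := sub_pos.mpr (hb i hi').1
      have := (hb i hi').2.2.1
      rw [← lt_div_iff₀ hp] at this
      linarith
    rw [sum_add_distrib, sum_const, card_range, nsmul_eq_mul] at hsum
    have hη' : ((k + 1 : ℕ) : ℝ) * (2 * η) = ε / 2 := by
      rw [hη]
      push_cast
      field_simp
      ring
    rw [hη'] at hsum
    rw [e] at key
    have a1 := hM2 (min (u 0) T0)
    have a2 := hM2 (max (u n) T1)
    have a3 := hT1 (max (u n) T1) (Y (k + 1)) (le_max_right _ _)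
    have a4 := hT0 (min (u 0) T0) (Y 0) (min_le_right _ _)
    have a5 := hV (Y (k + 1)) (min (u 0) T0) (max (u n) T1) (Y 0)
    have a6 := abs_nonneg (M (max (u n) T1) - M (u n))
    linarith
  · intro i hi
    rcases Nat.eq_zero_or_pos i with rfl | hpos
    · have := min_le_left (a 0) (y 0)
      have := mul_nonneg c0 (sub_nonneg.mpr (hb 0 hi).1.le)
      rw [Y0]
      linarith
    · obtain ⟨j, rfl⟩ : ∃ j, i = j + 1 := ⟨i - 1, by omega⟩
      rw [Yi j hi]
      by_contra hc
      push Not at hc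
      have e1 := (hb _ hi).2.1.2
      have e2 := (h3 _ hi).1
      have e3 := hM1 (y (j + 1)) _ _ (hb _ hi).1.le ⟨hc.le, by linarith⟩
      have e4 := (hb _ hi).2.2.2.1 hpos
      linarith
  · intro i hi
    rcases hi.eq_or_lt with rfl | hlt
    · have := le_max_left (b i) (y (i + 1))
      have := mul_nonneg c0 (sub_nonneg.mpr (hb i hi).1.le)
      rw [Yk]
      linarith
    · rw [Yi i hlt]
      by_contra hc
      push Not at hc
      have e1 := (hb _ hi).2.1.1
      have e2 := (h3 _ hi).2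
      have e3 := hM1 (y (i + 1)) _ _ (hb _ hi).1.le ⟨by linarith, hc.le⟩
      have e4 := (hb _ hi).2.2.2.2 hlt
      linarith
  · intro i hi
    rw [Yi i hi]
    exact (hb _ hi).2.2.2.1 (Nat.succ_pos i)
  · intro i hi
    rw [Yi i hi]
    exact (hb i (by omega)).2.2.2.2 hi
  · rw [Y0]
    exact min_le_left _ _
  · rw [Yk]
    exact le_max_left _ _

/-- The non-tangential maximal function of `g`, aperture `α`. -/
noncomputable def maxFn (α : ℝ) (g : ℝ → ℝ) (x : ℝ) : ℝ :=
  sSup {v : ℝ | ∃ y t : ℝ, 0 < t ∧ |x - y| ≤ α * t ∧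
    v = (2 * t)⁻¹ * ∫ s in (y - t)..(y + t), g s}

theorem jordan_main {α : ℝ} (hα : 1 ≤ α ^ 2 + 4 * α) (hα0 : 0 < α) (hα1 : α ≤ 1)
    {g p q : ℝ → ℝ} {V : ℝ} (hp : Monotone p) (hq : Monotone q) (hg : ∀ x, g x = p x - q x)
    (hV : ∀ s t, s ≤ t → p t - p s + q t - q s ≤ V)
    {u : ℕ → ℝ} (hu : Monotone u) (n : ℕ) :
    ∑ i ∈ range n, |maxFn α g (u (i + 1)) - maxFn α g (u i)| ≤ V := by
  have hgi : ∀ s t, IntervalIntegrable g volume s t := by
    intro s t
    have : g = fun x => p x - q x := funext hg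
    rw [this]
    exact hp.intervalIntegrable.sub hq.intervalIntegrable
  set F : ℝ → ℝ := fun t => ∫ s in (0:ℝ)..t, g s with hF
  have hFd : ∀ s t, F t - F s = ∫ x in s..t, g x := fun s t =>
    intervalIntegral.integral_interval_sub_left (hgi _ _) (hgi _ _)
  have up : ∀ s t c, s ≤ t → (∀ x, s < x → x < t → g x ≤ c) → F t - F s ≤ c * (t - s) := by
    intro s t c hst h
    rw [hFd]
    have := intervalIntegral.integral_mono_on_of_le_Ioo (μ := volume) hst (hgi s t)
      (intervalIntegrable_const (c := c)) (fun x hx => h x hx.1 hx.2)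
    rw [intervalIntegral.integral_const, smul_eq_mul] at this
    linarith
  have lo : ∀ s t c, s ≤ t → (∀ x, s < x → x < t → c ≤ g x) → c * (t - s) ≤ F t - F s := by
    intro s t c hst h
    rw [hFd]
    have := intervalIntegral.integral_mono_on_of_le_Ioo (μ := volume) hst
      (intervalIntegrable_const (c := c)) (hgi s t) (fun x hx => h x hx.1 hx.2)
    rw [intervalIntegral.integral_const, smul_eq_mul] at this
    linarith
  have gb : ∀ x, g x ≤ V + (p 0 - q 0) := by
    intro x
    rw [hg]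
    rcases le_total x 0 with h | h
    · have := hV x 0 h
      have := hp h
      linarith
    · have := hV 0 x h
      have := hq h
      linarith
  have hbdd : ∀ x, BddAbove {v : ℝ | ∃ y t : ℝ, 0 < t ∧ |x - y| ≤ α * t ∧
      v = (2 * t)⁻¹ * ∫ s in (y - t)..(y + t), g s} := by
    intro x
    refine ⟨V + (p 0 - q 0), ?_⟩
    rintro v ⟨y, t, ht, -, rfl⟩
    have := up (y - t) (y + t) _ (by linarith) (fun x _ _ => gb x)
    rw [← hFd, inv_mul_le_iff₀ (by linarith)]
    linarith
  have hM1 : ∀ y s t, s ≤ t → InCore α s t y → F t - F s ≤ maxFn α g y * (t - s) := by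
    intro y s t hst hc
    rcases hst.eq_or_lt with rfl | hlt
    · simp
    · have hmem : (2 * ((t - s) / 2))⁻¹ *
          ∫ x in ((s + t) / 2 - (t - s) / 2)..((s + t) / 2 + (t - s) / 2), g x ≤ maxFn α g y := by
        refine le_csSup (hbdd y) ⟨(s + t) / 2, (t - s) / 2, by linarith, ?_, rfl⟩
        rw [abs_le]
        obtain ⟨c1, c2⟩ := hc
        constructor <;> linarith
      have e1 : (s + t) / 2 - (t - s) / 2 = s := by ring
      have e2 : (s + t) / 2 + (t - s) / 2 = t := by ring
      rw [e1, e2, ← hFd, inv_mul_le_iff₀ (by linarith)] at hmem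
      linarith
  refine abstract_main (F := F) (bp := Function.leftLim p) (bq := Function.rightLim q) hα hα0 hα1
    hp.leftLim hq.rightLim ?_ ?_ hM1 ?_ ?_ ?_ hu n
  · intro y1 y2 s t h1 h2 h3
    refine up s t _ h2 fun x a1 a2 => ?_
    have := hp.le_leftLim (lt_of_lt_of_le a2 h3)
    have := hq.rightLim_le (lt_of_le_of_lt h1 a1)
    rw [hg]
    linarith
  · intro y1 y2 s t h1 h2 h3
    refine lo s t _ h2 fun x a1 a2 => ?_
    have := hp.leftLim_le (h1.trans a1.le)
    have := hq.le_rightLim (a2.le.trans h3)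
    rw [hg]
    linarith
  · intro y
    have h : ∀ s t, s < y → y < t → p s - q t ≤ maxFn α g y := by
      intro s t hs ht
      set r := min (y - s) (t - y) with hr
      have hr0 : 0 < r := lt_min (by linarith) (by linarith)
      have hr1 : r ≤ y - s := min_le_left _ _
      have hr2 : r ≤ t - y := min_le_right _ _
      have hαr := mul_pos hα0 hr0
      have e1 := hM1 y (y - r) (y + r) (by linarith) ⟨by linarith, by linarith⟩
      have e2 := lo (y - r) (y + r) (p s - q t) (by linarith) fun x a1 a2 => by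
        have := hp (show s ≤ x by linarith)
        have := hq (show x ≤ t by linarith)
        rw [hg]
        linarith
      exact le_of_mul_le_mul_right (e2.trans e1) (by linarith)
    have h' : ∀ t, y < t → Function.leftLim p y - q t ≤ maxFn α g y := by
      intro t ht
      have : Function.leftLim p y ≤ maxFn α g y + q t := by
        refine le_of_tendsto (hp.tendsto_leftLim y) ?_
        filter_upwards [self_mem_nhdsWithin] with s hs
        have := h s t hs ht
        linarith
      linarith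
    have : Function.leftLim p y - maxFn α g y ≤ Function.rightLim q y := by
      refine ge_of_tendsto (hq.tendsto_rightLim y) ?_
      filter_upwards [self_mem_nhdsWithin] with t ht
      have := h' t ht
      linarith
    linarith
  · intro x c hc
    have hne : {v : ℝ | ∃ y t : ℝ, 0 < t ∧ |x - y| ≤ α * t ∧
        v = (2 * t)⁻¹ * ∫ s in (y - t)..(y + t), g s}.Nonempty :=
      ⟨_, x, 1, one_pos, by simp [hα0.le], rfl⟩
    obtain ⟨v, ⟨y, t, ht, hxy, rfl⟩, hv⟩ := exists_lt_of_lt_csSup hne hc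
    rw [abs_le] at hxy
    refine ⟨y - t, y + t, by linarith, ⟨by linarith [hxy.1, hxy.2], by linarith [hxy.1, hxy.2]⟩, ?_⟩
    rw [← hFd, lt_inv_mul_iff₀ (by linarith)] at hv
    linarith
  · intro z1 z2 z3 z4
    have a1 := hp.leftLim_le (le_max_left z1 (z3 + 1))
    have a2 := hp.le_leftLim (show min (z2 - 1) z4 ⊓ max z1 (z3 + 1) < z2 from
      lt_of_le_of_lt (inf_le_left.trans (min_le_left _ _)) (by linarith))
    have a3 := hq.rightLim_le (show z3 < max z1 (z3 + 1) from
      lt_of_lt_of_le (by linarith) (le_max_right _ _))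
    have a4 := hq.le_rightLim (show min (z2 - 1) z4 ⊓ max z1 (z3 + 1) ≤ z4 from
      inf_le_left.trans (min_le_right _ _))
    have a5 := hV (min (z2 - 1) z4 ⊓ max z1 (z3 + 1)) (max z1 (z3 + 1)) inf_le_right
    linarith

theorem variation_maxFn_le {α : ℝ} (hα : 1 ≤ α ^ 2 + 4 * α) (hα0 : 0 < α) (hα1 : α ≤ 1)
    {f : ℝ → ℝ} (hf : BoundedVariationOn f Set.univ) :
    eVariationOn (maxFn α fun s => |f s|) Set.univ ≤ eVariationOn f Set.univ := by
  have hloc := hf.locallyBoundedVariationOn
  set v : ℝ → ℝ := variationOnFromTo f Set.univ 0 with hv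
  have hd : ∀ s t, s ≤ t → abs (|f t| - |f s|) ≤ v t - v s := fun s t hst =>
    (abs_abs_sub_abs_le_abs_sub _ _).trans
      (variationOnFromTo.abs_sub_le_sub_of_le hloc (Set.mem_univ 0) (Set.mem_univ s)
        (Set.mem_univ t) hst)
  have hp : Monotone fun x => (v x + |f x|) / 2 := by
    intro s t hst
    have := (abs_le.mp (hd s t hst)).1
    dsimp only
    linarith
  have hq : Monotone fun x => (v x - |f x|) / 2 := by
    intro s t hst
    have := (abs_le.mp (hd s t hst)).2
    dsimp only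
    linarith
  refine iSup_le ?_
  rintro ⟨n, u, hu, -⟩
  have key := jordan_main (g := fun s => |f s|) (V := (eVariationOn f Set.univ).toReal)
    hα hα0 hα1 hp hq (fun x => by ring) (fun s t _ => by
      have e := variationOnFromTo.sub_right hloc (Set.mem_univ 0) (Set.mem_univ t)
        (Set.mem_univ s)
      have := (abs_le.mp (variationOnFromTo.abs_le_eVariationOn hf (a := s) (b := t))).2
      simp only [hv]
      linarith) hu n
  rw [← ENNReal.ofReal_toReal hf]
  refine le_trans (le_of_eq ?_) (ENNReal.ofReal_le_ofReal key)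
  rw [ENNReal.ofReal_sum_of_nonneg fun i _ => abs_nonneg _]
  refine sum_congr rfl fun i _ => ?_
  rw [edist_dist, Real.dist_eq]

end Pool.Agent.Lib.MP_25e49d_an
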