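import Pool.Agent.Lib.MP_25e49d_an.BumpB
import Pool.Agent.Lib.MP_25e49d_an.Main

set_option autoImplicit false

namespace Pool.Agent.Lib.MP_25e49d_an

open Finset MeasureTheory Filter Topology

theorem bump_far {h : ℝ → ℝ} {cm cp : ℝ} (hm : Tendsto h atBot (𝓝 cm))
    (hp : Tendsto h atTop (𝓝 cp)) {ε : ℝ} (hε : 0 < ε) :
    ∃ T0 T1, (∀ x, x ≤ T0 → |h x - cm| < ε) ∧ ∀ x, T1 ≤ x → |h x - cp| < ε := by
  obtain ⟨T0, h0⟩ := eventually_atBot.1 (Metric.tendsto_nhds.1 hm ε hε)
  obtain ⟨T1, h1⟩ := eventually_atTop.1 (Metric.tendsto_nhds.1 hp ε hε)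
  exact ⟨T0, T1, fun x hx => h0 x hx, fun x hx => h1 x hx⟩

theorem Avg.mean_le {h F M : ℝ → ℝ} (H : Avg h F M) {cm cp : ℝ} (hm : Tendsto h atBot (𝓝 cm))
    (hp : Tendsto h atTop (𝓝 cp)) (y : ℝ) : (cm + cp) / 2 ≤ M y := by
  refine le_of_forall_pos_le_add fun ε hε => ?_
  obtain ⟨T0, T1, h0, h1⟩ := bump_far hm hp (half_pos hε)
  obtain ⟨A, a1, a2⟩ : ∃ A, A ≤ y ∧ A ≤ T0 := ⟨min y T0, min_le_left _ _, min_le_right _ _⟩
  obtain ⟨B, b1, b2⟩ : ∃ B, y ≤ B ∧ T1 ≤ B := ⟨max y T1, le_max_left _ _, le_max_right _ _⟩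
  obtain ⟨R, r1, r2⟩ : ∃ R, B - A + 1 ≤ R ∧
      ((cm - ε / 2) * (y - A) + (cp - ε / 2) * (B - y)) / ε ≤ R :=
    ⟨max _ _, le_max_left _ _, le_max_right _ _⟩
  rw [div_le_iff₀ hε] at r2
  have e1 := H.lo (y - R) A (cm - ε / 2) (by linarith) fun x _ c => by
    have := (abs_lt.1 (h0 x (by linarith))).1
    linarith
  have e2 := H.lo B (y + R) (cp - ε / 2) (by linarith) fun x c _ => by
    have := (abs_lt.1 (h1 x (by linarith))).1
    linarith
  have e3 := H.mono (a1.trans b1)
  have e4 := H.cen y (y - R) (y + R) (by linarith) (by ring)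
  refine le_of_mul_le_mul_right ?_ (by linarith : 0 < 2 * R)
  linarith

theorem bump_abstract {α : ℝ} (hα0 : 0 ≤ α) {h F M v : ℝ → ℝ} (H : Avg h F M) (hcl : NoPosMin h)
    (hM1 : ∀ y s t, s ≤ t → InCore α s t y → F t - F s ≤ M y * (t - s))
    (hM3 : ∀ x c, c < M x → ∃ a b, a < b ∧ InCore α a b x ∧ c * (b - a) < F b - F a)
    {V : ℝ} (hv : ∀ s t, s ≤ t → |h t - h s| ≤ v t - v s) (hV : ∀ s t, v t - v s ≤ V)
    {cm cp : ℝ} (hm : Tendsto h atBot (𝓝 cm)) (hp : Tendsto h atTop (𝓝 cp))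
    {u : ℕ → ℝ} (hu : Monotone u) (n : ℕ) :
    ∑ i ∈ range n, |M (u (i + 1)) - M (u i)| + |cp - cm| / 2 ≤ V := by
  refine le_of_forall_pos_le_add fun ε hε => ?_
  obtain ⟨T0, T1, hT0, hT1⟩ := bump_far hm hp (ε := ε / 8) (by linarith)
  have hc := chain_step (chain_seq M hu (min_le_left (u 0) (T0 - 1)) n) (le_max_left (u n) (T1 + 1))
  obtain ⟨k, x, y, h1, h2, h3, h4, h5, h6⟩ := hc
  set η : ℝ := ε / (4 * (k + 1)) with hη
  have hη0 : 0 < η := by positivity
  have hball : ∀ i, ∃ a b P, i ≤ k → (a < b ∧ InCore α a b (x i) ∧ P * (b - a) < F b - F a ∧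
      M (x i) - η ≤ P ∧ (0 < i → M (y i) < P) ∧ (i < k → M (y (i + 1)) < P)) := by
    intro i
    by_cases hi : i ≤ k
    · have c1 : M (x i) - η < M (x i) := by linarith
      have c2 : (if 0 < i then M (y i) else M (x i) - η) < M (x i) := by
        split_ifs with h
        · obtain ⟨j, rfl⟩ : ∃ j, i = j + 1 := ⟨i - 1, by omega⟩
          exact (h4 j hi).2
        · exact c1
      have c3 : (if i < k then M (y (i + 1)) else M (x i) - η) < M (x i) := by
        split_ifs with h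
        · exact (h4 i h).1
        · exact c1
      obtain ⟨P, p1, p2⟩ := exists_between (max_lt c1 (max_lt c2 c3))
      obtain ⟨a, b, hab, hcore, hlt⟩ := hM3 (x i) P p2
      rw [max_lt_iff, max_lt_iff] at p1
      refine ⟨a, b, P, fun _ => ⟨hab, hcore, hlt, p1.1.le, fun c => ?_, fun c => ?_⟩⟩
      · have := p1.2.1
        rwa [if_pos c] at this
      · have := p1.2.2
        rwa [if_pos c] at this
    · exact ⟨0, 0, 0, fun c => absurd c hi⟩
  choose a b P hb using hball
  obtain ⟨A, hA⟩ := ((range (k + 1)).image a).bddBelow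
  obtain ⟨B, hB⟩ := ((range (k + 1)).image b).bddAbove
  have hA' : ∀ i, i ≤ k → min A T0 ≤ a i := fun i hi =>
    (min_le_left _ _).trans (hA (mem_coe.2 (mem_image_of_mem a (mem_range.2 (by omega)))))
  have hB' : ∀ i, i ≤ k → b i ≤ max B T1 := fun i hi =>
    (hB (mem_coe.2 (mem_image_of_mem b (mem_range.2 (by omega))))).trans (le_max_left _ _)
  set Y : ℕ → ℝ := fun j => if j = 0 then min A T0 else if j = k + 1 then max B T1 else y j
    with hY
  have Y0 : Y 0 = min A T0 := by simp [hY]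
  have Yk : Y (k + 1) = max B T1 := by simp [hY]
  have Yi : ∀ i, i + 1 ≤ k → Y (i + 1) = y (i + 1) := by
    intro i hi
    have e : i + 1 ≠ k + 1 := by omega
    simp only [hY, Nat.succ_ne_zero, if_false, e]
  have key := bump_finite H hcl k Y a b P (fun i hi => (hb i hi).1) ?_ ?_
    (fun i hi => (hb i hi).2.2.1) ?_ ?_ (fun i hi => Y0 ▸ hA' i hi) (fun i hi => Yk ▸ hB' i hi)
  · obtain ⟨𝒯, t1, t2, t3⟩ := key
    have e : ∑ j ∈ range k, M (Y (j + 1)) = ∑ j ∈ range k, M (y (j + 1)) :=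
      sum_congr rfl fun j hj => by rw [Yi j (mem_range.mp hj)]
    have hsum : ∑ i ∈ range (k + 1), M (x i) ≤ ∑ i ∈ range (k + 1), (P i + η) := by
      refine sum_le_sum fun i hi => ?_
      have := (hb i (by have := mem_range.mp hi; omega)).2.2.2.1
      linarith
    rw [sum_add_distrib, sum_const, card_range, nsmul_eq_mul] at hsum
    have hη' : ((k + 1 : ℕ) : ℝ) * η = ε / 4 := by
      rw [hη]
      push_cast
      field_simp
    rw [hη'] at hsum
    rw [e] at t3
    rw [← mul_sum, ← mul_sum] at h6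
    have hYY : Y 0 ≤ Y (k + 1) := by
      have := hA' 0 (Nat.zero_le k)
      have := hB' 0 (Nat.zero_le k)
      have := (hb 0 (Nat.zero_le k)).1
      rw [Y0, Yk]
      linarith
    have a0 := tops_le_var H.h0 hv 𝒯 t1 (fun T c => (t2 T c).1) (Y (k + 1)) hYY
      fun T c => (t2 T c).2
    have a1 := hV (Y 0) (Y (k + 1))
    have a2 := (abs_lt.1 (hT0 (Y 0) (Y0 ▸ min_le_right _ _))).2
    have a3 := (abs_lt.1 (hT1 (Y (k + 1)) (Yk ▸ le_max_right _ _))).2
    have a4 : cm - ε / 8 ≤ M (min (u 0) (T0 - 1)) := by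
      have c0 := min_le_right (u 0) (T0 - 1)
      refine H.le_M (s := min (u 0) (T0 - 1) - 1) (t := T0) (by linarith) (by linarith)
        fun z _ c => ?_
      have := (abs_lt.1 (hT0 z c.le)).1
      linarith
    have a5 : cp - ε / 8 ≤ M (max (u n) (T1 + 1)) := by
      have c0 := le_max_right (u n) (T1 + 1)
      refine H.le_M (s := T1) (t := max (u n) (T1 + 1) + 1) (by linarith) (by linarith)
        fun z c _ => ?_
      have := (abs_lt.1 (hT1 z c.le)).1
      linarith
    have a6 := H.mean_le hm hp (min (u 0) (T0 - 1))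
    have a7 := H.mean_le hm hp (max (u n) (T1 + 1))
    have a8 := abs_nonneg (M (max (u n) (T1 + 1)) - M (u n))
    rcases abs_cases (cp - cm) with ⟨c, _⟩ | ⟨c, _⟩ <;> rw [c] <;> linarith
  · intro i hi
    rcases Nat.eq_zero_or_pos i with rfl | hpos
    · have := hA' 0 hi
      have := (hb 0 hi).1
      rw [Y0]
      linarith
    · obtain ⟨j, rfl⟩ : ∃ j, i = j + 1 := ⟨i - 1, by omega⟩
      rw [Yi j hi]
      by_contra hc
      obtain ⟨e0, ⟨_, e1⟩, e4, _, e5, _⟩ := hb _ hi
      have e2 := (h3 _ hi).1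
      have e6 := mul_nonneg hα0 (sub_pos.2 e0).le
      have e3 := hM1 (y (j + 1)) _ _ e0.le ⟨by linarith, by linarith⟩
      have e7 := mul_le_mul_of_nonneg_right (e5 hpos).le (sub_pos.2 e0).le
      linarith
  · intro i hi
    rcases hi.eq_or_lt with rfl | hlt
    · have := hB' i hi
      have := (hb i hi).1
      rw [Yk]
      linarith
    · rw [Yi i hlt]
      by_contra hc
      obtain ⟨e0, ⟨e1, _⟩, e4, _, _, e5⟩ := hb _ hi
      have e2 := (h3 _ hi).2
      have e6 := mul_nonneg hα0 (sub_pos.2 e0).le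
      have e3 := hM1 (y (i + 1)) _ _ e0.le ⟨by linarith, by linarith⟩
      have e7 := mul_le_mul_of_nonneg_right (e5 hlt).le (sub_pos.2 e0).le
      linarith
  · intro i hi
    rw [Yi i hi]
    exact (hb _ hi).2.2.2.2.1 (Nat.succ_pos i)
  · intro i hi
    rw [Yi i hi]
    exact (hb i (by omega)).2.2.2.2.2 hi

theorem bump_jordan {α : ℝ} (hα0 : 0 ≤ α) {g v : ℝ → ℝ} {V : ℝ}
    (hgi : ∀ s t, IntervalIntegrable g volume s t) {μ U : ℝ} (hμ : ∀ x, μ ≤ g x)
    (hU : ∀ x, g x ≤ U) (hcl : NoPosMin fun x => g x - μ)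
    (hv : ∀ s t, s ≤ t → |g t - g s| ≤ v t - v s) (hV : ∀ s t, v t - v s ≤ V)
    {cm cp : ℝ} (hm : Tendsto g atBot (𝓝 cm)) (hp : Tendsto g atTop (𝓝 cp))
    {u : ℕ → ℝ} (hu : Monotone u) (n : ℕ) :
    ∑ i ∈ range n, |maxFn α g (u (i + 1)) - maxFn α g (u i)| + |cp - cm| / 2 ≤ V := by
  set F : ℝ → ℝ := fun t => ∫ s in (0:ℝ)..t, g s with hF
  have hFd : ∀ s t, F t - F s = ∫ x in s..t, g x := fun s t =>
    intervalIntegral.integral_interval_sub_left (hgi _ _) (hgi _ _)
  have up : ∀ (S : Finset ℝ) s t c, s ≤ t → (∀ x, x ∉ S → s < x → x < t → g x ≤ c) →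
      F t - F s ≤ c * (t - s) := by
    intro S s t c hst h
    rw [hFd]
    have hae : g ≤ᵐ[volume.restrict (Set.Icc s t)] fun _ => c := by
      have h1 : ∀ᵐ x ∂(volume : Measure ℝ), x ∉ (insert s (insert t (S : Set ℝ))) :=
        measure_eq_zero_iff_ae_notMem.1
          (((S.finite_toSet.insert t).insert s).measure_zero volume)
      filter_upwards [ae_restrict_mem measurableSet_Icc, ae_restrict_of_ae h1] with x x1 x2
      simp only [Set.mem_insert_iff, not_or, mem_coe] at x2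
      exact h x x2.2.2 (lt_of_le_of_ne x1.1 (Ne.symm x2.1)) (lt_of_le_of_ne x1.2 x2.2.1)
    have := intervalIntegral.integral_mono_ae_restrict hst (hgi s t)
      (intervalIntegrable_const (c := c)) hae
    rw [intervalIntegral.integral_const, smul_eq_mul] at this
    linarith
  have lo : ∀ s t c, s ≤ t → (∀ x, s < x → x < t → c ≤ g x) → c * (t - s) ≤ F t - F s := by
    intro s t c hst h
    rw [hFd]
    have := intervalIntegral.integral_mono_on_of_le_Ioo (μ := volume) hst
      (intervalIntegrable_const (c := c)) (hgi s t) (fun x hx => h x hx.1 hx.2)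
    rw [intervalIntegral.integral_const, smul_eq_mul] at this
    linarith
  have hbdd : ∀ x, BddAbove {v : ℝ | ∃ y t : ℝ, 0 < t ∧ |x - y| ≤ α * t ∧
      v = (2 * t)⁻¹ * ∫ s in (y - t)..(y + t), g s} := by
    intro x
    refine ⟨U, ?_⟩
    rintro v ⟨y, t, ht, -, rfl⟩
    have := up ∅ (y - t) (y + t) _ (by linarith) (fun x _ _ _ => hU x)
    rw [← hFd, inv_mul_le_iff₀ (by linarith)]
    linarith
  have hM1 : ∀ y s t, s ≤ t → InCore α s t y → F t - F s ≤ maxFn α g y * (t - s) := by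
    intro y s t hst hc
    rcases hst.eq_or_lt with rfl | hlt
    · simp
    · have hmem : (2 * ((t - s) / 2))⁻¹ *
          ∫ x in ((s + t) / 2 - (t - s) / 2)..((s + t) / 2 + (t - s) / 2), g x ≤ maxFn α g y := by
        refine le_csSup (hbdd y) ⟨(s + t) / 2, (t - s) / 2, by linarith, ?_, rfl⟩
        rw [abs_le]
        obtain ⟨c1, c2⟩ := hc
        constructor <;> linarith
      have e1 : (s + t) / 2 - (t - s) / 2 = s := by ring
      have e2 : (s + t) / 2 + (t - s) / 2 = t := by ring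
      rw [e1, e2, ← hFd, inv_mul_le_iff₀ (by linarith)] at hmem
      linarith
  have H : Avg (fun x => g x - μ) (fun t => F t - μ * t) (fun y => maxFn α g y - μ) :=
    { h0 := fun x => sub_nonneg.2 (hμ x)
      up := fun S s t c hst h => by
        have := up S s t (c + μ) hst fun x a1 a2 a3 => by linarith [h x a1 a2 a3]
        linarith
      lo := fun s t c hst h => by
        have := lo s t (c + μ) hst fun x a2 a3 => by linarith [h x a2 a3]
        linarith
      cen := fun y s t hst h => by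
        have e := mul_nonneg hα0 (sub_nonneg.2 hst)
        have := hM1 y s t hst ⟨by linarith, by linarith⟩
        linarith }
  have key := bump_abstract (v := v) (V := V) hα0 H hcl (fun y s t hst h => by
      have := hM1 y s t hst h
      linarith) ?_ (fun s t hst => by
      rw [sub_sub_sub_cancel_right]
      exact hv s t hst) hV (hm.sub_const μ) (hp.sub_const μ) hu n
  · simpa only [sub_sub_sub_cancel_right] using key
  · intro x c hc
    have hne : {v : ℝ | ∃ y t : ℝ, 0 < t ∧ |x - y| ≤ α * t ∧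
        v = (2 * t)⁻¹ * ∫ s in (y - t)..(y + t), g s}.Nonempty :=
      ⟨_, x, 1, one_pos, by simp [hα0], rfl⟩
    obtain ⟨w, ⟨y, t, ht, hxy, rfl⟩, hw⟩ :=
      exists_lt_of_lt_csSup hne (show c + μ < maxFn α g x by linarith)
    rw [abs_le] at hxy
    refine ⟨y - t, y + t, by linarith, ⟨by linarith [hxy.1, hxy.2], by linarith [hxy.1, hxy.2]⟩, ?_⟩
    rw [← hFd, lt_inv_mul_iff₀ (by linarith)] at hw
    linarith

theorem bump_main {α : ℝ} (hα0 : 0 ≤ α) {f : ℝ → ℝ} (hf : BoundedVariationOn f Set.univ)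
    (hcl : ∀ s t u, s < t → t < u → |f t| < |f s| → |f t| < |f u| →
      ∀ x ε, 0 < ε → ∃ z, s < z ∧ z < u ∧ |f z| < |f x| + ε) :
    ∃ cm cp : ℝ, Tendsto (fun x => |f x|) atBot (𝓝 cm) ∧ Tendsto (fun x => |f x|) atTop (𝓝 cp) ∧
      eVariationOn (maxFn α fun s => |f s|) Set.univ + ENNReal.ofReal (|cp - cm| / 2) ≤
        eVariationOn f Set.univ := by
  have hloc := hf.locallyBoundedVariationOn
  set v : ℝ → ℝ := variationOnFromTo f Set.univ 0 with hv
  have hd : ∀ s t, s ≤ t → abs (|f t| - |f s|) ≤ v t - v s := fun s t hst =>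
    (abs_abs_sub_abs_le_abs_sub _ _).trans
      (variationOnFromTo.abs_sub_le_sub_of_le hloc (Set.mem_univ 0) (Set.mem_univ s)
        (Set.mem_univ t) hst)
  have hV : ∀ s t, v t - v s ≤ (eVariationOn f Set.univ).toReal := fun s t => by
    have e := variationOnFromTo.sub_right hloc (Set.mem_univ 0) (Set.mem_univ t) (Set.mem_univ s)
    have := (abs_le.mp (variationOnFromTo.abs_le_eVariationOn hf (a := s) (b := t))).2
    simp only [hv]
    linarith
  generalize hW : (eVariationOn f Set.univ).toReal = V at hV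
  have hp : Monotone fun x => (v x + |f x|) / 2 := by
    intro s t hst
    have := (abs_le.mp (hd s t hst)).1
    dsimp only
    linarith
  have hq : Monotone fun x => (v x - |f x|) / 2 := by
    intro s t hst
    have := (abs_le.mp (hd s t hst)).2
    dsimp only
    linarith
  have hU : ∀ x, |f x| ≤ |f 0| + V := fun x => by
    rcases le_total x 0 with h | h
    · have := (abs_le.mp (hd x 0 h)).1
      have := hV x 0
      linarith
    · have := (abs_le.mp (hd 0 x h)).2
      have := hV 0 x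
      linarith
  have hg : (fun x => |f x|) = fun x => (v x + |f x|) / 2 - (v x - |f x|) / 2 :=
    funext fun x => by ring
  have b1 : BddAbove (Set.range fun x => (v x + |f x|) / 2) :=
    ⟨(V + v 0 + (|f 0| + V)) / 2, by
      rintro _ ⟨x, rfl⟩
      have := hU x
      have := hV 0 x
      dsimp only
      linarith⟩
  have b2 : BddBelow (Set.range fun x => (v x + |f x|) / 2) :=
    ⟨(v 0 - V) / 2, by
      rintro _ ⟨x, rfl⟩
      have := abs_nonneg (f x)
      have := hV x 0
      dsimp only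
      linarith⟩
  have b3 : BddAbove (Set.range fun x => (v x - |f x|) / 2) :=
    ⟨(V + v 0) / 2, by
      rintro _ ⟨x, rfl⟩
      have := abs_nonneg (f x)
      have := hV 0 x
      dsimp only
      linarith⟩
  have b4 : BddBelow (Set.range fun x => (v x - |f x|) / 2) :=
    ⟨(v 0 - V - (|f 0| + V)) / 2, by
      rintro _ ⟨x, rfl⟩
      have := hU x
      have := hV x 0
      dsimp only
      linarith⟩
  have l1 := (tendsto_atBot_ciInf hp b2).sub (tendsto_atBot_ciInf hq b4)
  have l2 := (tendsto_atTop_ciSup hp b1).sub (tendsto_atTop_ciSup hq b3)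
  rw [← hg] at l1 l2
  refine ⟨_, _, l1, l2, ?_⟩
  generalize (⨅ x, (v x + |f x|) / 2) - (⨅ x, (v x - |f x|) / 2) = cm at l1 ⊢
  generalize (⨆ x, (v x + |f x|) / 2) - (⨆ x, (v x - |f x|) / 2) = cp at l2 ⊢
  have hb : BddBelow (Set.range fun x => |f x|) := ⟨0, by
    rintro _ ⟨x, rfl⟩
    exact abs_nonneg _⟩
  have key := fun (u : ℕ → ℝ) (hu : Monotone u) (n : ℕ) =>
    bump_jordan (g := fun s => |f s|) (μ := ⨅ x, |f x|) hα0 (fun s t => by
      rw [hg]
      exact hp.intervalIntegrable.sub hq.intervalIntegrable) (fun x => ciInf_le hb x) hU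
      (fun s t w a1 a2 a3 a4 ε hε => by
        obtain ⟨x, hx⟩ := exists_lt_of_ciInf_lt
          (show (⨅ x, |f x|) < (⨅ x, |f x|) + ε / 2 by linarith)
        obtain ⟨z, z1, z2, z3⟩ := hcl s t w a1 a2 (by linarith) (by linarith) x (ε / 2)
          (half_pos hε)
        exact ⟨z, z1, z2, by linarith⟩) hd hV l1 l2 hu n
  have : Nonempty (ℕ × {u : ℕ → ℝ // Monotone u ∧ ∀ i, u i ∈ Set.univ}) :=
    ⟨0, fun _ => 0, monotone_const, fun _ => Set.mem_univ _⟩
  rw [← ENNReal.ofReal_toReal hf, hW]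
  unfold eVariationOn
  rw [ENNReal.iSup_add]
  refine iSup_le ?_
  rintro ⟨n, u, hu, -⟩
  refine le_trans (le_of_eq ?_) (ENNReal.ofReal_le_ofReal (key u hu n))
  rw [ENNReal.ofReal_add (sum_nonneg fun i _ => abs_nonneg _) (by positivity),
    ENNReal.ofReal_sum_of_nonneg fun i _ => abs_nonneg _]
  congr 1
  refine sum_congr rfl fun i _ => ?_
  rw [edist_dist, Real.dist_eq]

end Pool.Agent.Lib.MP_25e49d_an
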