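import Pool.Agent.Lib.MP_25e49d_an.Finite

set_option autoImplicit false

namespace Pool.Agent.Lib.MP_25e49d_an

open Finset

theorem finite_main {α : ℝ} (hα : 1 ≤ α ^ 2 + 4 * α) (hα0 : 0 < α) (hα1 : α ≤ 1)
    {F M bp bq : ℝ → ℝ} (hbp : Monotone bp) (hbq : Monotone bq)
    (hup : ∀ y1 y2 s t, y1 ≤ s → s ≤ t → t ≤ y2 → F t - F s ≤ (bp y2 - bq y1) * (t - s))
    (hlo : ∀ y1 y2 s t, y1 ≤ s → s ≤ t → t ≤ y2 → (bp y1 - bq y2) * (t - s) ≤ F t - F s)
    (hM1 : ∀ y s t, s ≤ t → InCore α s t y → F t - F s ≤ M y * (t - s))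
    (hM2 : ∀ y, bp y - bq y ≤ M y)
    (k : ℕ) (Y a b : ℕ → ℝ) (hab : ∀ i, i ≤ k → a i < b i)
    (hYl : ∀ i, i ≤ k → 2 * Y i ≤ (1 + α) * a i + (1 - α) * b i)
    (hYr : ∀ i, i ≤ k → (1 - α) * a i + (1 + α) * b i ≤ 2 * Y (i + 1))
    (hAl : ∀ i, i + 1 ≤ k →
      M (Y (i + 1)) * (b (i + 1) - a (i + 1)) < F (b (i + 1)) - F (a (i + 1)))
    (hAr : ∀ i, i + 1 ≤ k → M (Y (i + 1)) * (b i - a i) < F (b i) - F (a i))
    (hL : Y 0 ≤ a 0) (hR : b k ≤ Y (k + 1)) :
    ∑ i ∈ range (k + 1), 2 * ((F (b i) - F (a i)) / (b i - a i))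
      ≤ 2 * bp (Y (k + 1)) - 2 * bq (Y 0) + ∑ j ∈ range k, 2 * M (Y (j + 1)) := by
  have hT : ∀ i, ∃ t, i ≤ k → (a i ≤ t ∧ Y i ≤ t ∧ 3 * (t - a i) ≤ 2 * (b i - a i) ∧
      2 * t ≤ (1 - α) * a i + (1 + α) * b i ∧
      F t - F (a i) ≤ M (Y i) * (t - a i) ∧ (Y i ≤ a i → t = a i)) := by
    intro i
    by_cases hi : i ≤ k
    · obtain ⟨t, ht⟩ := exists_left hα hα0 hα1 hM1 (hab i hi) (hYl i hi)
      exact ⟨t, fun _ => ht⟩
    · exact ⟨0, fun h => absurd h hi⟩
  have hS : ∀ i, ∃ s, i ≤ k → (s ≤ b i ∧ s ≤ Y (i + 1) ∧ 3 * (b i - s) ≤ 2 * (b i - a i) ∧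
      (1 + α) * a i + (1 - α) * b i ≤ 2 * s ∧
      F (b i) - F s ≤ M (Y (i + 1)) * (b i - s) ∧ (b i ≤ Y (i + 1) → s = b i)) := by
    intro i
    by_cases hi : i ≤ k
    · obtain ⟨t, ht⟩ := exists_right hα hα0 hα1 hM1 (hab i hi) (hYr i hi)
      exact ⟨t, fun _ => ht⟩
    · exact ⟨0, fun h => absurd h hi⟩
  choose t ht using hT
  choose s hs using hS
  -- normalised quantities
  set wL : ℕ → ℝ := fun i => (t i - a i) / (b i - a i) with hwL
  set wR : ℕ → ℝ := fun i => (b i - s i) / (b i - a i) with hwR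
  set L : ℕ → ℝ := fun i => (F (t i) - F (a i)) / (b i - a i) with hLd
  set R : ℕ → ℝ := fun i => (F (b i) - F (s i)) / (b i - a i) with hRd
  set D : ℕ → ℝ := fun i => (F (s i) - F (t i)) / (b i - a i) with hDd
  set ρ : ℕ → ℝ := fun i => 2 * L i + (1 - 2 * wL i) * (bp (Y i) - bq (Y i))
    - 2 * max (wL i - 1 / 3) 0 * (bp (Y (i + 1)) - bp (Y i)) with hρ
  set ℓ : ℕ → ℝ := fun i => 2 * R i + (1 - 2 * wR i) * (bp (Y (i + 1)) - bq (Y (i + 1)))
    - 2 * max (wR i - 1 / 3) 0 * (bq (Y (i + 1)) - bq (Y i)) with hℓ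
  have hpos : ∀ i, i ≤ k → 0 < b i - a i := fun i hi => sub_pos.mpr (hab i hi)
  have hYY : ∀ i, i ≤ k → Y i ≤ Y (i + 1) := by
    intro i hi
    have := hYl i hi
    have := hYr i hi
    have := mul_pos hα0 (hpos i hi)
    linarith
  have htY : ∀ i, i ≤ k → t i ≤ Y (i + 1) := by
    intro i hi
    have := (ht i hi).2.2.2.1
    have := hYr i hi
    linarith
  have hsY : ∀ i, i ≤ k → Y i ≤ s i := by
    intro i hi
    have := (hs i hi).2.2.2.1
    have := hYl i hi
    linarith
  have wL0 : ∀ i, i ≤ k → 0 ≤ wL i := fun i hi =>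
    div_nonneg (sub_nonneg.mpr (ht i hi).1) (hpos i hi).le
  have wR0 : ∀ i, i ≤ k → 0 ≤ wR i := fun i hi =>
    div_nonneg (sub_nonneg.mpr (hs i hi).1) (hpos i hi).le
  have wL1 : ∀ i, i ≤ k → wL i ≤ 2 / 3 := by
    intro i hi
    have := (ht i hi).2.2.1
    simp only [hwL]
    rw [div_le_iff₀ (hpos i hi)]
    linarith
  have wR1 : ∀ i, i ≤ k → wR i ≤ 2 / 3 := by
    intro i hi
    have := (hs i hi).2.2.1
    simp only [hwR]
    rw [div_le_iff₀ (hpos i hi)]
    linarith
  have hgap : ∀ i, i ≤ k → 2 * ((F (b i) - F (a i)) / (b i - a i)) - ρ i - ℓ i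
      ≤ (bp (Y (i + 1)) - bp (Y i)) + (bq (Y (i + 1)) - bq (Y i)) := by
    intro i hi
    have hne : b i - a i ≠ 0 := (hpos i hi).ne'
    have hsplit : (F (b i) - F (a i)) / (b i - a i) = L i + D i + R i := by
      simp only [hLd, hDd, hRd]
      field_simp
      ring
    have hc : 1 - wL i - wR i = (s i - t i) / (b i - a i) := by
      simp only [hwL, hwR]
      field_simp
      ring
    have hD : D i ≤ (1 - wL i - wR i) * (bp (Y (i + 1)) - bq (Y i)) ∨
        D i ≤ (1 - wL i - wR i) * (bp (Y i) - bq (Y (i + 1))) := by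
      rw [hc]
      simp only [hDd]
      rcases le_total (t i) (s i) with h | h
      · left
        have := hup (Y i) (Y (i + 1)) (t i) (s i) (ht i hi).2.1 h (hs i hi).2.1
        rw [div_mul_eq_mul_div]
        exact div_le_div_of_nonneg_right (by linarith) (hpos i hi).le
      · right
        have := hlo (Y i) (Y (i + 1)) (s i) (t i) (hsY i hi) h (htY i hi)
        rw [div_mul_eq_mul_div]
        exact div_le_div_of_nonneg_right (by linarith) (hpos i hi).le
    have := gap_ineq (wL0 i hi) (wR0 i hi) (wL1 i hi) (wR1 i hi) (hbp (hYY i hi))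
      (hbq (hYY i hi)) hD
    rw [hsplit]
    simp only [hρ, hℓ]
    linarith
  have hmin : ∀ i, i + 1 ≤ k → ℓ i + ρ (i + 1) ≤ 2 * M (Y (i + 1)) := by
    intro i hi
    have hi' : i ≤ k := by omega
    have hRm : R i ≤ wR i * M (Y (i + 1)) := by
      simp only [hRd, hwR]
      rw [div_mul_eq_mul_div]
      exact div_le_div_of_nonneg_right (by linarith [(hs i hi').2.2.2.2.1]) (hpos i hi').le
    have hLm : L (i + 1) ≤ wL (i + 1) * M (Y (i + 1)) := by
      simp only [hLd, hwL]
      rw [div_mul_eq_mul_div]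
      exact div_le_div_of_nonneg_right (by linarith [(ht (i + 1) hi).2.2.2.2.1]) (hpos _ hi).le
    have hdich : b i ≤ Y (i + 1 + 1) ∨ Y i ≤ a (i + 1) := by
      by_contra hc
      push Not at hc
      obtain ⟨c1, c2, c3, c4⟩ := swap_core hα hα0 hα1 (hab i hi') (hab (i + 1) hi) (hYl i hi')
        (hYr i hi') (hYl (i + 1) hi) (hYr (i + 1) hi) hc.1 hc.2
      have e1 := hM1 _ _ _ c3 c1
      have e2 := hM1 _ _ _ c4 c2
      have e3 := hAl i hi
      have e4 := hAr i hi
      linarith
    have hW : R i ≤ wR i * ((bp (Y (i + 1)) - bq (Y (i + 1)))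
          + (bp (Y (i + 1 + 1)) - bp (Y (i + 1))) + (bq (Y (i + 1)) - bq (Y i))) ∨
        L (i + 1) ≤ wL (i + 1) * ((bp (Y (i + 1)) - bq (Y (i + 1)))
          + (bp (Y (i + 1 + 1)) - bp (Y (i + 1))) + (bq (Y (i + 1)) - bq (Y i))) := by
      rcases hdich with h | h
      · left
        have := hup (Y i) (Y (i + 1 + 1)) (s i) (b i) (hsY i hi') (hs i hi').1 h
        simp only [hRd, hwR]
        rw [div_mul_eq_mul_div]
        exact div_le_div_of_nonneg_right (by linarith) (hpos i hi').le
      · right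
        have := hup (Y i) (Y (i + 1 + 1)) (a (i + 1)) (t (i + 1)) h (ht (i + 1) hi).1 (htY _ hi)
        simp only [hLd, hwL]
        rw [div_mul_eq_mul_div]
        exact div_le_div_of_nonneg_right (by linarith) (hpos _ hi).le
    have := min_ineq (wR1 i hi') (wL1 (i + 1) hi) hRm hLm (hM2 _)
      (sub_nonneg.mpr (hbp (hYY (i + 1) hi))) (sub_nonneg.mpr (hbq (hYY i hi'))) hW
    simp only [hρ, hℓ]
    linarith
  have hρ0 : ρ 0 = bp (Y 0) - bq (Y 0) := by
    have h0 : t 0 = a 0 := (ht 0 (Nat.zero_le k)).2.2.2.2.2 hL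
    simp only [hρ, hLd, hwL, h0]
    norm_num
  have hℓk : ℓ k = bp (Y (k + 1)) - bq (Y (k + 1)) := by
    have h0 : s k = b k := (hs k le_rfl).2.2.2.2.2 hR
    simp only [hℓ, hRd, hwR, h0]
    norm_num
  have hind : ∀ n, n ≤ k → ∑ i ∈ range (n + 1), 2 * ((F (b i) - F (a i)) / (b i - a i))
      ≤ bp (Y (n + 1)) + bq (Y (n + 1)) - 2 * bq (Y 0) + ℓ n
        + ∑ j ∈ range n, 2 * M (Y (j + 1)) := by
    intro n
    induction n with
    | zero =>
      intro h
      have := hgap 0 h
      simp only [zero_add, range_one, sum_singleton, range_zero, sum_empty] at this ⊢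
      linarith
    | succ n ih =>
      intro h
      have h1 := ih (by omega)
      have h2 := hgap (n + 1) h
      have h3 := hmin n h
      rw [sum_range_succ, sum_range_succ (fun j => 2 * M (Y (j + 1)))]
      linarith
  have := hind k le_rfl
  linarith

/-- An alternating chain of minima `y` and peaks `x` dominating the sum `S`. -/
def Chain (M : ℝ → ℝ) (y0 w S : ℝ) : Prop :=
  ∃ (k : ℕ) (x y : ℕ → ℝ), y 0 = y0 ∧ y (k + 1) = w ∧
    (∀ i, i ≤ k → y i ≤ x i ∧ x i ≤ y (i + 1)) ∧
    (∀ i, i + 1 ≤ k → M (y (i + 1)) < M (x i) ∧ M (y (i + 1)) < M (x (i + 1))) ∧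
    M w ≤ M (x k) ∧
    S ≤ ∑ i ∈ range (k + 1), 2 * M (x i) - ∑ j ∈ range k, 2 * M (y (j + 1)) - M y0 - M w

theorem chain_base (M : ℝ → ℝ) (y0 : ℝ) : Chain M y0 y0 0 := by
  refine ⟨0, fun _ => y0, fun _ => y0, rfl, rfl, fun _ _ => ⟨le_rfl, le_rfl⟩,
    fun i hi => absurd hi (by omega), le_rfl, ?_⟩
  simp only [zero_add, range_one, sum_singleton, range_zero, sum_empty]
  linarith

theorem chain_mono {M : ℝ → ℝ} {y0 w S S' : ℝ} (h : Chain M y0 w S) (hS : S' ≤ S) :
    Chain M y0 w S' := by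
  obtain ⟨k, x, y, h1, h2, h3, h4, h5, h6⟩ := h
  exact ⟨k, x, y, h1, h2, h3, h4, h5, hS.trans h6⟩

theorem chain_step {M : ℝ → ℝ} {y0 w w' S : ℝ} (h : Chain M y0 w S) (hw : w ≤ w') :
    Chain M y0 w' (S + |M w' - M w|) := by
  obtain ⟨k, x, y, h1, h2, h3, h4, h5, h6⟩ := h
  rcases le_or_gt (M w') (M w) with hm | hm
  · -- move the last point
    refine ⟨k, x, fun i => if i = k + 1 then w' else y i, by simp [h1], by simp, ?_, ?_,
      hm.trans h5, ?_⟩
    · intro i hi
      have e1 : i ≠ k + 1 := by omega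
      simp only [e1, if_false]
      refine ⟨(h3 i hi).1, ?_⟩
      by_cases e2 : i + 1 = k + 1
      · rw [if_pos e2]
        have := (h3 i hi).2
        rw [e2, h2] at this
        exact this.trans hw
      · rw [if_neg e2]
        exact (h3 i hi).2
    · intro i hi
      have e1 : i + 1 ≠ k + 1 := by omega
      simp only [e1, if_false]
      exact h4 i hi
    · have e : ∑ j ∈ range k, 2 * M (if j + 1 = k + 1 then w' else y (j + 1))
          = ∑ j ∈ range k, 2 * M (y (j + 1)) := by
        refine sum_congr rfl fun j hj => ?_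
        have : j + 1 ≠ k + 1 := by have := mem_range.mp hj; omega
        rw [if_neg this]
      rw [e, abs_of_nonpos (by linarith)]
      linarith
  · rcases h5.lt_or_eq with h5' | h5'
    · -- new peak
      refine ⟨k + 1, fun i => if i = k + 1 then w' else x i,
        fun i => if i = k + 1 + 1 then w' else y i, by simp [h1], by simp, ?_, ?_, by simp, ?_⟩
      · intro i hi
        have e1 : i ≠ k + 1 + 1 := by omega
        by_cases e2 : i = k + 1
        · subst e2
          simp [h2, hw]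
        · have e3 : i + 1 ≠ k + 1 + 1 := by omega
          simp only [e1, e2, e3, if_false]
          exact h3 i (by omega)
      · intro i hi
        have e1 : i + 1 ≠ k + 1 + 1 := by omega
        have e2 : i ≠ k + 1 := by omega
        simp only [e1, e2, if_false]
        by_cases e3 : i + 1 = k + 1
        · have e4 : i = k := by omega
          subst e4
          simp only [if_true, h2]
          exact ⟨h5', hm⟩
        · rw [if_neg e3]
          exact h4 i (by omega)
      · have e : ∑ j ∈ range (k + 1), 2 * M (if j + 1 = k + 1 + 1 then w' else y (j + 1))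
            = ∑ j ∈ range (k + 1), 2 * M (y (j + 1)) := by
          refine sum_congr rfl fun j hj => ?_
          have : j + 1 ≠ k + 1 + 1 := by have := mem_range.mp hj; omega
          rw [if_neg this]
        have e' : ∑ j ∈ range (k + 1), 2 * M (if j = k + 1 then w' else x j)
            = ∑ j ∈ range (k + 1), 2 * M (x j) := by
          refine sum_congr rfl fun j hj => ?_
          have : j ≠ k + 1 := by have := mem_range.mp hj; omega
          rw [if_neg this]
        rw [e, sum_range_succ _ (k + 1), e', sum_range_succ (fun j => 2 * M (y (j + 1))) k, h2,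
          abs_of_pos (by linarith)]
        simp only [if_true]
        linarith
    · -- move the last peak
      refine ⟨k, fun i => if i = k then w' else x i,
        fun i => if i = k + 1 then w' else y i, by simp [h1], by simp, ?_, ?_, by simp, ?_⟩
      · intro i hi
        have e1 : i ≠ k + 1 := by omega
        by_cases e2 : i = k
        · subst e2
          have a1 := (h3 i hi).1
          have a2 := (h3 i hi).2
          rw [h2] at a2
          simp only [e1, if_false, if_true]
          exact ⟨a1.trans (a2.trans hw), le_rfl⟩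
        · have e3 : i + 1 ≠ k + 1 := by omega
          simp only [e1, e2, e3, if_false]
          exact h3 i hi
      · intro i hi
        have e1 : i + 1 ≠ k + 1 := by omega
        have e2 : i ≠ k := by omega
        simp only [e1, e2, if_false]
        refine ⟨(h4 i hi).1, ?_⟩
        by_cases e3 : i + 1 = k
        · rw [if_pos e3]
          have := (h4 i hi).2
          rw [e3] at this ⊢
          linarith
        · rw [if_neg e3]
          exact (h4 i hi).2
      · have e : ∑ j ∈ range k, 2 * M (if j + 1 = k + 1 then w' else y (j + 1))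
            = ∑ j ∈ range k, 2 * M (y (j + 1)) := by
          refine sum_congr rfl fun j hj => ?_
          have : j + 1 ≠ k + 1 := by have := mem_range.mp hj; omega
          rw [if_neg this]
        have e' : ∑ j ∈ range k, 2 * M (if j = k then w' else x j)
            = ∑ j ∈ range k, 2 * M (x j) := by
          refine sum_congr rfl fun j hj => ?_
          have : j ≠ k := by have := mem_range.mp hj; omega
          rw [if_neg this]
        rw [sum_range_succ] at h6
        rw [e, sum_range_succ _ k, e', abs_of_pos (by linarith)]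
        simp only [if_true]
        linarith

theorem chain_seq (M : ℝ → ℝ) {u : ℕ → ℝ} (hu : Monotone u) {y0 : ℝ} (h0 : y0 ≤ u 0) (n : ℕ) :
    Chain M y0 (u n) (∑ i ∈ range n, |M (u (i + 1)) - M (u i)|) := by
  induction n with
  | zero =>
    refine chain_mono (chain_step (chain_base M y0) h0) ?_
    simp
  | succ n ih =>
    rw [sum_range_succ]
    exact chain_step ih (hu (Nat.le_succ n))

end Pool.Agent.Lib.MP_25e49d_an
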