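import Mathlib

/-!
Tools for the explicit constant: telescoping sums, level crossings, a potential on a well and two
integrals.
-/

set_option autoImplicit false

namespace Pool.Agent.Lib.MP_25e49d_an

open Finset MeasureTheory
open scoped ENNReal

theorem tele {ι : Type} [LinearOrder ι] (I : Finset ι) (f g : ι → ℝ) (A : ℝ)
    (h2 : ∀ i ∈ I, ∀ j ∈ I, i < j → g i ≤ f j) (h3 : ∀ i ∈ I, A ≤ f i) :
    ∀ B, A ≤ B → (∀ i ∈ I, g i ≤ B) → ∑ i ∈ I, (g i - f i) ≤ B - A := by
  induction I using Finset.induction_on_max with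
  | empty => exact fun B hB _ => by simpa using hB
  | insert a s ha ih =>
    intro B _ hB
    rw [sum_insert fun c => lt_irrefl _ (ha a c)]
    have e1 := ih (fun i hi j hj => h2 i (mem_insert_of_mem hi) j (mem_insert_of_mem hj))
      (fun i hi => h3 i (mem_insert_of_mem hi)) (f a) (h3 a (mem_insert_self _ _))
      fun i hi => h2 i (mem_insert_of_mem hi) a (mem_insert_self _ _) (ha i hi)
    have e2 := hB a (mem_insert_self _ _)
    linarith

/-- `w s x` counts the crossings of the level `s` along `Z` up to the point `x`. -/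
theorem exists_cross {h v : ℝ → ℝ} (hv : ∀ s t, s ≤ t → |h t - h s| ≤ v t - v s) (Z : Finset ℝ)
    (A : ℝ) (hA : ∀ z ∈ Z, A ≤ z) : ∀ B, A ≤ B → (∀ z ∈ Z, z ≤ B) →
    ∃ (w : ℝ → ℝ → ℕ) (N : ℝ → ℕ), (∀ s, Monotone (w s)) ∧ (∀ s x, w s x ≤ N s) ∧
      (∀ s, ∀ x ∈ Z, ∀ y ∈ Z, x ≤ y → ¬(h x ≤ s ↔ h y ≤ s) → w s x + 1 ≤ w s y) ∧
      ∫⁻ s, (N s : ℝ≥0∞) ≤ ENNReal.ofReal (v B - v A) := by
  classical
  have hm : ∀ s t, s ≤ t → v s ≤ v t := fun s t c => by
    have := (abs_nonneg _).trans (hv s t c)
    linarith
  induction Z using Finset.induction_on_max with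
  | empty => exact fun B _ _ => ⟨fun _ _ => 0, fun _ => 0, fun _ => monotone_const, by simp⟩
  | insert t Z ht ih =>
    intro B _ hB
    rcases Z.eq_empty_or_nonempty with rfl | hne
    · exact ⟨fun _ _ => 0, fun _ => 0, fun _ => monotone_const, by simp⟩
    obtain ⟨u, hu, hu'⟩ := Z.exists_max_image id hne
    obtain ⟨w, N, w1, w2, w3, w4⟩ := ih (fun z hz => hA z (mem_insert_of_mem hz)) u
      (hA u (mem_insert_of_mem hu)) hu'
    set J := Set.Ico (min (h u) (h t)) (max (h u) (h t)) with hJ
    refine ⟨fun s x => w s x + if t ≤ x ∧ s ∈ J then 1 else 0,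
      fun s => N s + if s ∈ J then 1 else 0, fun s x y hxy => ?_, fun s x => ?_, ?_, ?_⟩
    · refine add_le_add (w1 s hxy) ?_
      split_ifs with c1 c2
      · exact le_rfl
      · exact absurd ⟨c1.1.trans hxy, c1.2⟩ c2
      · exact Nat.zero_le _
      · exact le_rfl
    · refine add_le_add (w2 s x) ?_
      split_ifs with c1 c2
      · exact le_rfl
      · exact absurd c1.2 c2
      · exact Nat.zero_le _
      · exact le_rfl
    · intro s x hx y hy hxy hs
      rw [mem_insert] at hx hy
      rcases hx with rfl | hx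
      · rcases hy with rfl | hy
        · exact absurd Iff.rfl hs
        · exact absurd (ht y hy) (not_lt.2 hxy)
      have c0 : ¬(t ≤ x ∧ s ∈ J) := fun c => absurd (ht x hx) (not_lt.2 c.1)
      simp only [if_neg c0, add_zero]
      rcases hy with rfl | hy
      · by_cases c1 : h x ≤ s ↔ h u ≤ s
        · have c2 : s ∈ J := by
            rw [c1] at hs
            simp only [hJ, Set.mem_Ico, min_le_iff, ← not_le, max_le_iff]
            tauto
          rw [if_pos ⟨le_rfl, c2⟩]
          exact Nat.succ_le_succ (w1 s hxy)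
        · exact ((w3 s x hx u hu (hu' x hx) c1).trans (w1 s (ht u hu).le)).trans
            (Nat.le_add_right _ _)
      · exact (w3 s x hx y hy hxy hs).trans (Nat.le_add_right _ _)
    · have e : ∀ s, ((N s + if s ∈ J then 1 else 0 : ℕ) : ℝ≥0∞) = N s + J.indicator 1 s := by
        intro s
        by_cases c : s ∈ J <;> simp [c]
      simp only [e]
      rw [lintegral_add_right _ (measurable_one.indicator measurableSet_Ico),
        lintegral_indicator_one measurableSet_Ico, Real.volume_Ico, max_sub_min_eq_abs]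
      have e1 := hv u t (ht u hu).le
      have e2 := hm t B (hB t (mem_insert_self _ _))
      have e3 := hm A u (hA u (mem_insert_of_mem hu))
      refine (add_le_add w4 le_rfl).trans ?_
      rw [← ENNReal.ofReal_add (by linarith) (abs_nonneg _)]
      exact ENNReal.ofReal_le_ofReal (by linarith)

/-- The potential on the well `(p, q)`. -/
noncomputable def pot (p q x : ℝ) : ℝ :=
  (4 / 3 * x + 2 / 3 * max (p + (q - p) / 4) (min x (q - (q - p) / 4))) / (q - p)

theorem pot_mono {p q : ℝ} (h : p < q) : Monotone (pot p q) := fun x y c => by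
  unfold pot
  have := sub_pos.2 h
  gcongr

theorem pot_total {p q : ℝ} (h : p < q) : pot p q q - pot p q p = 5 / 3 := by
  unfold pot
  have := sub_pos.2 h
  rw [min_eq_right (by linarith), min_eq_left (by linarith), max_eq_right (by linarith),
    max_eq_left (by linarith)]
  field_simp
  ring

theorem pot_core {L r t u : ℝ} (hr : 3 / 4 * L - t ≤ r) (hr0 : 0 < r) (ht : 0 ≤ t) (hu : 0 ≤ u)
    (hL : 0 < L) : min (t + u) (r / 2) * L ≤ r * (2 * t + 4 / 3 * u) := by
  rcases le_total (L / 2) (2 * t + 4 / 3 * u) with c | c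
  · have e1 := mul_le_mul_of_nonneg_right (min_le_right (t + u) (r / 2)) hL.le
    have e2 := mul_le_mul_of_nonneg_left c hr0.le
    linarith
  · have e1 := mul_le_mul_of_nonneg_right (min_le_left (t + u) (r / 2)) hL.le
    have e2 := mul_le_mul_of_nonneg_right hr (by linarith : 0 ≤ 2 * t + 4 / 3 * u)
    have e3 := mul_le_mul_of_nonneg_left c ht
    linarith

theorem pot_left {p q y c r : ℝ} (h : p < q) (h2 : y ≤ c) (h3 : c - p ≤ r) (h4 : q - c ≤ r) :
    min (c - y) (r / 2) / r ≤ pot p q c - pot p q y := by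
  have hL := sub_pos.2 h
  have hr : 0 < r := by linarith
  have e0 := mul_le_mul_of_nonneg_right (min_le_left (c - y) (r / 2)) hL.le
  unfold pot
  rw [← sub_div, div_le_div_iff₀ hr hL]
  rcases le_or_gt (3 / 4 * (q - p)) r with c1 | c1
  · have e1 : max (p + (q - p) / 4) (min y (q - (q - p) / 4)) ≤
        max (p + (q - p) / 4) (min c (q - (q - p) / 4)) := by gcongr
    have e2 := mul_le_mul_of_nonneg_right e1 hr.le
    have e3 := mul_le_mul_of_nonneg_right c1 (sub_nonneg.2 h2)
    linarith
  · rw [min_eq_left (by linarith : c ≤ _), min_eq_left (by linarith : y ≤ _),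
      max_eq_right (by linarith : _ ≤ c)]
    rcases le_total (p + (q - p) / 4) y with c2 | c2
    · have e3 := mul_le_mul_of_nonneg_right (by linarith : q - p ≤ 2 * r) (sub_nonneg.2 h2)
      rw [max_eq_right c2]
      linarith
    · have e3 := pot_core (L := q - p) (r := r) (t := c - (p + (q - p) / 4))
        (u := p + (q - p) / 4 - y) (by linarith) hr (by linarith) (by linarith) hL
      rw [sub_add_sub_cancel] at e3
      rw [max_eq_left c2]
      linarith

theorem pot_right {p q y c r : ℝ} (h : p < q) (h2 : c ≤ y) (h3 : c - p ≤ r) (h4 : q - c ≤ r) :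
    min (y - c) (r / 2) / r ≤ pot p q y - pot p q c := by
  have hL := sub_pos.2 h
  have hr : 0 < r := by linarith
  have e0 := mul_le_mul_of_nonneg_right (min_le_left (y - c) (r / 2)) hL.le
  unfold pot
  rw [← sub_div, div_le_div_iff₀ hr hL]
  rcases le_or_gt (3 / 4 * (q - p)) r with c1 | c1
  · have e1 : max (p + (q - p) / 4) (min c (q - (q - p) / 4)) ≤
        max (p + (q - p) / 4) (min y (q - (q - p) / 4)) := by gcongr
    have e2 := mul_le_mul_of_nonneg_right e1 hr.le
    have e3 := mul_le_mul_of_nonneg_right c1 (sub_nonneg.2 h2)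
    linarith
  · rw [min_eq_left (by linarith : c ≤ _), max_eq_right (by linarith : _ ≤ c)]
    rcases le_total y (q - (q - p) / 4) with c2 | c2
    · have e3 := mul_le_mul_of_nonneg_right (by linarith : q - p ≤ 2 * r) (sub_nonneg.2 h2)
      rw [min_eq_left c2, max_eq_right (by linarith)]
      linarith
    · have e3 := pot_core (L := q - p) (r := r) (t := q - (q - p) / 4 - c)
        (u := y - (q - (q - p) / 4)) (by linarith) hr (by linarith) (by linarith) hL
      rw [add_comm, sub_add_sub_cancel] at e3
      rw [min_eq_right c2, max_eq_right (by linarith)]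
      linarith

/-- The density of the charge of one side of a peak. -/
noncomputable def chg (P T t x : ℝ) : ℝ≥0∞ :=
  if x < P ∧ P - x < t * (T - x) then ENNReal.ofReal (T - x)⁻¹ else 0

theorem chg_meas (P T t : ℝ) : Measurable (chg P T t) :=
  Measurable.ite ((measurableSet_lt measurable_id measurable_const).inter
    (measurableSet_lt (f := fun x => P - x) (g := fun x => t * (T - x)) (by fun_prop)
      (by fun_prop))) (by fun_prop) measurable_const

theorem chg_int (P T : ℝ) {t : ℝ} (h0 : 0 ≤ t) (h1 : t ≤ 1 / 2) :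
    ∫⁻ x, chg P T t x ≤ ENNReal.ofReal (2 * Real.log 2 * t) := by
  rcases le_or_gt T P with c | c
  · have e : ∀ x, chg P T t x = 0 := fun x => if_neg fun a => by
      have := mul_le_mul_of_nonneg_left (by linarith : T - x ≤ P - x) h0
      have := mul_le_mul_of_nonneg_right h1 (sub_pos.2 a.1).le
      linarith [a.1, a.2]
    simp [e]
  have ht : 0 < 1 - t := by linarith
  have hd : 0 < T - P := sub_pos.2 c
  set y := T - (T - P) / (1 - t) with hy
  have hyP : y ≤ P := by
    have : T - P ≤ (T - P) / (1 - t) := le_div_self hd.le ht (by linarith)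
    linarith
  have e1 : ∀ x, chg P T t x ≤
      (Set.Ioc y P).indicator (fun x => ENNReal.ofReal (1 / (T - x))) x := fun x => by
    unfold chg
    split_ifs with a
    · have : T - x < (T - P) / (1 - t) := by
        rw [lt_div_iff₀ ht]
        linarith [a.2]
      rw [Set.indicator_of_mem (show x ∈ Set.Ioc y P from ⟨by linarith, a.1.le⟩), one_div]
    · exact zero_le
  refine (lintegral_mono e1).trans ?_
  have hc : ContinuousOn (fun x => 1 / (T - x)) (Set.Icc y P) :=
    continuousOn_const.div (by fun_prop) fun x hx => by linarith [hx.2]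
  rw [lintegral_indicator measurableSet_Ioc, ← ofReal_integral_eq_lintegral_ofReal
    (hc.integrableOn_Icc.mono_set Set.Ioc_subset_Icc_self)
    ((ae_restrict_iff' measurableSet_Ioc).2 (ae_of_all _ fun x hx =>
      one_div_nonneg.2 (by linarith [hx.2]))),
    ← intervalIntegral.integral_of_le hyP,
    intervalIntegral.integral_comp_sub_left (fun u => 1 / u) T,
    integral_one_div_of_pos hd (by linarith)]
  refine ENNReal.ofReal_le_ofReal ?_
  have e2 : (T - y) / (T - P) = (1 - t)⁻¹ := by
    rw [hy]
    field_simp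
    ring
  have e3 := strictConcaveOn_log_Ioi.concaveOn.2 (show (1 : ℝ) ∈ Set.Ioi 0 from by norm_num)
    (show (2⁻¹ : ℝ) ∈ Set.Ioi 0 from by norm_num) (show 0 ≤ 1 - 2 * t by linarith)
    (show 0 ≤ 2 * t by linarith) (by ring)
  rw [Real.log_one, Real.log_inv, smul_eq_mul, smul_eq_mul, smul_eq_mul, smul_eq_mul,
    show (1 - 2 * t) * 1 + 2 * t * 2⁻¹ = 1 - t by ring] at e3
  rw [e2, Real.log_inv]
  linarith

open Classical in
/-- The level `x` is spread uniformly over the levels between `x` and `σ`. -/
noncomputable def spr (D : Set ℝ) (σ s x : ℝ) : ℝ≥0∞ :=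
  if x ∈ D ∧ x < s ∧ s < σ then ENNReal.ofReal (σ - x)⁻¹ else 0

theorem spr_int {D : Set ℝ} (hD : MeasurableSet D) {σ : ℝ} (h : ∀ x ∈ D, x < σ) :
    volume D = ∫⁻ s, ∫⁻ x, spr D σ s x := by
  have hm : Measurable (Function.uncurry (spr D σ)) :=
    Measurable.ite ((measurable_snd hD).inter ((measurableSet_lt measurable_snd measurable_fst).inter
      (measurableSet_lt measurable_fst measurable_const))) (by fun_prop) measurable_const
  rw [lintegral_lintegral_swap hm.aemeasurable, ← lintegral_indicator_one hD]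
  refine lintegral_congr fun x => ?_
  by_cases c : x ∈ D
  · have e : ∀ s, spr D σ s x = (Set.Ioo x σ).indicator (fun _ => ENNReal.ofReal (σ - x)⁻¹) s :=
      fun s => by simp [spr, c, Set.indicator]
    have e1 := sub_pos.2 (h x c)
    simp only [e]
    rw [lintegral_indicator_const measurableSet_Ioo, Real.volume_Ioo,
      ← ENNReal.ofReal_mul (inv_pos.2 e1).le, inv_mul_cancel₀ e1.ne', Set.indicator_of_mem c]
    simp
  · simp [spr, c]

theorem sum_lintegral_le {ι : Type} (I : Finset ι) (f : ι → ℝ → ℝ≥0∞) :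
    ∑ i ∈ I, ∫⁻ x, f i x ≤ ∫⁻ x, ∑ i ∈ I, f i x := by
  classical
  induction I using Finset.induction_on with
  | empty => simp
  | insert a s ha ih =>
    simp only [sum_insert ha]
    exact (add_le_add le_rfl ih).trans (le_lintegral_add _ _)

end Pool.Agent.Lib.MP_25e49d_an
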