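import Pool.Agent.Lib.MP_25e49d_an.ConstA

/-!
The finite charging argument. Peaks `i ≤ k` have centres `c i`, radii `r i` and values `P i`;
valleys `Y j` have values `m j`; `Z` is a finite set of high points and `W j` are low points.
-/

set_option autoImplicit false

namespace Pool.Agent.Lib.MP_25e49d_an

open Finset MeasureTheory
open scoped ENNReal

/-- The finite data. -/
structure Cfg where
  k : ℕ
  (Y c r P m TL TR W : ℕ → ℝ)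
  Z : Finset ℝ
  h : ℝ → ℝ
  w : ℝ → ℝ → ℕ
  N : ℝ → ℕ
  Yc : ∀ i, i ≤ k → Y i ≤ c i
  cY : ∀ i, i ≤ k → c i ≤ Y (i + 1)
  r0 : ∀ i, i ≤ k → 0 < r i
  m0 : ∀ j, 0 ≤ m j
  mk1 : m (k + 1) = 0
  mP : ∀ l, 0 < l → l ≤ k → m l < P l
  ZY : ∀ z ∈ Z, ∀ j, j ≤ k + 1 → z ≠ Y j
  Zc : ∀ z ∈ Z, ∀ l, l ≤ k → z ≠ c l
  Z0 : ∀ z ∈ Z, Y 0 < z
  L1 : ∀ l, l ≤ k → ∃ z ∈ Z, c l - r l < z ∧ z < c l ∧ h z = TL l
  L2 : ∀ l, l ≤ k → ∀ z ∈ Z, c l - r l < z → z < c l → h z ≤ TL l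
  R1 : ∀ l, l ≤ k → ∃ z ∈ Z, c l < z ∧ z < c l + r l ∧ h z = TR l
  R2 : ∀ l, l ≤ k → ∀ z ∈ Z, c l < z → z < c l + r l → h z ≤ TR l
  gL : ∀ i l x, i ≤ l → l ≤ k → m i ≤ x → (∀ z ∈ Z, Y i < z → z < c l → h z ≤ x) →
    r l * (P l - x) < min (c l - Y i) (r l / 2) * (TR l - x)
  gR : ∀ l e x, l ≤ e → e ≤ k → m (e + 1) ≤ x → (∀ z ∈ Z, c l < z → z < Y (e + 1) → h z ≤ x) →
    r l * (P l - x) < min (Y (e + 1) - c l) (r l / 2) * (TL l - x)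
  W1 : ∀ j, j ≤ k + 1 → ∀ z ∈ Z, (z < Y j → z < W j) ∧ (Y j < z → W j < z)
  W2 : ∀ i j, i ≤ j → j ≤ k + 1 → W i ≤ W j
  W3 : ∀ j, 0 < j → j ≤ k → h (W j) ≤ m j
  wm : ∀ s, Monotone (w s)
  wN : ∀ s x, w s x ≤ N s
  wu : ∀ s j, j ≤ k + 1 → ∀ z ∈ Z, W j ≤ z → h (W j) ≤ s → s < h z → w s (W j) + 1 ≤ w s z
  wd : ∀ s j, j ≤ k + 1 → ∀ z ∈ Z, z ≤ W j → h (W j) ≤ s → s < h z → w s z + 1 ≤ w s (W j)

namespace Cfg

variable (C : Cfg)

/-- The levels at which the peaks `i, …, e` form a detached run. -/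
def D (i e : ℕ) : Set ℝ :=
  {x | C.m i ≤ x ∧ C.m (e + 1) ≤ x ∧ x < C.P i ∧ (∀ j, i < j → j ≤ e → x < C.m j) ∧
    ∀ z ∈ C.Z, C.Y i < z → z < C.Y (e + 1) → C.h z ≤ x}

theorem D_meas (i e : ℕ) : MeasurableSet (C.D i e) :=
  Set.OrdConnected.measurableSet ⟨fun _ a _ b _ c => ⟨a.1.trans c.1, a.2.1.trans c.1,
    c.2.trans_lt b.2.2.1, fun j j1 j2 => c.2.trans_lt (b.2.2.2.1 j j1 j2),
    fun z z0 z1 z2 => (a.2.2.2.2 z z0 z1 z2).trans c.1⟩⟩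

theorem Ym {i j : ℕ} (hij : i ≤ j) : j ≤ C.k + 1 → C.Y i ≤ C.Y j := by
  induction j, hij using Nat.le_induction with
  | base => exact fun _ => le_rfl
  | succ j _ ih =>
    exact fun hj => (ih (by omega)).trans ((C.Yc j (by omega)).trans (C.cY j (by omega)))

theorem Ycm {i l : ℕ} (h : i ≤ l) (hl : l ≤ C.k) : C.Y i ≤ C.c l :=
  (C.Ym h (by omega)).trans (C.Yc l hl)

theorem cYm {l j : ℕ} (h : l < j) (hj : j ≤ C.k + 1) : C.c l ≤ C.Y j :=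
  (C.cY l (by omega)).trans (C.Ym h hj)

theorem cm {i l : ℕ} (h : i ≤ l) (hl : l ≤ C.k) : C.c i ≤ C.c l := by
  rcases h.eq_or_lt with rfl | h
  · exact le_rfl
  · exact (C.cYm h (by omega)).trans (C.Yc l hl)

variable {C} {i e l : ℕ} {x : ℝ}

theorem D_P (hx : x ∈ C.D i e) (h1 : i ≤ l) (h2 : l ≤ e) (h3 : e ≤ C.k) : x < C.P l := by
  rcases h1.eq_or_lt with rfl | h
  · exact hx.2.2.1
  · exact (hx.2.2.2.1 l h h2).trans (C.mP l (by omega) (by omega))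

theorem D_L (hx : x ∈ C.D i e) (h1 : i ≤ l) (h2 : l ≤ e) (h3 : e ≤ C.k) :
    C.r l * (C.P l - x) < min (C.c l - C.Y i) (C.r l / 2) * (C.TR l - x) :=
  C.gL i l x h1 (by omega) hx.1 fun z z0 z1 z2 =>
    hx.2.2.2.2 z z0 z1 (z2.trans_le (C.cYm (by omega) (by omega)))

theorem D_R (hx : x ∈ C.D i e) (h1 : i ≤ l) (h2 : l ≤ e) (h3 : e ≤ C.k) :
    C.r l * (C.P l - x) < min (C.Y (e + 1) - C.c l) (C.r l / 2) * (C.TL l - x) :=
  C.gR l e x h2 h3 hx.2.1 fun z z0 z1 z2 =>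
    hx.2.2.2.2 z z0 ((C.Ycm h1 (by omega)).trans_lt z1) z2

theorem D_T (hx : x ∈ C.D i e) (h1 : i ≤ l) (h2 : l ≤ e) (h3 : e ≤ C.k) :
    x < min (C.TL l) (C.TR l) := by
  have r0 := C.r0 l (by omega)
  have e0 := mul_pos r0 (sub_pos.2 (D_P hx h1 h2 h3))
  have a1 := C.Ycm h1 (h2.trans h3)
  have a2 := C.cYm (Nat.lt_succ_of_le h2) (Nat.succ_le_succ h3)
  exact lt_min
    (sub_pos.1 (pos_of_mul_pos_right (e0.trans (D_R hx h1 h2 h3))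
      (le_min (by linarith) (by linarith))))
    (sub_pos.1 (pos_of_mul_pos_right (e0.trans (D_L hx h1 h2 h3))
      (le_min (by linarith) (by linarith))))

theorem D_uniq {i' e' : ℕ} (hx : x ∈ C.D i e) (hx' : x ∈ C.D i' e') (h1 : i ≤ l) (h2 : l ≤ e)
    (h3 : i' ≤ l) (h4 : l ≤ e') : i = i' ∧ e = e' := by
  refine ⟨le_antisymm (not_lt.1 fun c => ?_) (not_lt.1 fun c => ?_),
    le_antisymm (not_lt.1 fun c => ?_) (not_lt.1 fun c => ?_)⟩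
  · exact absurd (hx'.2.2.2.1 i c (by omega)) (not_lt.2 hx.1)
  · exact absurd (hx.2.2.2.1 i' c (by omega)) (not_lt.2 hx'.1)
  · exact absurd (hx.2.2.2.1 (e' + 1) (by omega) c) (not_lt.2 hx'.2.1)
  · exact absurd (hx'.2.2.2.1 (e + 1) (by omega) c) (not_lt.2 hx.2.1)

theorem D_left (hx : x ∈ C.D i e) (h1 : i ≤ l) (h2 : l ≤ e) (h3 : e ≤ C.k) {z : ℝ}
    (hz : z ∈ C.Z) (h4 : x < C.h z) (h5 : z < C.c l) : z < C.Y i :=
  (lt_or_gt_of_ne (C.ZY z hz i (by omega))).resolve_right fun c =>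
    absurd (hx.2.2.2.2 z hz c (h5.trans_le (C.cYm (by omega) (by omega)))) (not_le.2 h4)

theorem D_right (hx : x ∈ C.D i e) (h1 : i ≤ l) (h2 : l ≤ e) (h3 : e ≤ C.k) {z : ℝ}
    (hz : z ∈ C.Z) (h4 : x < C.h z) (h5 : C.c l < z) : C.Y (e + 1) < z :=
  (lt_or_gt_of_ne (C.ZY z hz (e + 1) (by omega))).resolve_left fun c =>
    absurd (hx.2.2.2.2 z hz ((C.Ycm h1 (by omega)).trans_lt h5) c) (not_le.2 h4)

/-- Two balls of a run cannot cross. -/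
theorem D_side {l' : ℕ} {σ : ℝ} (hx : x ∈ C.D i e) (h1 : i ≤ l) (h2 : l ≤ l') (h3 : l' ≤ e)
    (h4 : e ≤ C.k) (hσ : x < σ) (a : min (C.TL l) (C.TR l) ≤ σ)
    (b : min (C.TL l') (C.TR l') ≤ σ) : C.TR l ≤ σ ∨ C.TL l' ≤ σ := by
  by_contra hc
  rw [not_or, not_le, not_le] at hc
  have a' := (min_le_iff.1 a).resolve_right (not_le.2 hc.1)
  have b' := (min_le_iff.1 b).resolve_left (not_le.2 hc.2)
  obtain ⟨z, z0, z1, z2, z3⟩ := C.R1 l (by omega)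
  obtain ⟨y, y0, y1, y2, y3⟩ := C.L1 l' (by omega)
  have e1 := D_right hx h1 (h2.trans h3) h4 z0 (by linarith) z1
  have e2 := D_left hx (h1.trans h2) h3 h4 y0 (by linarith) y2
  have e3 := C.cYm (Nat.lt_succ_of_le h3) (Nat.succ_le_succ h4)
  have e4 := C.Ycm h1 (by omega)
  have e5 := C.cm h2 (by omega)
  have e6 : C.c l' + C.r l' ≤ z := not_lt.1 fun c => by
    have := C.R2 l' (by omega) z z0 (by linarith) c
    linarith
  have e7 : y ≤ C.c l - C.r l := not_lt.1 fun c => by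
    have := C.L2 l (by omega) y y0 c (by linarith)
    linarith
  linarith

variable (C) (s : ℝ)

/-- The ball of `l` sees points above the level `s` on both sides. -/
def Fs (l : ℕ) : Prop := s < C.TL l ∧ s < C.TR l

/-- `l` is the first such peak of a detached run starting at `i`. -/
def LI (l i : ℕ) : Prop :=
  i ≤ l ∧ (∀ j, i ≤ j → j < l → ¬C.Fs s j) ∧ ∃ e x, l ≤ e ∧ e ≤ C.k ∧ x ∈ C.D i e ∧ x < s

/-- `l` is the last such peak of a detached run ending at `e`. -/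
def RI (l e : ℕ) : Prop :=
  l ≤ e ∧ e ≤ C.k ∧ (∀ j, l < j → j ≤ e → ¬C.Fs s j) ∧ ∃ i x, i ≤ l ∧ x ∈ C.D i e ∧ x < s

/-- The peaks that are charged at the level `s`. -/
def Act (l : ℕ) : Prop :=
  l ≤ C.k ∧ C.Fs s l ∧ ∃ i e x, i ≤ l ∧ l ≤ e ∧ e ≤ C.k ∧ x ∈ C.D i e ∧ x < s

theorem exists_α (l : ℕ) : ∃ α, (α = C.c l ∨ ∃ i, C.LI s l i ∧ α = C.Y i) ∧ α ≤ C.c l ∧
    ∀ i, C.LI s l i → α ≤ C.Y i := by
  classical
  obtain ⟨α, a1, a2⟩ := (insert (C.c l) (((range (l + 1)).filter (C.LI s l)).image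
    C.Y)).exists_min_image id (insert_nonempty _ _)
  refine ⟨α, (mem_insert.1 a1).imp id fun c => ?_, a2 _ (mem_insert_self _ _), fun i hi =>
    a2 _ (mem_insert_of_mem (mem_image_of_mem _ (mem_filter.2
      ⟨mem_range.2 (Nat.lt_succ_of_le hi.1), hi⟩)))⟩
  obtain ⟨i, i1, rfl⟩ := mem_image.1 c
  exact ⟨i, (mem_filter.1 i1).2, rfl⟩

theorem exists_β (l : ℕ) : ∃ β, (β = C.c l ∨ ∃ e, C.RI s l e ∧ β = C.Y (e + 1)) ∧ C.c l ≤ β ∧
    ∀ e, C.RI s l e → C.Y (e + 1) ≤ β := by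
  classical
  obtain ⟨α, a1, a2⟩ := (insert (C.c l) (((range (C.k + 1)).filter (C.RI s l)).image
    fun e => C.Y (e + 1))).exists_max_image id (insert_nonempty _ _)
  refine ⟨α, (mem_insert.1 a1).imp id fun c => ?_, a2 _ (mem_insert_self _ _), fun i hi =>
    a2 _ (mem_insert_of_mem (mem_image_of_mem _ (mem_filter.2
      ⟨mem_range.2 (Nat.lt_succ_of_le hi.2.1), hi⟩)))⟩
  obtain ⟨i, i1, rfl⟩ := mem_image.1 c
  exact ⟨i, (mem_filter.1 i1).2, rfl⟩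

variable {C s}

theorem ord {l' : ℕ} {α β : ℝ} (h : l < l') (hk : l' ≤ C.k) (f : C.Fs s l) (f' : C.Fs s l')
    (hβ : β = C.c l ∨ ∃ e, C.RI s l e ∧ β = C.Y (e + 1))
    (hα : α = C.c l' ∨ ∃ i, C.LI s l' i ∧ α = C.Y i) : β ≤ α := by
  rcases hβ with rfl | ⟨e, ⟨e1, e2, e3, i, x, i1, hx, _⟩, rfl⟩ <;>
    rcases hα with rfl | ⟨i', ⟨j1, j2, e', x', j3, j4, hx', _⟩, rfl⟩
  · exact C.cm h.le hk
  · exact C.cYm (not_le.1 fun c => j2 l c h f) (by omega)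
  · exact C.Ycm (not_le.1 fun c => e3 l' h c f') hk
  · have a1 : l < i' := not_le.1 fun c => j2 l c h f
    have a2 : e < l' := not_le.1 fun c => e3 l' h c f'
    refine C.Ym (not_lt.1 fun c => ?_) (by omega)
    have b1 := hx.2.2.2.1 i' (by omega) (by omega)
    have b2 := hx'.2.2.2.1 (e + 1) (by omega) (by omega)
    linarith [hx.2.1, hx'.1]

/-- The well of level `s` around an active peak. -/
theorem exists_well (h : C.Act s l) : ∃ p q, p ∈ C.Z ∧ q ∈ C.Z ∧ C.c l - C.r l < p ∧ p < C.c l ∧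
    C.c l < q ∧ q < C.c l + C.r l ∧ s < C.h p ∧ s < C.h q ∧
    (∀ z ∈ C.Z, p < z → z < q → C.h z ≤ s) ∧ C.w s p + 2 ≤ C.w s q := by
  classical
  obtain ⟨hl, f, i, e, x, i1, i2, i3, hx, hs⟩ := h
  obtain ⟨z, z0, z1, z2, z3⟩ := C.R1 l hl
  obtain ⟨y, y0, y1, y2, y3⟩ := C.L1 l hl
  have hy : y ∈ C.Z.filter fun z => z < C.c l ∧ s < C.h z := mem_filter.2 ⟨y0, y2, y3 ▸ f.1⟩
  have hz : z ∈ C.Z.filter fun z => C.c l < z ∧ s < C.h z := mem_filter.2 ⟨z0, z1, z3 ▸ f.2⟩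
  obtain ⟨p, p1, p2⟩ := exists_max_image _ id ⟨y, hy⟩
  obtain ⟨q, q1, q2⟩ := exists_min_image _ id ⟨z, hz⟩
  obtain ⟨p0, p3, p4⟩ := mem_filter.1 p1
  obtain ⟨q0, q3, q4⟩ := mem_filter.1 q1
  refine ⟨p, q, p0, q0, y1.trans_le (p2 y hy), p3, q3, lt_of_le_of_lt (q2 z hz) z2, p4, q4,
    fun u u0 u1 u2 => not_lt.1 fun c => ?_, ?_⟩
  · rcases lt_or_gt_of_ne (C.Zc u u0 l hl) with d | d
    · exact absurd (p2 u (mem_filter.2 ⟨u0, d, c⟩)) (not_le.2 u1)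
    · exact absurd (q2 u (mem_filter.2 ⟨u0, d, c⟩)) (not_le.2 u2)
  · have a1 := D_left hx i1 i2 i3 p0 (hs.trans p4) p3
    have a2 : 0 < i := Nat.pos_of_ne_zero fun c => lt_asymm (C.Z0 p p0) (c ▸ a1)
    have a3 := (C.W3 i a2 (by omega)).trans (hx.1.trans hs.le)
    have a4 := C.wd s i (by omega) p p0 ((C.W1 i (by omega) p p0).1 a1).le a3 p4
    have a5 := C.wu s i (by omega) q q0
      ((C.W1 i (by omega) q q0).2 ((C.Ycm i1 hl).trans_lt q3)).le a3 q4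
    omega

theorem geom (A : Finset ℕ) (hA : ∀ l ∈ A, C.Act s l) (α β : ℕ → ℝ)
    (hα : ∀ l, (α l = C.c l ∨ ∃ i, C.LI s l i ∧ α l = C.Y i) ∧ α l ≤ C.c l)
    (hβ : ∀ l, (β l = C.c l ∨ ∃ e, C.RI s l e ∧ β l = C.Y (e + 1)) ∧ C.c l ≤ β l) :
    ∑ l ∈ A, (min (C.c l - α l) (C.r l / 2) / C.r l + min (β l - C.c l) (C.r l / 2) / C.r l) ≤
      5 / 6 * C.N s := by
  classical
  choose! p q p0 q0 p1 p2 q1 q2 p3 q3 hpq hw using fun l hl => exists_well (hA l hl)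
  have same : ∀ l ∈ A, ∀ l' ∈ A, q l = q l' → p l ≤ p l' := fun l hl l' hl' c =>
    not_lt.1 fun d => absurd (hpq l' hl' _ (p0 l hl) d (c ▸ (p2 l hl).trans (q1 l hl)))
      (not_le.2 (p3 l hl))
  choose! g g1 g2 using fun t (ht : t ∈ A.image q) => mem_image.1 ht
  have e1 : ∀ t ∈ A.image q, ∑ l ∈ A with q l = t, (min (C.c l - α l) (C.r l / 2) / C.r l +
      min (β l - C.c l) (C.r l / 2) / C.r l) ≤ 5 / 3 := by
    intro t ht
    have hp : ∀ l ∈ A.filter fun l => q l = t, l ∈ A ∧ q l = t ∧ p l = p (g t) := fun l hl => by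
      obtain ⟨a, b⟩ := mem_filter.1 hl
      have c := b.trans (g2 t ht).symm
      exact ⟨a, b, le_antisymm (same _ a _ (g1 t ht) c) (same _ (g1 t ht) _ a c.symm)⟩
    have hlt : p (g t) < t := ((p2 _ (g1 t ht)).trans (q1 _ (g1 t ht))).trans_eq (g2 t ht)
    have hm := pot_mono hlt
    rw [← pot_total hlt]
    refine le_trans (sum_le_sum fun l hl => ?_) (tele _ (fun l => pot (p (g t)) t (α l))
      (fun l => pot (p (g t)) t (β l)) _ (fun l hl l' hl' c => hm ?_) (fun l hl => hm ?_) _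
      (hm hlt.le) fun l hl => hm ?_)
    · obtain ⟨a, b, c⟩ := hp l hl
      have d1 := p1 l a
      have d2 := q2 l a
      rw [c] at d1
      rw [b] at d2
      have d3 := pot_left (r := C.r l) hlt (hα l).2 (by linarith) (by linarith)
      have d4 := pot_right (r := C.r l) hlt (hβ l).2 (by linarith) (by linarith)
      linarith
    · exact ord c (hA _ (hp l' hl').1).1 (hA _ (hp l hl).1).2.1 (hA _ (hp l' hl').1).2.1
        (hβ l).1 (hα l').1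
    · obtain ⟨a, _, c⟩ := hp l hl
      rw [← c]
      rcases (hα l).1 with d | ⟨i, ⟨i1, _, e, x, i2, i3, hx, hs⟩, d⟩ <;> rw [d]
      · exact (p2 l a).le
      · exact (D_left hx i1 i2 i3 (p0 l a) (hs.trans (p3 l a)) (p2 l a)).le
    · obtain ⟨a, b, _⟩ := hp l hl
      rw [← b]
      rcases (hβ l).1 with d | ⟨e, ⟨i2, i3, _, i, x, i1, hx, hs⟩, d⟩ <;> rw [d]
      · exact (q1 l a).le
      · exact (D_right hx i1 i2 i3 (q0 l a) (hs.trans (q3 l a)) (q1 l a)).le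
  have e2 := tele (A.image q) (fun t => (C.w s (p (g t)) : ℝ)) (fun t => C.w s t) 0
    (fun t ht t' ht' c => Nat.cast_le.2 (C.wm s (not_lt.1 fun d => by
      have a := hpq _ (g1 t' ht') _ (q0 _ (g1 t ht)) (by rwa [g2 t ht]) (by rwa [g2 t ht, g2 t' ht'])
      exact absurd a (not_le.2 (q3 _ (g1 t ht))))))
    (fun _ _ => Nat.cast_nonneg _) (C.N s) (Nat.cast_nonneg _)
    fun t _ => Nat.cast_le.2 (C.wN s t)
  have e3 : ∑ t ∈ A.image q, (2 : ℝ) ≤ ∑ t ∈ A.image q, ((C.w s t : ℝ) - C.w s (p (g t))) :=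
    sum_le_sum fun t ht => by
      have a : ((C.w s (p (g t)) + 2 : ℕ) : ℝ) ≤ C.w s t :=
        Nat.cast_le.2 (by simpa only [g2 t ht] using hw _ (g1 t ht))
      push_cast at a
      linarith
  rw [← sum_fiberwise_of_maps_to fun l hl => mem_image_of_mem q hl]
  have e4 := sum_le_sum e1
  rw [sum_const, nsmul_eq_mul] at e3 e4
  linarith

end Cfg

end Pool.Agent.Lib.MP_25e49d_an
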