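import Pool.Agent.Lib.MP_25e49d_an.ConstB

/-!
Integration of the charges.
-/

set_option autoImplicit false

namespace Pool.Agent.Lib.MP_25e49d_an

open Finset MeasureTheory
open scoped ENNReal

theorem spr_le_chg {D : Set ℝ} {σ s x P T r η η' : ℝ} (hr : 0 < r) (hP : x < P) (hT : x < T)
    (hσ : T ≤ σ) (hη : η ≤ η') (h : r * (P - x) < min η (r / 2) * (T - x)) :
    spr D σ s x ≤ chg P T (min η' (r / 2) / r) x := by
  have e : P - x < min η' (r / 2) / r * (T - x) := by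
    rw [div_mul_eq_mul_div, lt_div_iff₀' hr]
    exact h.trans_le (mul_le_mul_of_nonneg_right (min_le_min_right _ hη) (sub_pos.2 hT).le)
  unfold spr chg
  rw [if_pos (And.intro hP e)]
  split_ifs
  · exact ENNReal.ofReal_le_ofReal (inv_anti₀ (sub_pos.2 hT) (by linarith))
  · exact zero_le

namespace Cfg

variable (C : Cfg)

/-- The pairs of indices. -/
def prs : Finset (ℕ × ℕ) := (range (C.k + 1) ×ˢ range (C.k + 1)).filter fun p => p.1 ≤ p.2

theorem mem_prs {p : ℕ × ℕ} : p ∈ C.prs ↔ p.1 ≤ p.2 ∧ p.2 ≤ C.k := by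
  simp only [prs, mem_filter, mem_product, mem_range]
  omega

theorem level (σ : ℕ × ℕ → ℝ)
    (h1 : ∀ p l, p.1 ≤ l → l ≤ p.2 → min (C.TL l) (C.TR l) ≤ σ p)
    (h2 : ∀ p, p.1 ≤ p.2 → ∃ l, p.1 ≤ l ∧ l ≤ p.2 ∧ σ p = min (C.TL l) (C.TR l)) (s : ℝ) :
    ∫⁻ x, ∑ p ∈ C.prs, spr (C.D p.1 p.2) (σ p) s x ≤
      ENNReal.ofReal (5 / 3 * Real.log 2) * C.N s := by
  classical
  choose α a1 a2 a3 using C.exists_α s
  choose β b1 b2 b3 using C.exists_β s
  set A := (range (C.k + 1)).filter (C.Act s) with hA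
  have hA' : ∀ l ∈ A, C.Act s l := fun l hl => (mem_filter.1 hl).2
  set f : ℕ → ℝ → ℝ≥0∞ := fun l x =>
    chg (C.P l) (C.TR l) (min (C.c l - α l) (C.r l / 2) / C.r l) x +
      chg (C.P l) (C.TL l) (min (β l - C.c l) (C.r l / 2) / C.r l) x with hf
  have key : ∀ x, ∑ p ∈ C.prs, spr (C.D p.1 p.2) (σ p) s x ≤ ∑ l ∈ A, f l x := by
    intro x
    have hp : ∀ p ∈ C.prs.filter fun p => x ∈ C.D p.1 p.2 ∧ x < s ∧ s < σ p,
        ∃ l ∈ A, p.1 ≤ l ∧ l ≤ p.2 ∧ spr (C.D p.1 p.2) (σ p) s x ≤ f l x := by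
      rintro ⟨i, e⟩ hp
      obtain ⟨hp, hx, hs, hσ⟩ := mem_filter.1 hp
      obtain ⟨i1, i2⟩ := C.mem_prs.1 hp
      obtain ⟨l0, c1, c2, c3⟩ := h2 _ i1
      have hl0 : l0 ∈ (Icc i e).filter (C.Fs s) :=
        mem_filter.2 ⟨mem_Icc.2 ⟨c1, c2⟩, lt_min_iff.1 (c3 ▸ hσ)⟩
      obtain ⟨l, d1, d2⟩ := exists_min_image _ id ⟨l0, hl0⟩
      obtain ⟨l', d3, d4⟩ := exists_max_image _ id ⟨l0, hl0⟩
      have d5 : l ≤ l' := d2 l' d3
      simp only [mem_filter, mem_Icc, id] at d1 d2 d3 d4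
      have act : ∀ j, (i ≤ j ∧ j ≤ e) ∧ C.Fs s j → j ∈ A := fun j hj =>
        mem_filter.2 ⟨mem_range.2 (by have := hj.1.2; omega),
          hj.1.2.trans i2, hj.2, i, e, x, hj.1.1, hj.1.2, i2, hx, hs⟩
      rcases D_side hx d1.1.1 d5 d3.1.2 i2 (hs.trans hσ) (h1 (i, e) l d1.1.1 d1.1.2)
        (h1 (i, e) l' d3.1.1 d3.1.2) with g | g
      · refine ⟨l, act l d1, d1.1.1, d1.1.2, le_trans ?_ le_self_add⟩
        have g1 := a3 l i ⟨d1.1.1, fun j j1 j2 j3 =>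
          absurd (d2 j ⟨⟨j1, j2.le.trans d1.1.2⟩, j3⟩) (not_le.2 j2), e, x, d1.1.2, i2, hx, hs⟩
        exact spr_le_chg (C.r0 l (d1.1.2.trans i2)) (D_P hx d1.1.1 d1.1.2 i2) (hs.trans d1.2.2) g
          (by linarith) (D_L hx d1.1.1 d1.1.2 i2)
      · refine ⟨l', act l' d3, d3.1.1, d3.1.2, le_trans ?_ le_add_self⟩
        have g1 := b3 l' e ⟨d3.1.2, i2, fun j j1 j2 j3 =>
          absurd (d4 j ⟨⟨d3.1.1.trans j1.le, j2⟩, j3⟩) (not_le.2 j1), i, x, d3.1.1, hx, hs⟩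
        exact spr_le_chg (C.r0 l' (d3.1.2.trans i2)) (D_P hx d3.1.1 d3.1.2 i2) (hs.trans d3.2.1) g
          (by linarith) (D_R hx d3.1.1 d3.1.2 i2)
    choose! φ f1 f2 f3 f4 using hp
    rw [← sum_filter_of_ne (p := fun p => x ∈ C.D p.1 p.2 ∧ x < s ∧ s < σ p)
      (f := fun p => spr (C.D p.1 p.2) (σ p) s x) fun p _ c =>
        by_contra fun d => c (by simp only [spr, if_neg d])]
    refine (sum_le_sum f4).trans ?_
    rw [← sum_image (f := fun l => f l x) (g := φ) fun p hp p' hp' c => Prod.ext_iff.2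
      (D_uniq (mem_filter.1 (mem_coe.1 hp)).2.1 (mem_filter.1 (mem_coe.1 hp')).2.1 (f2 p hp)
        (f3 p hp) ((f2 p' hp').trans_eq c.symm) (c.le.trans (f3 p' hp')))]
    refine sum_le_sum_of_subset fun l hl => ?_
    obtain ⟨p, hp, rfl⟩ := mem_image.1 hl
    exact f1 p hp
  refine (lintegral_mono key).trans ?_
  have l2 : 0 ≤ 2 * Real.log 2 := mul_nonneg zero_le_two (Real.log_nonneg one_le_two)
  have bd : ∀ {η r : ℝ}, 0 ≤ η → 0 < r → 0 ≤ min η (r / 2) / r ∧ min η (r / 2) / r ≤ 1 / 2 :=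
    fun {η r} c1 c2 => ⟨div_nonneg (le_min c1 (by linarith)) c2.le, by
      rw [div_le_iff₀ c2]
      linarith [min_le_right η (r / 2)]⟩
  have hL := fun l hl => bd (sub_nonneg.2 (a2 l)) (C.r0 l (hA' l hl).1)
  have hR := fun l hl => bd (sub_nonneg.2 (b2 l)) (C.r0 l (hA' l hl).1)
  have e1 : ∀ l ∈ A, ∫⁻ x, f l x ≤ ENNReal.ofReal (2 * Real.log 2 *
      (min (C.c l - α l) (C.r l / 2) / C.r l + min (β l - C.c l) (C.r l / 2) / C.r l)) := by
    intro l hl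
    simp only [hf]
    rw [lintegral_add_left (chg_meas _ _ _), mul_add, ENNReal.ofReal_add
      (mul_nonneg l2 (hL l hl).1) (mul_nonneg l2 (hR l hl).1)]
    exact add_le_add (chg_int _ _ (hL l hl).1 (hL l hl).2) (chg_int _ _ (hR l hl).1 (hR l hl).2)
  rw [lintegral_finsetSum (f := f) _ fun l _ => (chg_meas _ _ _).add (chg_meas _ _ _)]
  refine (sum_le_sum e1).trans ?_
  rw [← ENNReal.ofReal_sum_of_nonneg fun l hl =>
    mul_nonneg l2 (add_nonneg (hL l hl).1 (hR l hl).1), ← mul_sum, ← ENNReal.ofReal_natCast,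
    ← ENNReal.ofReal_mul (by linarith)]
  have e2 := mul_le_mul_of_nonneg_left
    (geom A hA' α β (fun l => ⟨a1 l, a2 l⟩) fun l => ⟨b1 l, b2 l⟩) l2
  exact ENNReal.ofReal_le_ofReal (by linarith)

theorem det_le : ∑ p ∈ C.prs, volume (C.D p.1 p.2) ≤
    ENNReal.ofReal (5 / 3 * Real.log 2) * ∫⁻ s, (C.N s : ℝ≥0∞) := by
  have hσ : ∀ p : ℕ × ℕ, ∃ σ, (∀ l, p.1 ≤ l → l ≤ p.2 → min (C.TL l) (C.TR l) ≤ σ) ∧
      (p.1 ≤ p.2 → ∃ l, p.1 ≤ l ∧ l ≤ p.2 ∧ σ = min (C.TL l) (C.TR l)) := by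
    intro p
    by_cases c : p.1 ≤ p.2
    · obtain ⟨l, l1, l2⟩ := exists_max_image (Icc p.1 p.2) (fun l => min (C.TL l) (C.TR l))
        (nonempty_Icc.2 c)
      exact ⟨_, fun j j1 j2 => l2 j (mem_Icc.2 ⟨j1, j2⟩),
        fun _ => ⟨l, (mem_Icc.1 l1).1, (mem_Icc.1 l1).2, rfl⟩⟩
    · exact ⟨0, fun j j1 j2 => absurd (j1.trans j2) c, fun d => absurd d c⟩
  choose σ h1 h2 using hσ
  rw [sum_congr rfl fun p hp => spr_int (C.D_meas p.1 p.2) (σ := σ p) fun x hx =>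
    (D_T hx le_rfl (C.mem_prs.1 hp).1 (C.mem_prs.1 hp).2).trans_le
      (h1 p _ le_rfl (C.mem_prs.1 hp).1), ← lintegral_const_mul' _ _ ENNReal.ofReal_ne_top]
  exact (sum_lintegral_le _ _).trans
    (lintegral_mono fun s => (sum_lintegral_le _ _).trans (C.level σ h1 h2 s))

open Classical in
theorem count (x : ℝ) :
    2 * #{i ∈ range (C.k + 1) | x ∈ Set.Ico (C.m i) (C.P i)} ≤
      C.N x + ((if x ∈ Set.Ico 0 (C.h (C.W 0)) then 1 else 0) +
        (if x ∈ Set.Ico 0 (C.h (C.W (C.k + 1))) then 1 else 0)) +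
        2 * #{p ∈ C.prs | x ∈ C.D p.1 p.2} := by
  set I := {i ∈ range (C.k + 1) | x ∈ Set.Ico (C.m i) (C.P i)} with hI
  have hI' : ∀ i ∈ I, i ≤ C.k ∧ C.m i ≤ x ∧ x < C.P i := fun i hi =>
    ⟨Nat.le_of_lt_succ (mem_range.1 (mem_filter.1 hi).1), (mem_filter.1 hi).2⟩
  have he : ∀ i ∈ I, ∃ e, i ≤ e ∧ e ≤ C.k ∧ C.m (e + 1) ≤ x ∧
      ∀ j, i < j → j ≤ e → x < C.m j := by
    intro i hi
    obtain ⟨a, b, _⟩ := hI' i hi
    have hk : i ≤ C.k ∧ C.m (C.k + 1) ≤ x := ⟨a, C.mk1.trans_le ((C.m0 i).trans b)⟩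
    have hex : ∃ e, i ≤ e ∧ C.m (e + 1) ≤ x := ⟨_, hk⟩
    refine ⟨Nat.find hex, (Nat.find_spec hex).1, Nat.find_min' hex hk, (Nat.find_spec hex).2,
      fun j j1 j2 => not_le.1 fun c => ?_⟩
    obtain ⟨j, rfl⟩ : ∃ j', j = j' + 1 := ⟨j - 1, by omega⟩
    exact Nat.find_min hex j2 ⟨by omega, c⟩
  choose! e e1 e2 e3 e4 using he
  have s1 := card_filter_add_card_filter_not (s := I) fun i => x ∈ C.D i (e i)
  have s2 : #{i ∈ I | x ∈ C.D i (e i)} ≤ #{p ∈ C.prs | x ∈ C.D p.1 p.2} :=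
    card_le_card_of_injOn (fun i => (i, e i)) (fun i hi => by
      obtain ⟨a, b⟩ := mem_filter.1 (mem_coe.1 hi)
      exact mem_coe.2 (mem_filter.2 ⟨C.mem_prs.2 ⟨e1 i a, e2 i a⟩, b⟩))
      fun i _ j _ c => congrArg Prod.fst c
  set u : ℕ := if x ∈ Set.Ico 0 (C.h (C.W 0)) then 1 else 0 with hu
  set u' : ℕ := if x ∈ Set.Ico 0 (C.h (C.W (C.k + 1))) then 1 else 0 with hu'
  set t : ℕ → ℕ := fun j => C.w x (C.W j) + (if 0 < j then u else 0) +
    (if C.k < j then u' else 0) with ht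
  have tm : ∀ i j, i ≤ j → j ≤ C.k + 1 → t i ≤ t j := fun i j c d => by
    have := C.wm x (C.W2 i j c d)
    simp only [ht]
    split_ifs <;> omega
  have s3 := tele {i ∈ I | ¬x ∈ C.D i (e i)} (fun i => (t i : ℝ)) (fun i => t (e i + 1)) 0
    (fun i hi j hj c => Nat.cast_le.2 (tm _ _ (not_lt.1 fun d =>
      absurd (e4 i (mem_filter.1 hi).1 j c (by omega))
        (not_lt.2 (hI' j (mem_filter.1 hj).1).2.1))
      (Nat.le_succ_of_le (hI' j (mem_filter.1 hj).1).1)))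
    (fun _ _ => Nat.cast_nonneg _) (t (C.k + 1)) (Nat.cast_nonneg _)
    fun i hi => Nat.cast_le.2 (tm _ _ (Nat.succ_le_succ (e2 i (mem_filter.1 hi).1)) le_rfl)
  have s4 : ∀ i ∈ {i ∈ I | ¬x ∈ C.D i (e i)}, (2 : ℝ) ≤ (t (e i + 1) : ℝ) - t i := by
    intro i hi
    obtain ⟨a, b⟩ := mem_filter.1 hi
    obtain ⟨c1, c2, c3⟩ := hI' i a
    have x0 := (C.m0 i).trans c2
    have c4 := e1 i a
    have c5 := e2 i a
    obtain ⟨z, z0, z1, z2, z3⟩ : ∃ z ∈ C.Z, C.Y i < z ∧ z < C.Y (e i + 1) ∧ x < C.h z := by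
      by_contra d
      push Not at d
      exact b ⟨c2, e3 i a, c3, e4 i a, d⟩
    have d1 := ((C.W1 i (by omega) z z0).2 z1).le
    have d2 := ((C.W1 (e i + 1) (by omega) z z0).1 z2).le
    have d3 : C.w x (C.W i) + (if 0 < i then u else 0) + 1 ≤ C.w x z + u := by
      by_cases g : C.h (C.W i) ≤ x
      · have := C.wu x i (by omega) z z0 d1 g z3
        split_ifs <;> omega
      · have g0 : i = 0 := by_contra fun g0 => g ((C.W3 i (by omega) c1).trans c2)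
        have g1 : u = 1 := if_pos ⟨x0, not_le.1 (g0 ▸ g)⟩
        have := C.wm x d1
        rw [if_neg (by omega)]
        omega
    have d4 : C.w x z + 1 ≤ C.w x (C.W (e i + 1)) + (if C.k < e i + 1 then u' else 0) := by
      by_cases g : C.h (C.W (e i + 1)) ≤ x
      · have := C.wd x (e i + 1) (by omega) z z0 d2 g z3
        omega
      · have g0 : e i = C.k := by_contra fun g0 =>
          g ((C.W3 (e i + 1) (by omega) (by omega)).trans (e3 i a))
        have g1 : u' = 1 := if_pos ⟨x0, not_le.1 (g0 ▸ g)⟩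
        have := C.wm x d2
        rw [if_pos (by omega)]
        omega
    have d5 : t i + 2 ≤ t (e i + 1) := by
      simp only [ht]
      rw [if_neg (by omega : ¬C.k < i), if_pos (Nat.succ_pos _)]
      omega
    have d6 : ((t i + 2 : ℕ) : ℝ) ≤ t (e i + 1) := Nat.cast_le.2 d5
    push_cast at d6
    linarith
  have s5 := (sum_le_sum s4).trans s3
  rw [sum_const, nsmul_eq_mul, sub_zero] at s5
  have s6 : #{i ∈ I | ¬x ∈ C.D i (e i)} * 2 ≤ t (C.k + 1) := by exact_mod_cast s5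
  have s7 : t (C.k + 1) ≤ C.N x + u + u' := by
    have := C.wN x (C.W (C.k + 1))
    simp only [ht]
    rw [if_pos (Nat.succ_pos _), if_pos (Nat.lt_succ_self _)]
    omega
  omega

theorem main {V : ℝ} (hV0 : 0 ≤ V) (hV : ∫⁻ s, (C.N s : ℝ≥0∞) ≤ ENNReal.ofReal V)
    (hA : 0 ≤ C.h (C.W 0)) (hB : 0 ≤ C.h (C.W (C.k + 1))) :
    2 * ∑ i ∈ range (C.k + 1), (C.P i - C.m i) ≤
      (1 + 10 / 3 * Real.log 2) * V + C.h (C.W 0) + C.h (C.W (C.k + 1)) := by
  classical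
  have l2 : 0 ≤ Real.log 2 := Real.log_nonneg one_le_two
  have int : ∀ {ι : Type} (I : Finset ι) (S : ι → Set ℝ), (∀ i, MeasurableSet (S i)) →
      ∫⁻ x, 2 * ∑ i ∈ I, (S i).indicator (1 : ℝ → ℝ≥0∞) x = 2 * ∑ i ∈ I, volume (S i) :=
    fun I S hS => by
      rw [lintegral_const_mul' _ _ ENNReal.ofNat_ne_top,
        lintegral_finsetSum _ fun i _ => measurable_one.indicator (hS i)]
      simp only [lintegral_indicator_one (hS _)]
  have e1 : ∀ x, 2 * ∑ i ∈ range (C.k + 1), (Set.Ico (C.m i) (C.P i)).indicator (1 : ℝ → ℝ≥0∞) x ≤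
      C.N x + ((Set.Ico 0 (C.h (C.W 0))).indicator 1 x +
        (Set.Ico 0 (C.h (C.W (C.k + 1)))).indicator 1 x) +
        2 * ∑ p ∈ C.prs, (C.D p.1 p.2).indicator 1 x := fun x => by
    have := (Nat.cast_le (α := ℝ≥0∞)).2 (C.count x)
    rw [card_filter, card_filter] at this
    push_cast at this
    simpa only [Set.indicator_apply, Pi.one_apply] using this
  have e2 := lintegral_mono (μ := volume) e1
  have mi : ∀ a b : ℝ, Measurable ((Set.Ico a b).indicator (1 : ℝ → ℝ≥0∞)) := fun _ _ =>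
    measurable_one.indicator measurableSet_Ico
  rw [int _ _ fun _ => measurableSet_Ico, lintegral_add_right _ ((Finset.measurable_sum _
    fun p _ => measurable_one.indicator (C.D_meas p.1 p.2)).const_mul _),
    int C.prs (fun p => C.D p.1 p.2) fun p => C.D_meas p.1 p.2, 
    lintegral_add_right _ ((mi _ _).fun_add (mi _ _)),
    lintegral_add_left (mi _ _), lintegral_indicator_one measurableSet_Ico,
    lintegral_indicator_one measurableSet_Ico] at e2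
  simp only [Real.volume_Ico, sub_zero] at e2
  have e3 := e2.trans (add_le_add (add_le_add hV le_rfl) (mul_le_mul_right
    (C.det_le.trans (mul_le_mul_right hV _)) _))
  have e4 : ENNReal.ofReal (2 * ∑ i ∈ range (C.k + 1), (C.P i - C.m i)) ≤
      2 * ∑ i ∈ range (C.k + 1), ENNReal.ofReal (C.P i - C.m i) := by
    rw [ENNReal.ofReal_mul zero_le_two, ENNReal.ofReal_ofNat]
    refine mul_le_mul_right ?_ _
    induction range (C.k + 1) using Finset.induction_on with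
    | empty => simp
    | insert a s ha ih =>
      rw [sum_insert ha, sum_insert ha]
      exact ENNReal.ofReal_add_le.trans (add_le_add le_rfl ih)
  have e5 := e4.trans e3
  rw [← ENNReal.ofReal_mul (by linarith), ← ENNReal.ofReal_ofNat 2,
    ← ENNReal.ofReal_mul (by norm_num), ← ENNReal.ofReal_add hA hB,
    ← ENNReal.ofReal_add hV0 (by linarith),
    ← ENNReal.ofReal_add (by linarith) (by positivity),
    ENNReal.ofReal_le_ofReal_iff (by positivity)] at e5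
  linarith

end Cfg

end Pool.Agent.Lib.MP_25e49d_an
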