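import Pool.Agent.Lib.MP_25e49d_an.ConstC
import Pool.Agent.Lib.MP_25e49d_an.BumpC

/-!
From averages to the finite data, and the main theorem.
-/

set_option autoImplicit false

namespace Pool.Agent.Lib.MP_25e49d_an

open Finset MeasureTheory Filter Topology

variable {h F M : ℝ → ℝ}

/-- Shrink a ball to the ball with the same left end centred at `y`. -/
theorem shrink_left (H : Avg h F M) {a b y P x T ε : ℝ} (hab : a < b) (hy : 2 * y ≤ a + b)
    (hε : 0 ≤ ε) (hP : (P + ε) * (b - a) < F b - F a) (hM : y ≤ a ∨ M y ≤ x)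
    (h1 : ∀ s, y ≤ s → s ≤ (a + b) / 2 → F ((a + b) / 2) - F s ≤ (x + ε) * ((a + b) / 2 - s))
    (h2 : ∀ s, (a + b) / 2 ≤ s → s ≤ b → F b - F s ≤ (T + ε) * (b - s)) :
    (b - a) / 2 * (P - x) < min ((a + b) / 2 - y) ((b - a) / 2 / 2) * (T - x) := by
  have e2 := h2 _ le_rfl (by linarith)
  rcases le_or_gt y a with c | c
  · have e1 := h1 a c (by linarith)
    rw [min_eq_right (by linarith)]
    linarith
  have e3 := H.cen y a (2 * y - a) (by linarith) (by ring)
  have e4 := mul_le_mul_of_nonneg_right (hM.resolve_left (not_le.2 c))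
    (by linarith : 0 ≤ 2 * y - a - a)
  have e5 := mul_nonneg hε (by linarith : 0 ≤ y - a)
  rcases le_total (2 * y - a) ((a + b) / 2) with d | d
  · have e1 := h1 (2 * y - a) (by linarith) d
    rw [min_eq_right (by linarith)]
    linarith
  · have e1 := h2 (2 * y - a) d (by linarith)
    rw [min_eq_left (by linarith)]
    linarith

theorem shrink_right (H : Avg h F M) {a b y P x T ε : ℝ} (hab : a < b) (hy : a + b ≤ 2 * y)
    (hε : 0 ≤ ε) (hP : (P + ε) * (b - a) < F b - F a) (hM : b ≤ y ∨ M y ≤ x)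
    (h1 : ∀ s, (a + b) / 2 ≤ s → s ≤ y → F s - F ((a + b) / 2) ≤ (x + ε) * (s - (a + b) / 2))
    (h2 : ∀ s, a ≤ s → s ≤ (a + b) / 2 → F s - F a ≤ (T + ε) * (s - a)) :
    (b - a) / 2 * (P - x) < min (y - (a + b) / 2) ((b - a) / 2 / 2) * (T - x) := by
  have e2 := h2 _ (by linarith) le_rfl
  rcases le_or_gt b y with c | c
  · have e1 := h1 b (by linarith) c
    rw [min_eq_right (by linarith)]
    linarith
  have e3 := H.cen y (2 * y - b) b (by linarith) (by ring)
  have e4 := mul_le_mul_of_nonneg_right (hM.resolve_left (not_le.2 c))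
    (by linarith : 0 ≤ b - (2 * y - b))
  have e5 := mul_nonneg hε (by linarith : 0 ≤ b - y)
  rcases le_total ((a + b) / 2) (2 * y - b) with d | d
  · have e1 := h1 (2 * y - b) d (by linarith)
    rw [min_eq_right (by linarith)]
    linarith
  · have e1 := h2 (2 * y - b) (by linarith) d
    rw [min_eq_left (by linarith)]
    linarith

/-- High points: between any two points of `G` there is an almost maximal point. -/
theorem exists_high {U : ℝ} (hU : ∀ x, h x ≤ U) (G : Finset ℝ) {ε : ℝ} (hε : 0 < ε) :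
    ∃ Z : Finset ℝ, (∀ z ∈ Z, z ∉ G ∧ (∃ s ∈ G, s < z) ∧ ∃ t ∈ G, z < t) ∧
      ∀ s ∈ G, ∀ t ∈ G, s < t → ∃ z ∈ Z, s < z ∧ z < t ∧
        ∀ x, x ∉ G → s < x → x < t → h x ≤ h z + ε := by
  classical
  have key : ∀ p : ℝ × ℝ, p.1 < p.2 → ∃ z, z ∉ G ∧ p.1 < z ∧ z < p.2 ∧
      ∀ x, x ∉ G → p.1 < x → x < p.2 → h x ≤ h z + ε := by
    intro p hp
    have hne : (h '' (Set.Ioo p.1 p.2 \ G)).Nonempty :=
      ((Set.Ioo_infinite hp).sdiff G.finite_toSet).nonempty.image h
    have hb : BddAbove (h '' (Set.Ioo p.1 p.2 \ G)) := ⟨U, by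
      rintro _ ⟨x, _, rfl⟩
      exact hU x⟩
    obtain ⟨_, ⟨z, hz, rfl⟩, c⟩ := exists_lt_of_lt_csSup hne (sub_lt_self _ hε)
    refine ⟨z, hz.2, hz.1.1, hz.1.2, fun x x0 x1 x2 => ?_⟩
    have := le_csSup hb ⟨x, ⟨⟨x1, x2⟩, x0⟩, rfl⟩
    linarith
  choose! z z0 z1 z2 z3 using key
  refine ⟨((G ×ˢ G).filter fun p => p.1 < p.2).image z, fun y hy => ?_, fun s hs t ht c =>
    ⟨z (s, t), mem_image_of_mem _ (mem_filter.2 ⟨mem_product.2 ⟨hs, ht⟩, c⟩), z1 (s, t) c,
      z2 (s, t) c, z3 (s, t) c⟩⟩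
  obtain ⟨p, hp, rfl⟩ := mem_image.1 hy
  obtain ⟨a, c⟩ := mem_filter.1 hp
  exact ⟨z0 p c, ⟨_, (mem_product.1 a).1, z1 p c⟩, _, (mem_product.1 a).2, z2 p c⟩

/-- Low points near a given point. -/
theorem exists_low (H : Avg h F M) (Z : Finset ℝ) {ε : ℝ} (hε : 0 < ε) (y : ℝ) :
    ∃ u, h u ≤ M y + ε ∧ ∀ z ∈ Z, (z < y → z < u) ∧ (y < z → u < z) := by
  classical
  obtain ⟨s, s1, s2⟩ := (insert (y - 1) (Z.filter (· < y))).exists_max_image id
    (insert_nonempty _ _)
  obtain ⟨t, t1, t2⟩ := (insert (y + 1) (Z.filter (y < ·))).exists_min_image id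
    (insert_nonempty _ _)
  have hs : s < y := (mem_insert.1 s1).elim (fun c => by linarith) fun c => (mem_filter.1 c).2
  have ht : y < t := (mem_insert.1 t1).elim (fun c => by linarith) fun c => (mem_filter.1 c).2
  obtain ⟨u, u1, u2, u3⟩ : ∃ u, s < u ∧ u < t ∧ h u < M y + ε := by
    by_contra c
    push Not at c
    linarith [H.le_M hs ht c]
  exact ⟨u, u3.le, fun z hz =>
    ⟨fun c => lt_of_le_of_lt (s2 z (mem_insert_of_mem (mem_filter.2 ⟨hz, c⟩))) u1,
      fun c => u2.trans_le (t2 z (mem_insert_of_mem (mem_filter.2 ⟨hz, c⟩)))⟩⟩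

theorem const_eps (H : Avg h F M) {v : ℝ → ℝ} {V U : ℝ} (hU : ∀ x, h x ≤ U)
    (hv : ∀ s t, s ≤ t → |h t - h s| ≤ v t - v s) (hV : ∀ s t, v t - v s ≤ V) {ε : ℝ}
    (hε : 0 < ε) (k : ℕ) (Y a b P : ℕ → ℝ)
    (hab : ∀ i, i ≤ k → a i < b i) (hYl : ∀ i, i ≤ k → 2 * Y i ≤ a i + b i)
    (hYr : ∀ i, i ≤ k → a i + b i ≤ 2 * Y (i + 1))
    (hP : ∀ i, i ≤ k → (P i + ε) * (b i - a i) < F (b i) - F (a i))
    (hA : ∀ i, 0 < i → i ≤ k → M (Y i) + ε < P i)
    (hL : ∀ i, i ≤ k → Y 0 ≤ a i) (hR : ∀ i, i ≤ k → b i ≤ Y (k + 1)) :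
    2 * (∑ i ∈ range (k + 1), P i - ∑ j ∈ range k, (M (Y (j + 1)) + ε)) ≤
      (1 + 10 / 3 * Real.log 2) * V + h (Y 0) + h (Y (k + 1)) := by
  classical
  set c : ℕ → ℝ := fun i => (a i + b i) / 2 with hc
  set G := (range (k + 2)).image Y ∪ ((range (k + 1)).image c ∪
    ((range (k + 1)).image a ∪ (range (k + 1)).image b)) with hG
  have GY : ∀ j, j ≤ k + 1 → Y j ∈ G := fun j hj =>
    mem_union_left _ (mem_image_of_mem _ (mem_range.2 (by omega)))
  have Gc : ∀ j, j ≤ k → c j ∈ G := fun j hj =>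
    mem_union_right _ (mem_union_left _ (mem_image_of_mem _ (mem_range.2 (by omega))))
  have Ga : ∀ j, j ≤ k → a j ∈ G := fun j hj => mem_union_right _ (mem_union_right _
    (mem_union_left _ (mem_image_of_mem _ (mem_range.2 (by omega)))))
  have Gb : ∀ j, j ≤ k → b j ∈ G := fun j hj => mem_union_right _ (mem_union_right _
    (mem_union_right _ (mem_image_of_mem _ (mem_range.2 (by omega)))))
  have hY : ∀ i j, i ≤ j → j ≤ k + 1 → Y i ≤ Y j := by
    intro i j hij
    induction j, hij using Nat.le_induction with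
    | base => exact fun _ => le_rfl
    | succ j hij ih =>
      intro hj
      have := hYl j (by omega)
      have := hYr j (by omega)
      have := ih (by omega)
      linarith
  have ac : ∀ i, i ≤ k → a i < c i := fun i hi => by
    have := hab i hi
    simp only [hc]
    linarith
  have cb : ∀ i, i ≤ k → c i < b i := fun i hi => by
    have := hab i hi
    simp only [hc]
    linarith
  have Gb' : ∀ s ∈ G, Y 0 ≤ s ∧ s ≤ Y (k + 1) := by
    intro s hs
    simp only [hG, mem_union, mem_image, mem_range] at hs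
    rcases hs with ⟨j, hj, rfl⟩ | ⟨j, hj, rfl⟩ | ⟨j, hj, rfl⟩ | ⟨j, hj, rfl⟩
    · exact ⟨hY _ _ (Nat.zero_le _) (by omega), hY _ _ (by omega) le_rfl⟩
    all_goals
      have j0 : j ≤ k := by omega
      constructor <;> linarith [hL j j0, hR j j0, ac j j0, cb j j0]
  obtain ⟨Z, Z1, Z2⟩ := exists_high hU G hε
  have Z3 : ∀ z ∈ Z, Y 0 < z ∧ z < Y (k + 1) := fun z hz => by
    obtain ⟨_, ⟨s, s1, s2⟩, t, t1, t2⟩ := Z1 z hz
    exact ⟨(Gb' s s1).1.trans_lt s2, t2.trans_le (Gb' t t1).2⟩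
  have up : ∀ s ∈ G, ∀ t ∈ G, ∀ x, (∀ z ∈ Z, s < z → z < t → h z ≤ x) → ∀ s' t', s ≤ s' →
      s' ≤ t' → t' ≤ t → F t' - F s' ≤ (x + ε) * (t' - s') := by
    intro s hs t ht x hx s' t' c1 c2 c3
    refine H.up G s' t' _ c2 fun y y0 y1 y2 => ?_
    obtain ⟨z, z0, z1, z2, z3⟩ := Z2 s hs t ht (by linarith)
    linarith [hx z z0 z1 z2, z3 y y0 (by linarith) (by linarith)]
  have top : ∀ s ∈ G, ∀ t ∈ G, s < t → ∃ T, (∃ z ∈ Z, s < z ∧ z < t ∧ h z = T) ∧
      ∀ z ∈ Z, s < z → z < t → h z ≤ T := by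
    intro s hs t ht d
    obtain ⟨z, z0, z1, z2, _⟩ := Z2 s hs t ht d
    obtain ⟨u, u1, u2⟩ := exists_max_image (Z.filter fun z => s < z ∧ z < t) h
      ⟨z, mem_filter.2 ⟨z0, z1, z2⟩⟩
    obtain ⟨u0, u3, u4⟩ := mem_filter.1 u1
    exact ⟨h u, ⟨u, u0, u3, u4, rfl⟩, fun y y0 y1 y2 => u2 y (mem_filter.2 ⟨y0, y1, y2⟩)⟩
  choose! TL L1 L2 using fun l hl => top _ (Ga l hl) _ (Gc l hl) (ac l hl)
  choose! TR R1 R2 using fun l hl => top _ (Gc l hl) _ (Gb l hl) (cb l hl)
  choose ω ω1 ω2 using exists_low H Z hε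
  set m : ℕ → ℝ := fun j => if 0 < j ∧ j ≤ k then M (Y j) + ε else 0 with hm
  set W : ℕ → ℝ := fun j => if 0 < j ∧ j ≤ k then ω (Y j) else Y j with hW
  have W1 : ∀ j, ∀ z ∈ Z, (z < Y j → z < W j) ∧ (Y j < z → W j < z) := fun j z hz => by
    simp only [hW]
    split_ifs
    · exact ω2 _ z hz
    · exact ⟨id, id⟩
  have W0 : W 0 = Y 0 := if_neg fun d => lt_irrefl _ d.1
  have Wk : W (k + 1) = Y (k + 1) := if_neg fun d => by omega
  have W2 : ∀ i j, i ≤ j → j ≤ k + 1 → W i ≤ W j := by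
    intro i j d1 d2
    rcases (hY i j d1 d2).eq_or_lt with d | d
    · rcases d1.eq_or_lt with rfl | d3
      · exact le_rfl
      have i0 : 0 < i := Nat.pos_of_ne_zero fun e => by
        have := hY 1 j (by omega) d2
        rw [e] at d
        linarith [hL 0 (by omega), hab 0 (by omega), hYr 0 (by omega)]
      have j0 : j ≤ k := not_lt.1 fun e => by
        have := hY i k (by omega) (by omega)
        rw [show j = k + 1 by omega] at d
        linarith [hR k le_rfl, hab k le_rfl, hYl k le_rfl]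
      simp only [hW]
      rw [if_pos ⟨i0, by omega⟩, if_pos ⟨by omega, j0⟩, d]
    · obtain ⟨z, z0, z1, z2, _⟩ := Z2 _ (GY i (by omega)) _ (GY j d2) d
      exact (((W1 i z z0).2 z1).trans ((W1 j z z0).1 z2)).le
  have mW : ∀ j, j ≤ k + 1 → W j ∈ Z ∪ (range (k + 2)).image W := fun j hj =>
    mem_union_right _ (mem_image_of_mem _ (mem_range.2 (by omega)))
  have bd : ∀ z ∈ Z ∪ (range (k + 2)).image W, Y 0 ≤ z ∧ z ≤ Y (k + 1) := fun z hz => by
    rcases mem_union.1 hz with d | d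
    · exact ⟨(Z3 z d).1.le, (Z3 z d).2.le⟩
    · obtain ⟨j, hj, rfl⟩ := mem_image.1 d
      have := mem_range.1 hj
      exact ⟨W0 ▸ W2 0 j (Nat.zero_le _) (by omega), Wk ▸ W2 j _ (by omega) le_rfl⟩
  obtain ⟨w, N, w1, w2, w3, w4⟩ := exists_cross hv _ (Y 0) (fun z hz => (bd z hz).1) (Y (k + 1))
    (hY _ _ (Nat.zero_le _) le_rfl) fun z hz => (bd z hz).2
  have ea : ∀ l, c l - (b l - a l) / 2 = a l := fun l => by
    simp only [hc]
    ring
  have eb : ∀ l, c l + (b l - a l) / 2 = b l := fun l => by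
    simp only [hc]
    ring
  have hmi : ∀ j, 0 < j → j ≤ k → m j = M (Y j) + ε := fun j d1 d2 => if_pos ⟨d1, d2⟩
  have key := Cfg.main
    { k := k, Y := Y, c := c, r := fun l => (b l - a l) / 2, P := P, m := m, TL := TL, TR := TR
      W := W, Z := Z, h := h, w := w, N := N
      Yc := fun i hi => by
        have := hYl i hi
        simp only [hc]
        linarith
      cY := fun i hi => by
        have := hYr i hi
        simp only [hc]
        linarith
      r0 := fun i hi => half_pos (sub_pos.2 (hab i hi))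
      m0 := fun j => by
        simp only [hm]
        split_ifs
        · exact add_nonneg (H.M_nonneg _) hε.le
        · exact le_rfl
      mk1 := if_neg fun d => by omega
      mP := fun l d1 d2 => hmi l d1 d2 ▸ hA l d1 d2
      ZY := fun z hz j hj e => (Z1 z hz).1 (e ▸ GY j hj)
      Zc := fun z hz j hj e => (Z1 z hz).1 (e ▸ Gc j hj)
      Z0 := fun z hz => (Z3 z hz).1
      L1 := fun l hl => by simpa only [ea] using L1 l hl
      L2 := fun l hl => by simpa only [ea] using L2 l hl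
      R1 := fun l hl => by simpa only [eb] using R1 l hl
      R2 := fun l hl => by simpa only [eb] using R2 l hl
      gL := fun i l x d1 d2 d3 d4 => shrink_left H (hab l d2)
        (by linarith [hY i l d1 (by omega), hYl l d2]) hε.le (hP l d2)
        ((Nat.eq_zero_or_pos i).imp (fun e : i = 0 => e ▸ hL l d2) fun e => by
          rw [hmi i e (by omega)] at d3
          linarith)
        (fun s s1 s2 => up _ (GY i (by omega)) _ (Gc l d2) x d4 _ _ s1 s2 le_rfl)
        fun s s1 s2 => up _ (Gc l d2) _ (Gb l d2) _ (R2 l d2) _ _ s1 s2 le_rfl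
      gR := fun l e x d1 d2 d3 d4 => shrink_right H (hab l (d1.trans d2))
        (by linarith [hY (l + 1) (e + 1) (by omega) (by omega), hYr l (d1.trans d2)]) hε.le
        (hP l (d1.trans d2))
        (d2.eq_or_lt.imp (fun g : e = k => g ▸ hR l (d1.trans d2)) fun g => by
          rw [hmi (e + 1) (by omega) g] at d3
          linarith)
        (fun s s1 s2 => up _ (Gc l (d1.trans d2)) _ (GY (e + 1) (by omega)) x d4 _ _ le_rfl s1 s2)
        fun s s1 s2 => up _ (Ga l (d1.trans d2)) _ (Gc l (d1.trans d2)) _ (L2 l (d1.trans d2)) _ _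
          le_rfl s1 s2
      W1 := fun j _ => W1 j
      W2 := W2
      W3 := fun j d1 d2 => by
        rw [hmi j d1 d2, show W j = ω (Y j) from if_pos ⟨d1, d2⟩]
        exact ω1 _
      wm := w1
      wN := w2
      wu := fun s j hj z hz d1 d2 d3 => w3 s _ (mW j hj) z (mem_union_left _ hz) d1
        fun e => absurd (e.1 d2) (not_le.2 d3)
      wd := fun s j hj z hz d1 d2 d3 => w3 s z (mem_union_left _ hz) _ (mW j hj) d1
        fun e => absurd (e.2 d2) (not_le.2 d3) }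
    (V := V) (by simpa using hV 0 0) (w4.trans (ENNReal.ofReal_le_ofReal (hV _ _))) (H.h0 _)
    (H.h0 _)
  simp only [W0, Wk] at key
  rw [sum_sub_distrib, sum_range_succ' m, show m 0 = 0 from if_neg fun d => lt_irrefl _ d.1,
    add_zero, sum_congr rfl fun j hj => hmi (j + 1) (Nat.succ_pos j) (mem_range.1 hj)] at key
  exact key

end Pool.Agent.Lib.MP_25e49d_an
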