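import Pool.Agent.Lib.MP_25e49d_an.ConstD

/-!
The variation bound with an explicit constant.
-/

set_option autoImplicit false

namespace Pool.Agent.Lib.MP_25e49d_an

open Finset MeasureTheory Filter Topology

theorem const_abstract {α : ℝ} (hα0 : 0 ≤ α) {h F M v : ℝ → ℝ} (H : Avg h F M)
    (hM1 : ∀ y s t, s ≤ t → InCore α s t y → F t - F s ≤ M y * (t - s))
    (hM3 : ∀ x c, c < M x → ∃ a b, a < b ∧ InCore α a b x ∧ c * (b - a) < F b - F a)
    {V U : ℝ} (hU : ∀ x, h x ≤ U) (hv : ∀ s t, s ≤ t → |h t - h s| ≤ v t - v s)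
    (hV : ∀ s t, v t - v s ≤ V) {u : ℕ → ℝ} (hu : Monotone u) (n : ℕ) :
    ∑ i ∈ range n, |M (u (i + 1)) - M (u i)| ≤ (1 + 10 / 3 * Real.log 2) * V := by
  refine le_of_forall_pos_le_add fun ε hε => ?_
  have hvm : Monotone v := fun s t c => sub_nonneg.1 ((abs_nonneg _).trans (hv s t c))
  obtain ⟨T0, hT0⟩ := exists_far_left hvm (V := v 0 - V) (fun z => by linarith [hV z 0])
    (ε := ε / 8) (by linarith)
  obtain ⟨T1, hT1⟩ := exists_far_right hvm (V := v 0 + V) (fun z => by linarith [hV 0 z])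
    (ε := ε / 8) (by linarith)
  have hc := chain_step (chain_seq M hu (min_le_left (u 0) (T0 - 1)) n) (le_max_left (u n) (T1 + 1))
  obtain ⟨k, x, y, h1, h2, h3, h4, h5, h6⟩ := hc
  obtain ⟨η, hη0, hη1, hη2⟩ : ∃ η : ℝ, 0 < η ∧ (k + 1) * η ≤ ε / 8 ∧
      ∀ i, i + 1 ≤ k → M (y (i + 1)) + 2 * η < M (x (i + 1)) := by
    obtain ⟨η, e1, e2⟩ := (insert (ε / 8 / (k + 1)) ((range k).image fun i =>
      (M (x (i + 1)) - M (y (i + 1))) / 3)).exists_min_image id (insert_nonempty _ _)
    have e0 : 0 < η := by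
      rcases mem_insert.1 e1 with rfl | e
      · positivity
      · obtain ⟨i, hi, rfl⟩ := mem_image.1 e
        linarith [(h4 i (mem_range.1 hi)).2]
    refine ⟨η, e0, (le_div_iff₀' (by positivity)).1 (e2 _ (mem_insert_self _ _)), fun i hi => ?_⟩
    have : η ≤ (M (x (i + 1)) - M (y (i + 1))) / 3 :=
      e2 _ (mem_insert_of_mem (mem_image_of_mem _ (mem_range.2 hi)))
    linarith
  have hball : ∀ i, ∃ a b P, i ≤ k → (a < b ∧ InCore α a b (x i) ∧ P * (b - a) < F b - F a ∧
      M (x i) - η ≤ P ∧ (0 < i → M (y i) + 2 * η < P) ∧ (i < k → M (y (i + 1)) < P)) := by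
    intro i
    by_cases hi : i ≤ k
    · have c1 : M (x i) - η < M (x i) := by linarith
      have c2 : (if 0 < i then M (y i) + 2 * η else M (x i) - η) < M (x i) := by
        split_ifs with h
        · obtain ⟨j, rfl⟩ : ∃ j, i = j + 1 := ⟨i - 1, by omega⟩
          exact hη2 j hi
        · exact c1
      have c3 : (if i < k then M (y (i + 1)) else M (x i) - η) < M (x i) := by
        split_ifs with h
        · exact (h4 i h).1
        · exact c1
      obtain ⟨P, p1, p2⟩ := exists_between (max_lt c1 (max_lt c2 c3))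
      obtain ⟨a, b, hab, hcore, hlt⟩ := hM3 (x i) P p2
      rw [max_lt_iff, max_lt_iff] at p1
      refine ⟨a, b, P, fun _ => ⟨hab, hcore, hlt, p1.1.le, fun c => ?_, fun c => ?_⟩⟩
      · have := p1.2.1
        rwa [if_pos c] at this
      · have := p1.2.2
        rwa [if_pos c] at this
    · exact ⟨0, 0, 0, fun c => absurd c hi⟩
  choose a b P hb using hball
  obtain ⟨A, hA⟩ := ((range (k + 1)).image a).bddBelow
  obtain ⟨B, hB⟩ := ((range (k + 1)).image b).bddAbove
  have hA' : ∀ i, i ≤ k → min A T0 ≤ a i := fun i hi =>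
    (min_le_left _ _).trans (hA (mem_coe.2 (mem_image_of_mem a (mem_range.2 (by omega)))))
  have hB' : ∀ i, i ≤ k → b i ≤ max B T1 := fun i hi =>
    (hB (mem_coe.2 (mem_image_of_mem b (mem_range.2 (by omega))))).trans (le_max_left _ _)
  set Y : ℕ → ℝ := fun j => if j = 0 then min A T0 else if j = k + 1 then max B T1 else y j
    with hY
  have Y0 : Y 0 = min A T0 := by simp [hY]
  have Yk : Y (k + 1) = max B T1 := by simp [hY]
  have Yi : ∀ i, i + 1 ≤ k → Y (i + 1) = y (i + 1) := by
    intro i hi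
    have e : i + 1 ≠ k + 1 := by omega
    simp only [hY, Nat.succ_ne_zero, if_false, e]
  have key := const_eps H hU hv hV hη0 k Y a b (fun i => P i - η) (fun i hi => (hb i hi).1) ?_ ?_
    (fun i hi => by rw [sub_add_cancel]; exact (hb i hi).2.2.1) ?_
    (fun i hi => Y0 ▸ hA' i hi) (fun i hi => Yk ▸ hB' i hi)
  · have e : ∑ j ∈ range k, (M (Y (j + 1)) + η) = ∑ j ∈ range k, (M (y (j + 1)) + η) :=
      sum_congr rfl fun j hj => by rw [Yi j (mem_range.mp hj)]
    have hsum : ∑ i ∈ range (k + 1), M (x i) ≤ ∑ i ∈ range (k + 1), (P i - η + 2 * η) := by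
      refine sum_le_sum fun i hi => ?_
      have := (hb i (by have := mem_range.mp hi; omega)).2.2.2.1
      linarith
    rw [sum_add_distrib, sum_const, card_range, nsmul_eq_mul] at hsum
    rw [e, sum_add_distrib, sum_const, card_range, nsmul_eq_mul] at key
    push_cast at hsum
    rw [← mul_sum, ← mul_sum] at h6
    have a4 : h (Y 0) - ε / 8 ≤ M (min (u 0) (T0 - 1)) := by
      have c0 := min_le_right (u 0) (T0 - 1)
      have c1 : Y 0 ≤ T0 := Y0 ▸ min_le_right _ _
      refine H.le_M (s := min (u 0) (T0 - 1) - 1) (t := T0) (by linarith) (by linarith)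
        fun z _ c => ?_
      rcases le_total z (Y 0) with d | d
      · linarith [(abs_le.1 (hv _ _ d)).2, hT0 (Y 0) z c1]
      · linarith [(abs_le.1 (hv _ _ d)).1, hT0 z (Y 0) c.le]
    have a5 : h (Y (k + 1)) - ε / 8 ≤ M (max (u n) (T1 + 1)) := by
      have c0 := le_max_right (u n) (T1 + 1)
      have c1 : T1 ≤ Y (k + 1) := Yk ▸ le_max_right _ _
      refine H.le_M (s := T1) (t := max (u n) (T1 + 1) + 1) (by linarith) (by linarith)
        fun z c _ => ?_
      rcases le_total z (Y (k + 1)) with d | d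
      · linarith [(abs_le.1 (hv _ _ d)).2, hT1 z (Y (k + 1)) c.le]
      · linarith [(abs_le.1 (hv _ _ d)).1, hT1 (Y (k + 1)) z c1]
    have a8 := abs_nonneg (M (max (u n) (T1 + 1)) - M (u n))
    linarith
  · intro i hi
    rcases Nat.eq_zero_or_pos i with rfl | hpos
    · have := hA' 0 hi
      have := (hb 0 hi).1
      rw [Y0]
      linarith
    · obtain ⟨j, rfl⟩ : ∃ j, i = j + 1 := ⟨i - 1, by omega⟩
      rw [Yi j hi]
      by_contra hc
      obtain ⟨e0, ⟨_, e1⟩, e4, _, e5, _⟩ := hb _ hi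
      have e2 := (h3 _ hi).1
      have e6 := mul_nonneg hα0 (sub_pos.2 e0).le
      have e3 := hM1 (y (j + 1)) _ _ e0.le ⟨by linarith, by linarith⟩
      have e7 := mul_le_mul_of_nonneg_right ((le_add_of_nonneg_right (by linarith)).trans
        (e5 hpos).le) (sub_pos.2 e0).le
      linarith
  · intro i hi
    rcases hi.eq_or_lt with rfl | hlt
    · have := hB' i hi
      have := (hb i hi).1
      rw [Yk]
      linarith
    · rw [Yi i hlt]
      by_contra hc
      obtain ⟨e0, ⟨e1, _⟩, e4, _, _, e5⟩ := hb _ hi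
      have e2 := (h3 _ hi).2
      have e6 := mul_nonneg hα0 (sub_pos.2 e0).le
      have e3 := hM1 (y (i + 1)) _ _ e0.le ⟨by linarith, by linarith⟩
      have e7 := mul_le_mul_of_nonneg_right (e5 hlt).le (sub_pos.2 e0).le
      linarith
  · intro i h0 hi
    obtain ⟨j, rfl⟩ : ∃ j, i = j + 1 := ⟨i - 1, by omega⟩
    have := (hb _ hi).2.2.2.2.1 h0
    rw [Yi j hi]
    linarith

theorem const_jordan {α : ℝ} (hα0 : 0 ≤ α) {g v : ℝ → ℝ} {V : ℝ}
    (hgi : ∀ s t, IntervalIntegrable g volume s t) {U : ℝ} (hμ : ∀ x, 0 ≤ g x)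
    (hU : ∀ x, g x ≤ U)
    (hv : ∀ s t, s ≤ t → |g t - g s| ≤ v t - v s) (hV : ∀ s t, v t - v s ≤ V)
    {u : ℕ → ℝ} (hu : Monotone u) (n : ℕ) :
    ∑ i ∈ range n, |maxFn α g (u (i + 1)) - maxFn α g (u i)| ≤
      (1 + 10 / 3 * Real.log 2) * V := by
  set F : ℝ → ℝ := fun t => ∫ s in (0:ℝ)..t, g s with hF
  have hFd : ∀ s t, F t - F s = ∫ x in s..t, g x := fun s t =>
    intervalIntegral.integral_interval_sub_left (hgi _ _) (hgi _ _)
  have up : ∀ (S : Finset ℝ) s t c, s ≤ t → (∀ x, x ∉ S → s < x → x < t → g x ≤ c) →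
      F t - F s ≤ c * (t - s) := by
    intro S s t c hst h
    rw [hFd]
    have hae : g ≤ᵐ[volume.restrict (Set.Icc s t)] fun _ => c := by
      have h1 : ∀ᵐ x ∂(volume : Measure ℝ), x ∉ (insert s (insert t (S : Set ℝ))) :=
        measure_eq_zero_iff_ae_notMem.1
          (((S.finite_toSet.insert t).insert s).measure_zero volume)
      filter_upwards [ae_restrict_mem measurableSet_Icc, ae_restrict_of_ae h1] with x x1 x2
      simp only [Set.mem_insert_iff, not_or, mem_coe] at x2
      exact h x x2.2.2 (lt_of_le_of_ne x1.1 (Ne.symm x2.1)) (lt_of_le_of_ne x1.2 x2.2.1)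
    have := intervalIntegral.integral_mono_ae_restrict hst (hgi s t)
      (intervalIntegrable_const (c := c)) hae
    rw [intervalIntegral.integral_const, smul_eq_mul] at this
    linarith
  have lo : ∀ s t c, s ≤ t → (∀ x, s < x → x < t → c ≤ g x) → c * (t - s) ≤ F t - F s := by
    intro s t c hst h
    rw [hFd]
    have := intervalIntegral.integral_mono_on_of_le_Ioo (μ := volume) hst
      (intervalIntegrable_const (c := c)) (hgi s t) (fun x hx => h x hx.1 hx.2)
    rw [intervalIntegral.integral_const, smul_eq_mul] at this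
    linarith
  have hbdd : ∀ x, BddAbove {v : ℝ | ∃ y t : ℝ, 0 < t ∧ |x - y| ≤ α * t ∧
      v = (2 * t)⁻¹ * ∫ s in (y - t)..(y + t), g s} := by
    intro x
    refine ⟨U, ?_⟩
    rintro v ⟨y, t, ht, -, rfl⟩
    have := up ∅ (y - t) (y + t) _ (by linarith) (fun x _ _ _ => hU x)
    rw [← hFd, inv_mul_le_iff₀ (by linarith)]
    linarith
  have hM1 : ∀ y s t, s ≤ t → InCore α s t y → F t - F s ≤ maxFn α g y * (t - s) := by
    intro y s t hst hc
    rcases hst.eq_or_lt with rfl | hlt
    · simp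
    · have hmem : (2 * ((t - s) / 2))⁻¹ *
          ∫ x in ((s + t) / 2 - (t - s) / 2)..((s + t) / 2 + (t - s) / 2), g x ≤ maxFn α g y := by
        refine le_csSup (hbdd y) ⟨(s + t) / 2, (t - s) / 2, by linarith, ?_, rfl⟩
        rw [abs_le]
        obtain ⟨c1, c2⟩ := hc
        constructor <;> linarith
      have e1 : (s + t) / 2 - (t - s) / 2 = s := by ring
      have e2 : (s + t) / 2 + (t - s) / 2 = t := by ring
      rw [e1, e2, ← hFd, inv_mul_le_iff₀ (by linarith)] at hmem
      linarith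
  have H : Avg g F (maxFn α g) :=
    { h0 := hμ
      up := up
      lo := lo
      cen := fun y s t hst h => by
        have e := mul_nonneg hα0 (sub_nonneg.2 hst)
        exact hM1 y s t hst ⟨by linarith, by linarith⟩ }
  refine const_abstract hα0 H hM1 (fun x c hc => ?_) hU hv hV hu n
  have hne : {v : ℝ | ∃ y t : ℝ, 0 < t ∧ |x - y| ≤ α * t ∧
      v = (2 * t)⁻¹ * ∫ s in (y - t)..(y + t), g s}.Nonempty :=
    ⟨_, x, 1, one_pos, by simp [hα0], rfl⟩
  obtain ⟨w, ⟨y, t, ht, hxy, rfl⟩, hw⟩ := exists_lt_of_lt_csSup hne hc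
  rw [abs_le] at hxy
  refine ⟨y - t, y + t, by linarith, ⟨by linarith [hxy.1, hxy.2], by linarith [hxy.1, hxy.2]⟩, ?_⟩
  rw [← hFd, lt_inv_mul_iff₀ (by linarith)] at hw
  linarith

theorem const_main {α : ℝ} (hα0 : 0 ≤ α) {f : ℝ → ℝ} (hf : BoundedVariationOn f Set.univ) :
    eVariationOn (maxFn α fun s => |f s|) Set.univ ≤
      ENNReal.ofReal (1 + 10 / 3 * Real.log 2) * eVariationOn f Set.univ := by
  have hloc := hf.locallyBoundedVariationOn
  set v : ℝ → ℝ := variationOnFromTo f Set.univ 0 with hv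
  have hd : ∀ s t, s ≤ t → abs (|f t| - |f s|) ≤ v t - v s := fun s t hst =>
    (abs_abs_sub_abs_le_abs_sub _ _).trans
      (variationOnFromTo.abs_sub_le_sub_of_le hloc (Set.mem_univ 0) (Set.mem_univ s)
        (Set.mem_univ t) hst)
  have hV : ∀ s t, v t - v s ≤ (eVariationOn f Set.univ).toReal := fun s t => by
    have e := variationOnFromTo.sub_right hloc (Set.mem_univ 0) (Set.mem_univ t) (Set.mem_univ s)
    have := (abs_le.mp (variationOnFromTo.abs_le_eVariationOn hf (a := s) (b := t))).2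
    simp only [hv]
    linarith
  generalize hW : (eVariationOn f Set.univ).toReal = V at hV
  have hp : Monotone fun x => (v x + |f x|) / 2 := by
    intro s t hst
    have := (abs_le.mp (hd s t hst)).1
    dsimp only
    linarith
  have hq : Monotone fun x => (v x - |f x|) / 2 := by
    intro s t hst
    have := (abs_le.mp (hd s t hst)).2
    dsimp only
    linarith
  have hU : ∀ x, |f x| ≤ |f 0| + V := fun x => by
    rcases le_total x 0 with h | h
    · have := (abs_le.mp (hd x 0 h)).1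
      have := hV x 0
      linarith
    · have := (abs_le.mp (hd 0 x h)).2
      have := hV 0 x
      linarith
  have hg : (fun x => |f x|) = fun x => (v x + |f x|) / 2 - (v x - |f x|) / 2 :=
    funext fun x => by ring
  have key := fun (u : ℕ → ℝ) (hu : Monotone u) (n : ℕ) =>
    const_jordan (g := fun s => |f s|) hα0 (fun s t => by
      rw [hg]
      exact hp.intervalIntegrable.sub hq.intervalIntegrable) (fun x => abs_nonneg _) hU hd hV hu n
  have l2 : 0 ≤ Real.log 2 := Real.log_nonneg one_le_two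
  rw [← ENNReal.ofReal_toReal hf, hW, ← ENNReal.ofReal_mul (by linarith)]
  unfold eVariationOn
  refine iSup_le ?_
  rintro ⟨n, u, hu, -⟩
  refine le_trans (le_of_eq ?_) (ENNReal.ofReal_le_ofReal (key u hu n))
  rw [ENNReal.ofReal_sum_of_nonneg fun i _ => abs_nonneg _]
  refine sum_congr rfl fun i _ => ?_
  rw [edist_dist, Real.dist_eq]

end Pool.Agent.Lib.MP_25e49d_an
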