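import Mathlib

set_option autoImplicit false

namespace Pool.Agent.Lib.MP_25e49d_an

open Finset

/-- `y` lies in the core of aperture `α` of the interval `[s, t]`. -/
def InCore (α s t y : ℝ) : Prop :=
  (1 + α) * s + (1 - α) * t ≤ 2 * y ∧ 2 * y ≤ (1 - α) * s + (1 + α) * t

theorem gap_ineq {wL wR D p0 p1 q0 q1 : ℝ} (hL0 : 0 ≤ wL) (hR0 : 0 ≤ wR)
    (hL : wL ≤ 2 / 3) (hR : wR ≤ 2 / 3) (hp : p0 ≤ p1) (hq : q0 ≤ q1)
    (hD : D ≤ (1 - wL - wR) * (p1 - q0) ∨ D ≤ (1 - wL - wR) * (p0 - q1)) :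
    2 * D - (1 - 2 * wL) * (p0 - q0) - (1 - 2 * wR) * (p1 - q1)
      + 2 * max (wL - 1 / 3) 0 * (p1 - p0) + 2 * max (wR - 1 / 3) 0 * (q1 - q0)
      ≤ (p1 - p0) + (q1 - q0) := by
  have h1 : max (wL - 1 / 3) 0 ≤ wL := max_le (by linarith) hL0
  have h2 : max (wR - 1 / 3) 0 ≤ wR := max_le (by linarith) hR0
  have h3 : max (wL - 1 / 3) 0 ≤ 1 - wR := max_le (by linarith) (by linarith)
  have h4 : max (wR - 1 / 3) 0 ≤ 1 - wL := max_le (by linarith) (by linarith)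
  have hp' : 0 ≤ p1 - p0 := by linarith
  have hq' : 0 ≤ q1 - q0 := by linarith
  have a1 := mul_le_mul_of_nonneg_right h1 hp'
  have a2 := mul_le_mul_of_nonneg_right h2 hq'
  have a3 := mul_le_mul_of_nonneg_right h3 hp'
  have a4 := mul_le_mul_of_nonneg_right h4 hq'
  rcases hD with hD | hD
  · nlinarith
  · nlinarith

theorem min_ineq {wR wL R L m δ dp dq : ℝ}
    (hR1 : wR ≤ 2 / 3) (hL1 : wL ≤ 2 / 3) (hR : R ≤ wR * m) (hL : L ≤ wL * m) (hδ : δ ≤ m)
    (hdp : 0 ≤ dp) (hdq : 0 ≤ dq)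
    (h : R ≤ wR * (δ + dp + dq) ∨ L ≤ wL * (δ + dp + dq)) :
    R + L + (1 - wR - wL) * δ - max (wR - 1 / 3) 0 * dq - max (wL - 1 / 3) 0 * dp ≤ m := by
  have h1 : 0 ≤ max (wR - 1 / 3) 0 * dq := mul_nonneg (le_max_right _ _) hdq
  have h2 : 0 ≤ max (wL - 1 / 3) 0 * dp := mul_nonneg (le_max_right _ _) hdp
  rcases le_or_gt (wR + wL) 1 with hs | hs
  · have : (1 - wR - wL) * δ ≤ (1 - wR - wL) * m :=
      mul_le_mul_of_nonneg_left hδ (by linarith)
    nlinarith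
  · have e1 : (wR + wL - 1) * dq ≤ max (wR - 1 / 3) 0 * dq :=
      mul_le_mul_of_nonneg_right (le_max_of_le_left (by linarith)) hdq
    have e2 : (wR + wL - 1) * dp ≤ max (wL - 1 / 3) 0 * dp :=
      mul_le_mul_of_nonneg_right (le_max_of_le_left (by linarith)) hdp
    rcases le_total m (δ + dp + dq) with hm | hm
    · have : (wR + wL - 1) * m ≤ (wR + wL - 1) * (δ + dp + dq) :=
        mul_le_mul_of_nonneg_left hm (by linarith)
      nlinarith
    · rcases h with h | h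
      · have : (1 - wL) * (δ + dp + dq) ≤ (1 - wL) * m :=
          mul_le_mul_of_nonneg_left hm (by linarith)
        nlinarith
      · have : (1 - wR) * (δ + dp + dq) ≤ (1 - wR) * m :=
          mul_le_mul_of_nonneg_left hm (by linarith)
        nlinarith

theorem swap_aux {α u β u' β' : ℝ} (hα : 1 ≤ α ^ 2 + 4 * α) (hα0 : 0 < α) (hα1 : α ≤ 1)
    (s1 : 0 < u + β) (s2 : 0 < u' + β')
    (k1 : (1 + α) * β ≤ (1 - α) * u) (k2 : (1 + α) * u' ≤ (1 - α) * β')
    (k3 : (1 + α) * β' - (1 - α) * u' < 2 * β) (k4 : (1 + α) * u - (1 - α) * β < 2 * u') :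
    (1 - α) * u' ≤ (1 + α) * β ∧ (1 - α) * β ≤ (1 + α) * u' ∧ (1 - α) * β' ≤ (1 + α) * u ∧
      (1 - α) * u ≤ (1 + α) * β' ∧ 0 ≤ u + β' ∧ 0 ≤ u' + β := by
  have c0 : 0 ≤ 1 - α := by linarith
  have c1 : 0 ≤ 1 + α := by linarith
  have t1 := mul_pos hα0 s1
  have t2 := mul_pos hα0 s2
  have hβ : 0 < β := by linarith [mul_add α u' β']
  have hu' : 0 < u' := by linarith [mul_add α u β]
  have hu : 0 < u := by
    by_contra hc
    push Not at hc
    have := mul_nonneg_of_nonpos_of_nonpos hc (neg_nonpos.mpr c0)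
    have := mul_pos hα0 hβ
    linarith
  have hβ' : 0 < β' := by
    by_contra hc
    push Not at hc
    have := mul_nonneg_of_nonpos_of_nonpos hc (neg_nonpos.mpr c0)
    have := mul_pos hα0 hu'
    linarith
  have key : (1 - α) ^ 2 ≤ 2 * α * (1 + α) := by linarith
  have m1 : 2 * α * u' ≤ (1 - α) * β := by
    linarith [mul_le_mul_of_nonneg_left k3.le c0, mul_le_mul_of_nonneg_left k2 c1]
  have m2 : 2 * α * β ≤ (1 - α) * u' := by
    linarith [mul_le_mul_of_nonneg_left k4.le c0, mul_le_mul_of_nonneg_left k1 c1]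
  have m3 : 2 * α * β' ≤ (1 - α) * u := by
    linarith [mul_le_mul_of_nonneg_left k3.le c1, mul_le_mul_of_nonneg_left k2 c0]
  have m4 : 2 * α * u ≤ (1 - α) * β' := by
    linarith [mul_le_mul_of_nonneg_left k4.le c1, mul_le_mul_of_nonneg_left k1 c0]
  have fin : ∀ r s : ℝ, 0 < s → 2 * α * r ≤ (1 - α) * s → (1 - α) * r ≤ (1 + α) * s := by
    intro r s hs hrs
    have e1 : (1 - α) * (2 * α * r) ≤ (1 - α) * ((1 - α) * s) := mul_le_mul_of_nonneg_left hrs c0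
    have e2 : (1 - α) ^ 2 * s ≤ 2 * α * (1 + α) * s := mul_le_mul_of_nonneg_right key hs.le
    have e3 : 2 * α * ((1 - α) * r) ≤ 2 * α * ((1 + α) * s) := by linarith
    exact le_of_mul_le_mul_left e3 (by linarith)
  exact ⟨fin _ _ hβ m1, fin _ _ hu' m2, fin _ _ hu m3, fin _ _ hβ' m4, by linarith, by linarith⟩

theorem swap_core {α a b a' b' y y0 y2 : ℝ} (hα : 1 ≤ α ^ 2 + 4 * α) (hα0 : 0 < α) (hα1 : α ≤ 1)
    (hab : a < b) (hab' : a' < b')
    (h0 : 2 * y0 ≤ (1 + α) * a + (1 - α) * b) (h1 : (1 - α) * a + (1 + α) * b ≤ 2 * y)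
    (h2 : 2 * y ≤ (1 + α) * a' + (1 - α) * b') (h3 : (1 - α) * a' + (1 + α) * b' ≤ 2 * y2)
    (hb : y2 < b) (ha : a' < y0) :
    InCore α a b' y ∧ InCore α a' b y ∧ a ≤ b' ∧ a' ≤ b := by
  obtain ⟨f1, f2, f3, f4, f5, f6⟩ :=
    swap_aux (u := y - a) (β := b - y) (u' := y - a') (β' := b' - y) hα hα0 hα1
      (by linarith) (by linarith) (by linarith) (by linarith) (by linarith) (by linarith)
  exact ⟨⟨by linarith, by linarith⟩, ⟨by linarith, by linarith⟩, by linarith, by linarith⟩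

theorem exists_left {α : ℝ} (hα : 1 ≤ α ^ 2 + 4 * α) (hα0 : 0 < α) (hα1 : α ≤ 1)
    {F M : ℝ → ℝ}
    (hM1 : ∀ y s t, s ≤ t → InCore α s t y → F t - F s ≤ M y * (t - s))
    {a b y : ℝ} (hab : a < b) (h : 2 * y ≤ (1 + α) * a + (1 - α) * b) :
    ∃ t, a ≤ t ∧ y ≤ t ∧ 3 * (t - a) ≤ 2 * (b - a) ∧ 2 * t ≤ (1 - α) * a + (1 + α) * b ∧
      F t - F a ≤ M y * (t - a) ∧ (y ≤ a → t = a) := by
  have hα5 : 1 / 5 ≤ α := by nlinarith
  rcases le_or_gt y a with hy | hy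
  · refine ⟨a, le_rfl, hy, by linarith, by nlinarith, by simp, fun _ => rfl⟩
  · obtain ⟨d, hd⟩ : ∃ d, (1 + α) * d = 2 * (y - a) :=
      ⟨2 * (y - a) / (1 + α), by field_simp⟩
    have c1 : 0 < 1 + α := by linarith
    have hd0 : 0 < d := by
      by_contra hc
      push Not at hc
      nlinarith
    have hd1 : (1 + α) * d ≤ (1 - α) * (b - a) := by nlinarith
    have hd2 : y - a ≤ d := by nlinarith
    have hd3 : 3 * d ≤ 2 * (b - a) := by
      have : (1 + α) * (3 * d) ≤ (1 + α) * (2 * (b - a)) := by nlinarith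
      exact le_of_mul_le_mul_left this c1
    have hd4 : 2 * d ≤ (1 + α) * (b - a) := by
      have e : 2 * (1 - α) ≤ (1 + α) ^ 2 := by nlinarith
      have e' : 2 * (1 - α) * (b - a) ≤ (1 + α) ^ 2 * (b - a) :=
        mul_le_mul_of_nonneg_right e (by linarith)
      have : (1 + α) * (2 * d) ≤ (1 + α) * ((1 + α) * (b - a)) := by nlinarith
      exact le_of_mul_le_mul_left this c1
    refine ⟨a + d, by linarith, by linarith, by linarith, by nlinarith, ?_,
      fun h' => absurd h' (not_le.mpr hy)⟩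
    exact hM1 y a (a + d) (by linarith) ⟨by nlinarith, by nlinarith⟩

theorem exists_right {α : ℝ} (hα : 1 ≤ α ^ 2 + 4 * α) (hα0 : 0 < α) (hα1 : α ≤ 1)
    {F M : ℝ → ℝ}
    (hM1 : ∀ y s t, s ≤ t → InCore α s t y → F t - F s ≤ M y * (t - s))
    {a b y : ℝ} (hab : a < b) (h : (1 - α) * a + (1 + α) * b ≤ 2 * y) :
    ∃ s, s ≤ b ∧ s ≤ y ∧ 3 * (b - s) ≤ 2 * (b - a) ∧ (1 + α) * a + (1 - α) * b ≤ 2 * s ∧
      F b - F s ≤ M y * (b - s) ∧ (b ≤ y → s = b) := by
  have hα5 : 1 / 5 ≤ α := by nlinarith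
  rcases le_or_gt b y with hy | hy
  · refine ⟨b, le_rfl, hy, by linarith, by nlinarith, by simp, fun _ => rfl⟩
  · obtain ⟨d, hd⟩ : ∃ d, (1 + α) * d = 2 * (b - y) :=
      ⟨2 * (b - y) / (1 + α), by field_simp⟩
    have c1 : 0 < 1 + α := by linarith
    have hd0 : 0 < d := by
      by_contra hc
      push Not at hc
      nlinarith
    have hd1 : (1 + α) * d ≤ (1 - α) * (b - a) := by nlinarith
    have hd2 : b - y ≤ d := by nlinarith
    have hd3 : 3 * d ≤ 2 * (b - a) := by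
      have : (1 + α) * (3 * d) ≤ (1 + α) * (2 * (b - a)) := by nlinarith
      exact le_of_mul_le_mul_left this c1
    have hd4 : 2 * d ≤ (1 + α) * (b - a) := by
      have e : 2 * (1 - α) ≤ (1 + α) ^ 2 := by nlinarith
      have e' : 2 * (1 - α) * (b - a) ≤ (1 + α) ^ 2 * (b - a) :=
        mul_le_mul_of_nonneg_right e (by linarith)
      have : (1 + α) * (2 * d) ≤ (1 + α) * ((1 + α) * (b - a)) := by nlinarith
      exact le_of_mul_le_mul_left this c1
    refine ⟨b - d, by linarith, by linarith, by linarith, by nlinarith, ?_,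
      fun h' => absurd h' (not_le.mpr hy)⟩
    exact hM1 y (b - d) b (by linarith) ⟨by nlinarith, by nlinarith⟩

end Pool.Agent.Lib.MP_25e49d_an
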